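import Mathlib

/-! The abstract staircase lemma. -/

set_option linter.unusedSectionVars false

namespace Pool.Agent.Lib.MP_deca50_lc.Odd

theorem staircase {M : Type} [AddCommGroup M] (E D : M →+ M) (p J : ℕ) (Γ : ℤ)
    (G G' : ℕ → ℤ → M → Prop)
    (hED : ∀ x, E (D x) = D (E x)) (hDD : ∀ j d x, G j d x → D (D x) = 0)
    (hsub : ∀ j d x y, G j d x → G j d y → G j d (x - y))
    (hG' : ∀ j d x, G' j d x → G j d x)
    (hE' : ∀ j d x, G' j d x → G' j (d + 1) (E x))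
    (hD : ∀ j d x, G (j + 1) d x → G j d (D x))
    (hp : ∀ j d x, G j d x → E^[p] x = 0) (hp1 : 1 ≤ p)
    (col : ∀ (j : ℕ) (d : ℤ) (r : ℕ) (x : M), r ≤ p → Γ + j + p ≤ 2 * d + r → G j d x →
      E^[r] x = 0 → ∃ y, G j (d - ((p - r : ℕ) : ℤ)) y ∧ E^[p - r] y = x)
    (row : ∀ (j : ℕ) (d : ℤ) (z : M), j < J → Γ + (j + 1) * p ≤ 2 * d → G' j d z → D z = 0 →
      ∃ w, G' (j + 1) d w ∧ D w = z)
    (top : ∀ (d : ℤ) (r : ℕ) (z : M), r ≤ p → Γ + p + (J + 1) * p ≤ 2 * d + r → G' J d z →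
      D z = 0 → E^[r] z = 0 → ∃ y, G J (d - ((p - r : ℕ) : ℤ)) y ∧ D y = 0 ∧ E^[p - r] y = z) :
    ∀ (i j : ℕ), j + i = J → ∀ (d : ℤ) (r : ℕ) (z : M), r ≤ p →
      Γ + p + (j + 1) * p ≤ 2 * d + r → G' j d z → D z = 0 → E^[r] z = 0 →
      ∃ y, G j (d - ((p - r : ℕ) : ℤ)) y ∧ D y = 0 ∧ E^[p - r] y = z ∧
        (j < J → ∃ w, G (j + 1) (d - ((p - r : ℕ) : ℤ)) w ∧ y = D w) := by
  have hEDi : ∀ (r : ℕ) (x : M), E^[r] (D x) = D (E^[r] x) := by
    intro r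
    induction r with
    | zero => intro x; rfl
    | succ r ih => intro x; rw [Function.iterate_succ_apply, hED, ih]; rfl
  have hEi : ∀ (r j : ℕ) (d : ℤ) (x : M), G' j d x → G' j (d + r) (E^[r] x) := by
    intro r
    induction r with
    | zero => intro j d x h; simpa using h
    | succ r ih =>
      intro j d x h
      rw [Function.iterate_succ_apply']
      have := hE' j _ _ (ih j d x h)
      have e : d + ((r + 1 : ℕ) : ℤ) = d + r + 1 := by push_cast; ring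
      rw [e]; exact this
  have hsubi : ∀ (r : ℕ) (x y : M), E^[r] (x - y) = E^[r] x - E^[r] y := by
    intro r x y
    exact iterate_map_sub E r x y
  intro i
  induction i with
  | zero =>
    intro j hj d r z hr hd hz hDz hEz
    have : j = J := by omega
    subst this
    obtain ⟨y, h1, h2, h3⟩ := top d r z hr hd hz hDz hEz
    exact ⟨y, h1, h2, h3, fun h => absurd h (lt_irrefl _)⟩
  | succ i ih =>
    intro j hj d r z hr hd hz hDz hEz
    have hrp : (r : ℤ) ≤ p := by exact_mod_cast hr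
    have hp1' : (1 : ℤ) ≤ p := by exact_mod_cast hp1
    obtain ⟨x, hx, rfl⟩ := row j d z (by omega) (by linarith) hz hDz
    have hx1 : G' (j + 1) (d + r) (E^[r] x) := hEi r _ _ _ hx
    have hcast : ((p - r : ℕ) : ℤ) = p - r := by push_cast [Nat.cast_sub hr]; ring
    obtain ⟨y, hy1, hy2, hy3, -⟩ := ih (j + 1) (by omega) (d + r) (p - r) (E^[r] x)
      (Nat.sub_le _ _) (by rw [hcast]; push_cast; linarith) hx1 (by rw [← hEDi, hEz])
      (by
        rw [← Function.iterate_add_apply, Nat.sub_add_cancel hr]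
        exact hp _ _ _ (hG' _ _ _ hx))
    have e1 : p - (p - r) = r := by omega
    rw [e1] at hy1 hy3
    have e2 : d + r - (r : ℤ) = d := by ring
    rw [e2] at hy1
    have hj0 : (0 : ℤ) ≤ j := Int.natCast_nonneg j
    obtain ⟨w, hw1, hw2⟩ := col (j + 1) d r (x - y) hr (by push_cast; nlinarith)
      (hsub _ _ _ _ (hG' _ _ _ hx) hy1) (by rw [hsubi, hy3, sub_self])
    refine ⟨D w, hD _ _ _ hw1, hDD _ _ _ hw1, ?_, fun _ => ⟨w, hw1, rfl⟩⟩
    rw [hEDi, hw2, map_sub, hy2, sub_zero]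

/-- The end of the staircase: an element of level `d0` with `Γ = 2 d0 - 1`. -/
theorem staircase_end {M : Type} [AddCommGroup M] (E D : M →+ M) (p J : ℕ) (d0 : ℤ)
    (G G' : ℕ → ℤ → M → Prop)
    (hED : ∀ x, E (D x) = D (E x)) (hDD : ∀ j d x, G j d x → D (D x) = 0)
    (hsub : ∀ j d x y, G j d x → G j d y → G j d (x - y))
    (hG' : ∀ j d x, G' j d x → G j d x)
    (hE' : ∀ j d x, G' j d x → G' j (d + 1) (E x))
    (hD : ∀ j d x, G (j + 1) d x → G j d (D x))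
    (hD0 : ∀ d x, G 0 d x → D x = 0)
    (hp : ∀ j d x, G j d x → E^[p] x = 0) (hp2 : 2 ≤ p) (hJ : 0 < J)
    (col : ∀ (j : ℕ) (d : ℤ) (r : ℕ) (x : M), r ≤ p → (2 * d0 - 1) + j + p ≤ 2 * d + r →
      G j d x → E^[r] x = 0 → ∃ y, G j (d - ((p - r : ℕ) : ℤ)) y ∧ E^[p - r] y = x)
    (row : ∀ (j : ℕ) (d : ℤ) (z : M), j < J → (2 * d0 - 1) + (j + 1) * p ≤ 2 * d → G' j d z →
      D z = 0 → ∃ w, G' (j + 1) d w ∧ D w = z)
    (top : ∀ (d : ℤ) (r : ℕ) (z : M), r ≤ p → (2 * d0 - 1) + p + (J + 1) * p ≤ 2 * d + r →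
      G' J d z → D z = 0 → E^[r] z = 0 →
      ∃ y, G J (d - ((p - r : ℕ) : ℤ)) y ∧ D y = 0 ∧ E^[p - r] y = z)
    (x : M) (hx : G 0 d0 x) (hx' : G' 0 (d0 + 1) (E x)) :
    ∃ w w', G 0 (d0 - 1) w ∧ G 1 d0 w' ∧ x = E w + D w' := by
  have hEi : ∀ (r j : ℕ) (d : ℤ) (x : M), G' j d x → G' j (d + r) (E^[r] x) := by
    intro r
    induction r with
    | zero => intro j d x h; simpa using h
    | succ r ih =>
      intro j d x h
      rw [Function.iterate_succ_apply']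
      have := hE' j _ _ (ih j d x h)
      have e : d + ((r + 1 : ℕ) : ℤ) = d + r + 1 := by push_cast; ring
      rw [e]; exact this
  obtain ⟨t, rfl⟩ : ∃ t, p = t + 2 := ⟨p - 2, by omega⟩
  have h1 : G' 0 (d0 + 1 + t) (E^[t + 1] x) := hEi t _ _ _ hx'
  obtain ⟨y, hy1, -, hy3, hy4⟩ := staircase E D (t + 2) J (2 * d0 - 1) G G' hED hDD hsub hG' hE'
    hD hp (by omega) col row top J 0 (by omega) (d0 + 1 + t) 1 (E^[t + 1] x) (by omega)
    (by push_cast; linarith) h1 (hD0 _ _ (hG' _ _ _ h1))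
    (by
      rw [← Function.iterate_add_apply, show 1 + (t + 1) = t + 2 by omega]
      exact hp _ _ _ hx)
  obtain ⟨w', hw', rfl⟩ := hy4 hJ
  have e1 : t + 2 - 1 = t + 1 := by omega
  rw [e1] at hy1 hy3 hw'
  have e2 : d0 + 1 + t - ((t + 1 : ℕ) : ℤ) = d0 := by push_cast; ring
  rw [e2] at hy1 hw'
  obtain ⟨w, hw1, hw2⟩ := col 0 d0 (t + 1) (x - D w') (by omega) (by push_cast; linarith)
    (hsub _ _ _ _ hx hy1) (by rw [iterate_map_sub, hy3, sub_self])
  have e3 : t + 2 - (t + 1) = 1 := by omega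
  rw [e3] at hw1 hw2
  refine ⟨w, w', by simpa using hw1, hw', ?_⟩
  have : E w = x - D w' := hw2
  rw [this, sub_add_cancel]

end Pool.Agent.Lib.MP_deca50_lc.Odd
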