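import Mathlib

/-! Abstract exactness calculus for graded modules with an operator of order `p`. -/

set_option linter.unusedSectionVars false

namespace Pool.Agent.Lib.MP_deca50_lc.Odd.ColAbs

variable {F : Type} [Field F]

/-- The operator raises the level by one. -/
def Up {M : Type} [AddCommGroup M] [Module F M] (E : Module.End F M) (L : ℤ → Submodule F M) :
    Prop := ∀ d, ∀ x ∈ L d, E x ∈ L (d + 1)

/-- Exactness above the centre `G / 2`. -/
def Van (p : ℕ) {M : Type} [AddCommGroup M] [Module F M] (E : Module.End F M)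
    (L : ℤ → Submodule F M) (G : ℤ) : Prop :=
  ∀ (d : ℤ) (r s : ℕ), r + s = p → G + p ≤ 2 * d + r → ∀ x ∈ L d, (E ^ r) x = 0 →
    ∃ y ∈ L (d - s), (E ^ s) y = x

variable {M : Type} [AddCommGroup M] [Module F M] {M' : Type} [AddCommGroup M'] [Module F M']

theorem Up.pow {E : Module.End F M} {L : ℤ → Submodule F M} (h : Up E L) (n : ℕ) (d : ℤ)
    (x : M) (hx : x ∈ L d) : (E ^ n) x ∈ L (d + n) := by
  induction n with
  | zero => simpa using hx
  | succ n ih =>
    rw [pow_succ', Module.End.mul_apply]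
    have := h _ _ ih
    have e : d + (n : ℤ) + 1 = d + ((n + 1 : ℕ) : ℤ) := by push_cast; ring
    rwa [e] at this

theorem comm_pow {E : Module.End F M} {L : ℤ → Submodule F M} (h : Up E L)
    {E' : Module.End F M'} (i : M →ₗ[F] M') (hi : ∀ d, ∀ x ∈ L d, i (E x) = E' (i x))
    (n : ℕ) (d : ℤ) (x : M) (hx : x ∈ L d) : i ((E ^ n) x) = (E' ^ n) (i x) := by
  induction n with
  | zero => simp
  | succ n ih =>
    rw [pow_succ', pow_succ', Module.End.mul_apply, Module.End.mul_apply,
      hi _ _ (h.pow n d x hx), ih]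

theorem van_retract {p : ℕ} {E : Module.End F M} {L : ℤ → Submodule F M}
    {E' : Module.End F M'} {L' : ℤ → Submodule F M'} {G : ℤ}
    (hU : Up E L) (hU' : Up E' L') (i : M →ₗ[F] M') (π : M' →ₗ[F] M)
    (hi : ∀ d, ∀ x ∈ L d, i x ∈ L' d) (hπ : ∀ d, ∀ y ∈ L' d, π y ∈ L d)
    (hiE : ∀ d, ∀ x ∈ L d, i (E x) = E' (i x)) (hπE : ∀ d, ∀ y ∈ L' d, π (E' y) = E (π y))
    (hπi : ∀ d, ∀ x ∈ L d, π (i x) = x) (hV : Van p E' L' G) : Van p E L G := by
  intro d r s hrs hd x hx h0
  have h1 : (E' ^ r) (i x) = 0 := by rw [← comm_pow hU i hiE r d x hx, h0, map_zero]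
  obtain ⟨y, hy, hy'⟩ := hV d r s hrs hd (i x) (hi d x hx) h1
  refine ⟨π y, hπ _ _ hy, ?_⟩
  rw [← comm_pow hU' π hπE s _ y hy, hy', hπi d x hx]

/-- Tensor product with a block of size two. -/
def E2 (E : Module.End F M) : Module.End F (M × M) where
  toFun x := (E x.1, E x.2 + x.1)
  map_add' x y := by ext <;> simp; abel
  map_smul' c x := by ext <;> simp

/-- Levels of the tensor product with a block of size two. -/
def L2 (L : ℤ → Submodule F M) (d : ℤ) : Submodule F (M × M) := (L d).prod (L (d - 1))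

theorem E2_apply (E : Module.End F M) (x : M × M) : E2 E x = (E x.1, E x.2 + x.1) := rfl

theorem mem_L2 {L : ℤ → Submodule F M} {d : ℤ} {x : M × M} :
    x ∈ L2 L d ↔ x.1 ∈ L d ∧ x.2 ∈ L (d - 1) := Iff.rfl

theorem up2 {E : Module.End F M} {L : ℤ → Submodule F M} (h : Up E L) : Up (E2 E) (L2 L) := by
  intro d x hx
  rw [mem_L2] at hx ⊢
  refine ⟨h _ _ hx.1, ?_⟩
  have h2 := h _ _ hx.2
  rw [sub_add_cancel] at h2
  rw [add_sub_cancel_right]
  exact Submodule.add_mem _ h2 hx.1

theorem E2_pow (E : Module.End F M) (n : ℕ) (x : M × M) :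
    (E2 E ^ (n + 1)) x = ((E ^ (n + 1)) x.1, (E ^ (n + 1)) x.2 + ((n : F) + 1) • (E ^ n) x.1) := by
  induction n with
  | zero => simp [E2_apply]
  | succ n ih =>
    rw [pow_succ' (E2 E), Module.End.mul_apply, ih, E2_apply]
    ext
    · simp [pow_succ' E (n + 1)]
    · simp only [map_add, map_smul]
      rw [← Module.End.mul_apply, ← Module.End.mul_apply, ← pow_succ', ← pow_succ']
      push_cast
      simp only [add_smul, one_smul]
      abel

theorem van2 {p : ℕ} [Fact p.Prime] [CharP F p] {E : Module.End F M} {L : ℤ → Submodule F M}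
    {G : ℤ} (hU : Up E L) (hV : Van p E L G) : Van p (E2 E) (L2 L) (G + 1) := by
  intro d r s hrs hd x hx h0
  rcases r with _ | r
  · refine ⟨0, Submodule.zero_mem _, ?_⟩
    rw [map_zero]
    simpa using h0.symm
  rcases s with _ | s
  · exact ⟨x, by simpa using hx, by simp⟩
  obtain ⟨m0, m1⟩ := x
  rw [mem_L2] at hx
  obtain ⟨hx0, hx1⟩ := hx
  rw [E2_pow] at h0
  have ha : (E ^ (r + 1)) m0 = 0 := congrArg Prod.fst h0
  have hb : (E ^ (r + 1)) m1 + ((r : F) + 1) • (E ^ r) m0 = 0 := congrArg Prod.snd h0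
  have hr : ((r : F) + 1) ≠ 0 := by
    intro h
    have h' : ((r + 1 : ℕ) : F) = 0 := by push_cast; exact h
    rw [CharP.cast_eq_zero_iff F p] at h'
    have := Nat.le_of_dvd (Nat.succ_pos r) h'
    omega
  have hs : ((s : F) + 1) = -((r : F) + 1) := by
    have h' : ((r + 1 + (s + 1) : ℕ) : F) = 0 := by rw [hrs]; exact CharP.cast_eq_zero F p
    push_cast at h'
    linear_combination h'
  have hn : E m1 + ((r : F) + 1) • m0 ∈ L d := by
    have h2 := hU _ _ hx1
    rw [sub_add_cancel] at h2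
    exact Submodule.add_mem _ h2 (Submodule.smul_mem _ _ hx0)
  obtain ⟨z, hz, hz'⟩ := hV d r (s + 2) (by omega) (by push_cast at hd; omega) _ hn (by
    rw [map_add, map_smul, ← Module.End.mul_apply, ← pow_succ]; exact hb)
  obtain ⟨t, ht, ht'⟩ := hV (d - 1) (r + 2) s (by omega) (by push_cast at hd ⊢; omega) _ hx1 (by
    have h3 := congrArg E hb
    rw [map_add, map_smul, ← Module.End.mul_apply, ← Module.End.mul_apply, ← pow_succ',
      ← pow_succ', ha, smul_zero, add_zero, map_zero] at h3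
    exact h3)
  refine ⟨(((r : F) + 1)⁻¹ • (E z - t), z), ?_, ?_⟩
  · rw [mem_L2]
    constructor
    · refine Submodule.smul_mem _ _ (Submodule.sub_mem _ ?_ ?_)
      · have h2 := hU _ _ hz
        have e : d - ((s + 2 : ℕ) : ℤ) + 1 = d - ((s + 1 : ℕ) : ℤ) := by push_cast; ring
        rwa [e] at h2
      · have e : d - 1 - (s : ℤ) = d - ((s + 1 : ℕ) : ℤ) := by push_cast; ring
        rwa [e] at ht
    · have e : d - ((s + 2 : ℕ) : ℤ) = d - ((s + 1 : ℕ) : ℤ) - 1 := by push_cast; ring
      rwa [e] at hz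
  · rw [E2_pow]
    have e1 : (E ^ (s + 1)) (E z) = E m1 + ((r : F) + 1) • m0 := by
      rw [← Module.End.mul_apply, ← pow_succ]; exact hz'
    have e2 : (E ^ (s + 1)) t = E m1 := by
      rw [pow_succ', Module.End.mul_apply, ht']
    have e3 : (E ^ s) (E z) = (E ^ (s + 1)) z := by
      rw [← Module.End.mul_apply, ← pow_succ]
    ext
    · simp only [map_smul, map_sub, e1, e2, add_sub_cancel_left, smul_smul,
        inv_mul_cancel₀ hr, one_smul]
    · simp only [map_smul, map_sub, e3, ht', hs, smul_smul, neg_mul, mul_inv_cancel₀ hr, neg_smul,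
        one_smul]
      abel

/-- Tensor product with a block of size `b + 1`. -/
def ET (b : ℕ) (E : Module.End F M) : Module.End F (ℕ → M) where
  toFun g := fun j => if j ≤ b then E (g j) + (if 1 ≤ j then g (j - 1) else 0) else 0
  map_add' x y := by
    funext j
    simp only [Pi.add_apply, map_add]
    split_ifs
    · abel
    · abel
    · simp
  map_smul' c x := by
    funext j
    simp only [Pi.smul_apply, map_smul, RingHom.id_apply]
    split_ifs <;> simp

/-- Levels of the tensor product with a block of size `b + 1`. -/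
def LT (b : ℕ) (L : ℤ → Submodule F M) (d : ℤ) : Submodule F (ℕ → M) where
  carrier := {g | (∀ j : ℕ, g j ∈ L (d - j)) ∧ ∀ j, b < j → g j = 0}
  add_mem' := by
    rintro x y ⟨hx, hx'⟩ ⟨hy, hy'⟩
    exact ⟨fun j => Submodule.add_mem _ (hx j) (hy j), fun j hj => by simp [hx' j hj, hy' j hj]⟩
  zero_mem' := ⟨fun j => Submodule.zero_mem _, fun j _ => rfl⟩
  smul_mem' := by
    rintro c x ⟨hx, hx'⟩
    exact ⟨fun j => Submodule.smul_mem _ _ (hx j), fun j hj => by simp [hx' j hj]⟩

theorem ET_apply (b : ℕ) (E : Module.End F M) (g : ℕ → M) (j : ℕ) :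
    ET b E g j = if j ≤ b then E (g j) + (if 1 ≤ j then g (j - 1) else 0) else 0 := rfl

theorem mem_LT {b : ℕ} {L : ℤ → Submodule F M} {d : ℤ} {g : ℕ → M} :
    g ∈ LT b L d ↔ (∀ j : ℕ, g j ∈ L (d - j)) ∧ ∀ j, b < j → g j = 0 := Iff.rfl

theorem upT {b : ℕ} {E : Module.End F M} {L : ℤ → Submodule F M} (h : Up E L) :
    Up (ET b E) (LT b L) := by
  intro d g hg
  rw [mem_LT] at hg ⊢
  refine ⟨fun j => ?_, fun j hj => by rw [ET_apply, if_neg (by omega)]⟩
  rw [ET_apply]
  split_ifs with h1 h2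
  · refine Submodule.add_mem _ ?_ ?_
    · have h3 := h _ _ (hg.1 j)
      have e : d - (j : ℤ) + 1 = d + 1 - j := by ring
      rwa [e] at h3
    · have h3 := hg.1 (j - 1)
      have e : d - ((j - 1 : ℕ) : ℤ) = d + 1 - j := by omega
      rwa [e] at h3
  · have h3 := h _ _ (hg.1 j)
    have e : d - (j : ℤ) + 1 = d + 1 - j := by ring
    rw [add_zero]
    rwa [e] at h3
  · exact Submodule.zero_mem _

theorem vanT1 {p : ℕ} [Fact p.Prime] [CharP F p] {E : Module.End F M} {L : ℤ → Submodule F M}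
    {G : ℤ} (hU : Up E L) (hV : Van p E L G) : Van p (ET 1 E) (LT 1 L) (G + 1) := by
  let i : (ℕ → M) →ₗ[F] M × M :=
    { toFun := fun g => (g 0, g 1)
      map_add' := fun _ _ => rfl
      map_smul' := fun _ _ => rfl }
  let π : M × M →ₗ[F] (ℕ → M) :=
    { toFun := fun x j => if j = 0 then x.1 else if j = 1 then x.2 else 0
      map_add' := fun x y => by funext j; simp only [Pi.add_apply]; split_ifs <;> simp
      map_smul' := fun c x => by funext j; simp only [Pi.smul_apply]; split_ifs <;> simp }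
  have hi : ∀ g, i g = (g 0, g 1) := fun _ => rfl
  have hπ : ∀ x j, π x j = if j = 0 then x.1 else if j = 1 then x.2 else 0 := fun _ _ => rfl
  refine van_retract (upT hU) (up2 hU) i π ?_ ?_ ?_ ?_ ?_ (van2 hU hV)
  · intro d g hg
    rw [hi, mem_L2]
    exact ⟨by simpa using hg.1 0, by simpa using hg.1 1⟩
  · intro d x hx
    rw [mem_L2] at hx
    refine ⟨fun j => ?_, fun j hj => by rw [hπ, if_neg (by omega), if_neg (by omega)]⟩
    rw [hπ]
    split_ifs with h1 h2
    · subst h1; simpa using hx.1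
    · subst h2; simpa using hx.2
    · exact Submodule.zero_mem _
  · intro d g _
    simp [hi, E2_apply, ET_apply]
  · intro d x _
    funext j
    rcases j with _ | _ | j <;> simp [hπ, E2_apply, ET_apply]
  · intro d g hg
    funext j
    rcases j with _ | _ | j
    · simp [hπ, hi]
    · simp [hπ, hi]
    · simp [hπ, hi, hg.2 (j + 2) (by omega)]

theorem vanT2 {p : ℕ} [Fact p.Prime] [CharP F p] (hp : 3 ≤ p) {E : Module.End F M}
    {L : ℤ → Submodule F M} {G : ℤ} (hU : Up E L) (hV : Van p E L G) :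
    Van p (ET 2 E) (LT 2 L) (G + 2) := by
  have h2 : (2 : F) ≠ 0 := by
    intro h
    have h' : ((2 : ℕ) : F) = 0 := by push_cast; exact h
    rw [CharP.cast_eq_zero_iff F p] at h'
    have := Nat.le_of_dvd (by norm_num) h'
    omega
  have hh : ∀ m : M, (2 : F)⁻¹ • (m + m) = m := by
    intro m
    rw [← two_smul F m, smul_smul, inv_mul_cancel₀ h2, one_smul]
  let i : (ℕ → M) →ₗ[F] (M × M) × (M × M) :=
    { toFun := fun g => ((g 0, g 1), (g 1, g 2 + g 2))
      map_add' := fun _ _ => by ext <;> simp; abel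
      map_smul' := fun _ _ => by ext <;> simp }
  let π : (M × M) × (M × M) →ₗ[F] (ℕ → M) :=
    { toFun := fun x j => if j = 0 then x.1.1 else if j = 1 then (2 : F)⁻¹ • (x.1.2 + x.2.1)
        else if j = 2 then (2 : F)⁻¹ • x.2.2 else 0
      map_add' := fun x y => by
        funext j; simp only [Pi.add_apply]; split_ifs <;> simp; abel
      map_smul' := fun c x => by
        funext j; simp only [Pi.smul_apply]
        split_ifs <;> simp [smul_comm c (2 : F)⁻¹] }
  have hi : ∀ g, i g = ((g 0, g 1), (g 1, g 2 + g 2)) := fun _ => rfl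
  have hπ : ∀ x j, π x j = if j = 0 then x.1.1 else if j = 1 then (2 : F)⁻¹ • (x.1.2 + x.2.1)
        else if j = 2 then (2 : F)⁻¹ • x.2.2 else 0 := fun _ _ => rfl
  have hV2 := van2 (up2 hU) (van2 hU hV)
  have e : G + 1 + 1 = G + 2 := by ring
  rw [e] at hV2
  refine van_retract (upT hU) (up2 (up2 hU)) i π ?_ ?_ ?_ ?_ ?_ hV2
  · intro d g hg
    rw [hi, mem_L2, mem_L2, mem_L2]
    have g2 : g 2 ∈ L (d - 1 - 1) := by
      have := hg.1 2
      have e : d - ((2 : ℕ) : ℤ) = d - 1 - 1 := by push_cast; ring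
      rwa [e] at this
    exact ⟨⟨by simpa using hg.1 0, by simpa using hg.1 1⟩, by simpa using hg.1 1,
      Submodule.add_mem _ g2 g2⟩
  · intro d x hx
    rw [mem_L2, mem_L2, mem_L2] at hx
    refine ⟨fun j => ?_, fun j hj => by
      rw [hπ, if_neg (by omega), if_neg (by omega), if_neg (by omega)]⟩
    rw [hπ]
    split_ifs with h1 h2 h3
    · subst h1; simpa using hx.1.1
    · subst h2
      exact Submodule.smul_mem _ _ (by simpa using Submodule.add_mem _ hx.1.2 hx.2.1)
    · subst h3
      have e : d - ((2 : ℕ) : ℤ) = d - 1 - 1 := by push_cast; ring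
      rw [e]
      exact Submodule.smul_mem _ _ hx.2.2
    · exact Submodule.zero_mem _
  · intro d g _
    rw [hi, hi, E2_apply, E2_apply, E2_apply]
    ext <;> simp [ET_apply]
    abel
  · intro d x _
    funext j
    rcases j with _ | _ | _ | j
    · simp [hπ, E2_apply, ET_apply]
    · simp only [hπ, E2_apply, ET_apply]
      simp only [zero_add, one_ne_zero, if_false, if_true, Nat.one_le_ofNat, le_refl, Nat.sub_self,
        map_smul, map_add, Prod.snd_add, Prod.fst_add]
      conv_rhs => rw [← hh x.1.1]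
      rw [← smul_add]
      congr 1
      abel
    · simp only [hπ, E2_apply, ET_apply]
      simp [smul_add]
      abel
    · simp [hπ, E2_apply, ET_apply]
  · intro d g hg
    funext j
    rcases j with _ | _ | _ | j
    · simp [hπ, hi]
    · simp only [hπ, hi]; simpa using hh (g 1)
    · simp only [hπ, hi]; simpa using hh (g 2)
    · simp [hπ, hi, hg.2 (j + 3) (by omega)]

end Pool.Agent.Lib.MP_deca50_lc.Odd.ColAbs
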