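import Pool.Agent.Lib.MP_deca50_lc.Odd.Defs
import Pool.Agent.Lib.MP_deca50_lc.Odd.ColAbs

/-! Columns: tensor products of Jordan blocks of size at most three in characteristic `p`. -/

set_option linter.unusedSectionVars false

namespace Pool.Agent.Lib.MP_deca50_lc.Odd

variable {F : Type} [Field F] {ι : Type} [Fintype ι] [DecidableEq ι]

namespace ColAux

open ColAbs

variable {W : Type} [AddCommGroup W] [Module F W]

/-- The raising operator as a linear map. -/
def upL (F : Type) [Field F] {W : Type} [AddCommGroup W] [Module F W] (β : ι → ℕ) :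
    Module.End F ((ι → ℕ) → W) where
  toFun := Odd.upT β
  map_add' f g := by
    funext μ
    simp only [Odd.upT, Pi.add_apply]
    split_ifs
    · rw [← Finset.sum_add_distrib]
      refine Finset.sum_congr rfl fun u _ => ?_
      split_ifs <;> simp
    · simp
  map_smul' c f := by
    funext μ
    simp only [Odd.upT, Pi.smul_apply, RingHom.id_apply]
    split_ifs
    · rw [Finset.smul_sum]
      refine Finset.sum_congr rfl fun u _ => ?_
      split_ifs <;> simp
    · simp

theorem upL_apply (β : ι → ℕ) (f : (ι → ℕ) → W) (μ : ι → ℕ) :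
    upL F β f μ =
      if ∀ v, μ v ≤ β v then ∑ u, (if 1 ≤ μ u then f (μ - Pi.single u 1) else 0) else 0 := rfl

theorem upL_pow (β : ι → ℕ) (n : ℕ) (f : (ι → ℕ) → W) :
    (upL F β ^ n) f = (Odd.upT β)^[n] f := Module.End.pow_apply _ _ _

/-- The shift in one coordinate. -/
def sh (F : Type) [Field F] {W : Type} [AddCommGroup W] [Module F W] (β : ι → ℕ) (u : ι) :
    Module.End F ((ι → ℕ) → W) where
  toFun f := fun μ => if (∀ v, μ v ≤ β v) ∧ 1 ≤ μ u then f (μ - Pi.single u 1) else 0
  map_add' f g := by funext μ; simp only [Pi.add_apply]; split_ifs <;> simp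
  map_smul' c f := by
    funext μ; simp only [Pi.smul_apply, RingHom.id_apply]; split_ifs <;> simp

theorem sh_apply (β : ι → ℕ) (u : ι) (f : (ι → ℕ) → W) (μ : ι → ℕ) :
    sh F β u f μ = if (∀ v, μ v ≤ β v) ∧ 1 ≤ μ u then f (μ - Pi.single u 1) else 0 := rfl

theorem upL_eq_sum (β : ι → ℕ) : (upL F β : Module.End F ((ι → ℕ) → W)) = ∑ u, sh F β u := by
  refine LinearMap.ext fun f => funext fun μ => ?_
  rw [upL_apply, LinearMap.sum_apply, Finset.sum_apply]
  by_cases h : ∀ v, μ v ≤ β v
  · rw [if_pos h]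
    refine Finset.sum_congr rfl fun u _ => ?_
    rw [sh_apply]
    simp [h]
  · rw [if_neg h]
    refine (Finset.sum_eq_zero fun u _ => ?_).symm
    rw [sh_apply, if_neg (fun h' => h h'.1)]

theorem sub_le_box {β μ : ι → ℕ} (h : ∀ v, μ v ≤ β v) (ν : ι → ℕ) : ∀ v, (μ - ν) v ≤ β v :=
  fun v => le_trans (Nat.sub_le _ _) (h v)

theorem sh_comm (β : ι → ℕ) (u v : ι) :
    Commute (sh F β u : Module.End F ((ι → ℕ) → W)) (sh F β v) := by
  by_cases huv : u = v
  · subst huv; exact Commute.refl _
  refine LinearMap.ext fun f => funext fun μ => ?_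
  simp only [Module.End.mul_apply, sh_apply]
  by_cases h : ∀ w, μ w ≤ β w
  · have e1 : (μ - Pi.single u 1 : ι → ℕ) v = μ v := by
      simp [Pi.single_eq_of_ne (Ne.symm huv)]
    have e2 : (μ - Pi.single v 1 : ι → ℕ) u = μ u := by simp [Pi.single_eq_of_ne huv]
    have e3 : (μ - Pi.single u 1 - Pi.single v 1 : ι → ℕ) = μ - Pi.single v 1 - Pi.single u 1 := by
      funext w; simp only [Pi.sub_apply]; omega
    simp only [h, sub_le_box h, implies_true, true_and, e1, e2, e3]
    split_ifs <;> rfl
  · rw [if_neg (fun h' => h h'.1), if_neg (fun h' => h h'.1)]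

theorem sh_pow (β : ι → ℕ) (u : ι) (n : ℕ) (f : (ι → ℕ) → W) (μ : ι → ℕ) (h : μ u < n) :
    (sh F β u ^ n) f μ = 0 := by
  induction n generalizing μ with
  | zero => omega
  | succ n ih =>
    rw [pow_succ', Module.End.mul_apply, sh_apply]
    split_ifs with h1
    · refine ih _ ?_
      have := h1.2
      simp only [Pi.sub_apply, Pi.single_eq_same]
      omega
    · rfl

theorem sh_pow_p (p : ℕ) (hp : 0 < p) (β : ι → ℕ) (hβ : ∀ u, β u < p) (u : ι) :
    (sh F β u : Module.End F ((ι → ℕ) → W)) ^ p = 0 := by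
  refine LinearMap.ext fun f => funext fun μ => ?_
  by_cases h : μ u < p
  · exact sh_pow β u p f μ h
  · obtain ⟨n, rfl⟩ : ∃ n, p = n + 1 := ⟨p - 1, by omega⟩
    rw [pow_succ', Module.End.mul_apply, sh_apply, if_neg]
    · rfl
    · intro h'
      have := h'.1 u
      have := hβ u
      omega

theorem sum_sh_pow (p : ℕ) [Fact p.Prime] [CharP F p] (β : ι → ℕ) (hβ : ∀ u, β u < p)
    (s : Finset ι) : (∑ u ∈ s, (sh F β u : Module.End F ((ι → ℕ) → W))) ^ p = 0 := by
  have hp : p.Prime := Fact.out
  induction s using Finset.induction_on with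
  | empty => simp [hp.ne_zero]
  | insert u s hu ih =>
    rw [Finset.sum_insert hu]
    have hc : Commute (sh F β u : Module.End F ((ι → ℕ) → W)) (∑ v ∈ s, sh F β v) :=
      Commute.sum_right _ _ _ fun v _ => sh_comm β u v
    obtain ⟨r, hr⟩ := hc.exists_add_pow_prime_eq hp
    have h0 : ((p : ℕ) : Module.End F ((ι → ℕ) → W)) = 0 := by
      rw [← map_natCast (algebraMap F (Module.End F ((ι → ℕ) → W))), CharP.cast_eq_zero F p,
        map_zero]
    rw [hr, ih, sh_pow_p p hp.pos β hβ u, h0]
    simp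

/-- Functions with values in `N`, supported on the level `d` of the box `β`. -/
def LB (N : Submodule F W) (β : ι → ℕ) (d : ℤ) : Submodule F ((ι → ℕ) → W) where
  carrier := {f | (∀ μ, f μ ∈ N) ∧
    ∀ μ, ¬ ((∀ v, μ v ≤ β v) ∧ ((∑ u, μ u : ℕ) : ℤ) = d) → f μ = 0}
  add_mem' := by
    rintro x y ⟨hx, hx'⟩ ⟨hy, hy'⟩
    exact ⟨fun j => Submodule.add_mem _ (hx j) (hy j), fun j hj => by simp [hx' j hj, hy' j hj]⟩
  zero_mem' := ⟨fun j => Submodule.zero_mem _, fun j _ => rfl⟩
  smul_mem' := by
    rintro c x ⟨hx, hx'⟩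
    exact ⟨fun j => Submodule.smul_mem _ _ (hx j), fun j hj => by simp [hx' j hj]⟩

theorem mem_LB {N : Submodule F W} {β : ι → ℕ} {d : ℤ} {f : (ι → ℕ) → W} :
    f ∈ LB N β d ↔ (∀ μ, f μ ∈ N) ∧
      ∀ μ, ¬ ((∀ v, μ v ≤ β v) ∧ ((∑ u, μ u : ℕ) : ℤ) = d) → f μ = 0 := Iff.rfl

theorem sum_sub_single (μ : ι → ℕ) (u : ι) (h : 1 ≤ μ u) :
    ∑ v, (μ - Pi.single u 1 : ι → ℕ) v + 1 = ∑ v, μ v := by
  have e : μ = (μ - Pi.single u 1) + Pi.single u 1 := by
    funext w
    by_cases hw : w = u
    · subst hw; simp; omega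
    · simp [Pi.single_eq_of_ne hw]
  conv_rhs => rw [e]
  simp [Finset.sum_add_distrib]

theorem sum_update (μ : ι → ℕ) (u : ι) (j : ℕ) :
    ∑ v, Function.update μ u j v + μ u = ∑ v, μ v + j := by
  rw [Finset.sum_update_of_mem (Finset.mem_univ u),
    ← Finset.add_sum_erase Finset.univ μ (Finset.mem_univ u), Finset.sdiff_singleton_eq_erase]
  ring

theorem up_LB (N : Submodule F W) (β : ι → ℕ) : Up (upL F β) (LB N β) := by
  intro d f hf
  rw [mem_LB] at hf ⊢
  constructor
  · intro μ
    rw [upL_apply]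
    split_ifs
    · refine Submodule.sum_mem _ fun u _ => ?_
      split_ifs
      · exact hf.1 _
      · exact Submodule.zero_mem _
    · exact Submodule.zero_mem _
  · intro μ hμ
    rw [upL_apply]
    split_ifs with h
    · refine Finset.sum_eq_zero fun u _ => ?_
      split_ifs with h1
      · refine hf.2 _ fun h2 => hμ ⟨h, ?_⟩
        have h3 := sum_sub_single μ u h1
        have h4 := h2.2
        omega
      · rfl
    · rfl

theorem van_zero (p : ℕ) (N : Submodule F W) :
    Van p (upL F (0 : ι → ℕ)) (LB N (0 : ι → ℕ)) 0 := by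
  intro d r s hrs hd x hx h0
  by_cases hs : s = 0
  · subst hs
    exact ⟨x, by simpa using hx, by simp⟩
  · refine ⟨0, Submodule.zero_mem _, ?_⟩
    rw [map_zero]
    funext μ
    refine (hx.2 μ fun h => ?_).symm
    have h1 : μ = 0 := funext fun v => Nat.le_zero.1 (h.1 v)
    have h2 := h.2
    rw [h1] at h2
    simp at h2
    omega

/-- Slices in the coordinate `u`. -/
def sl (F : Type) [Field F] {W : Type} [AddCommGroup W] [Module F W] (u : ι) :
    ((ι → ℕ) → W) →ₗ[F] (ℕ → (ι → ℕ) → W) where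
  toFun f := fun j μ => if μ u = 0 then f (Function.update μ u j) else 0
  map_add' f g := by funext j μ; simp only [Pi.add_apply]; split_ifs <;> simp
  map_smul' c f := by
    funext j μ; simp only [Pi.smul_apply, RingHom.id_apply]; split_ifs <;> simp

/-- Gluing of slices. -/
def gl (F : Type) [Field F] {W : Type} [AddCommGroup W] [Module F W] (u : ι) :
    (ℕ → (ι → ℕ) → W) →ₗ[F] ((ι → ℕ) → W) where
  toFun g := fun μ => g (μ u) (Function.update μ u 0)
  map_add' _ _ := rfl
  map_smul' _ _ := rfl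

theorem sl_apply (u : ι) (f : (ι → ℕ) → W) (j : ℕ) (μ : ι → ℕ) :
    sl F u f j μ = if μ u = 0 then f (Function.update μ u j) else 0 := rfl

theorem gl_apply (u : ι) (g : ℕ → (ι → ℕ) → W) (μ : ι → ℕ) :
    gl F u g μ = g (μ u) (Function.update μ u 0) := rfl

theorem gl_sl (u : ι) (f : (ι → ℕ) → W) : gl F u (sl F u f) = f := by
  funext μ
  simp [gl_apply, sl_apply]

theorem box_update {β μ : ι → ℕ} {u : ι} {j : ℕ} (h0 : μ u = 0) :
    (∀ v, Function.update μ u j v ≤ β v) ↔ j ≤ β u ∧ ∀ v, μ v ≤ Function.update β u 0 v := by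
  constructor
  · intro h
    refine ⟨by simpa using h u, fun v => ?_⟩
    by_cases hv : v = u
    · subst hv; simp [h0]
    · simpa [Function.update_of_ne hv] using h v
  · rintro ⟨h1, h2⟩ v
    by_cases hv : v = u
    · subst hv; simpa using h1
    · simpa [Function.update_of_ne hv] using h2 v

theorem van_step {p : ℕ} (N : Submodule F W) (β : ι → ℕ) (u : ι) {G : ℤ}
    (hV : Van p (ET (β u) (upL F (Function.update β u 0)))
      (ColAbs.LT (β u) (LB N (Function.update β u 0))) G) :
    Van p (upL F β) (LB N β) G := by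
  have hi : ∀ d, ∀ f ∈ LB N β d,
      sl F u f ∈ ColAbs.LT (β u) (LB N (Function.update β u 0)) d := by
    intro d f hf
    refine ⟨fun j => ⟨fun μ => ?_, fun μ hμ => ?_⟩, fun j hj => funext fun μ => ?_⟩
    · rw [sl_apply]
      split_ifs
      · exact hf.1 _
      · exact Submodule.zero_mem _
    · rw [sl_apply]
      split_ifs with h0
      · refine hf.2 _ fun h => hμ ⟨((box_update h0).1 h.1).2, ?_⟩
        have h3 := sum_update μ u j
        have h4 := h.2
        omega
      · rfl
    · rw [sl_apply]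
      split_ifs with h0
      · refine hf.2 _ fun h => ?_
        have := ((box_update h0).1 h.1).1
        omega
      · rfl
  have hπ : ∀ d, ∀ g ∈ ColAbs.LT (β u) (LB N (Function.update β u 0)) d,
      gl F u g ∈ LB N β d := by
    intro d g hg
    refine ⟨fun μ => (hg.1 (μ u)).1 _, fun μ hμ => ?_⟩
    rw [gl_apply]
    by_cases hj : β u < μ u
    · rw [hg.2 _ hj]; rfl
    · refine (hg.1 (μ u)).2 _ fun h => hμ ⟨?_, ?_⟩
      · have h1 := (box_update (β := β) (μ := Function.update μ u 0) (u := u) (j := μ u)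
          (by simp)).2 ⟨by omega, h.1⟩
        simpa using h1
      · have h3 := sum_update μ u 0
        have h4 := h.2
        omega
  have hiπ : ∀ d, ∀ g ∈ ColAbs.LT (β u) (LB N (Function.update β u 0)) d,
      sl F u (gl F u g) = g := by
    intro d g hg
    funext j μ
    rw [sl_apply]
    split_ifs with h0
    · rw [gl_apply]
      simp only [Function.update_self, Function.update_idem]
      rw [← h0, Function.update_eq_self]
    · refine ((hg.1 j).2 μ fun h => h0 ?_).symm
      simpa using h.1 u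
  have hiE : ∀ d, ∀ f ∈ LB N β d,
      sl F u (upL F β f) = ET (β u) (upL F (Function.update β u 0)) (sl F u f) := by
    intro d f hf
    funext j μ
    rw [ET_apply, sl_apply]
    by_cases h0 : μ u = 0
    swap
    · rw [if_neg h0]
      have hb : ¬ ∀ v, μ v ≤ Function.update β u 0 v := fun h => h0 (by simpa using h u)
      split_ifs
      · simp [upL_apply, hb, sl_apply, h0]
      · simp [upL_apply, hb]
      · rfl
    rw [if_pos h0, upL_apply]
    by_cases hj : j ≤ β u
    swap
    · rw [if_neg hj, if_neg fun h => hj ((box_update h0).1 h).1]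
      rfl
    rw [if_pos hj, Pi.add_apply, upL_apply]
    by_cases hb : ∀ v, μ v ≤ Function.update β u 0 v
    · rw [if_pos hb, if_pos ((box_update h0).2 ⟨hj, hb⟩),
        ← Finset.add_sum_erase Finset.univ _ (Finset.mem_univ u),
        ← Finset.add_sum_erase Finset.univ _ (Finset.mem_univ u), add_comm]
      have e1 : (if 1 ≤ μ u then sl F u f j (μ - Pi.single u 1) else 0) = 0 := by
        rw [if_neg (by omega)]
      rw [e1, zero_add]
      congr 1
      · refine Finset.sum_congr rfl fun v hv => ?_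
        have hvu : v ≠ u := Finset.ne_of_mem_erase hv
        rw [Function.update_of_ne hvu, sl_apply, if_pos (show (μ - Pi.single v 1 : ι → ℕ) u = 0 by
          simp [h0])]
        have e : (Function.update μ u j - Pi.single v 1 : ι → ℕ) =
            Function.update (μ - Pi.single v 1) u j := by
          funext w
          by_cases hw : w = u
          · subst hw; simp [Pi.single_eq_of_ne (Ne.symm hvu)]
          · simp [Function.update_of_ne hw]
        rw [e]
      · rw [Function.update_self]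
        split_ifs with h1
        · rw [sl_apply, if_pos h0]
          congr 1
          funext w
          by_cases hw : w = u
          · subst hw; simp
          · simp [Function.update_of_ne hw, Pi.single_eq_of_ne hw]
        · rfl
    · rw [if_neg hb, if_neg fun h => hb ((box_update h0).1 h).2, zero_add]
      split_ifs with h1
      · rw [sl_apply, if_pos h0]
        exact (hf.2 _ fun h => hb ((box_update h0).1 h.1).2).symm
      · rfl
  refine van_retract (up_LB N β) (ColAbs.upT (up_LB N _)) (sl F u) (gl F u) hi hπ hiE ?_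
    (fun _ f _ => gl_sl u f) hV
  intro d g hg
  conv_lhs => rw [← hiπ d g hg, ← hiE d _ (hπ d g hg), gl_sl]

theorem van_box (p : ℕ) [Fact p.Prime] [CharP F p] (hp : 3 ≤ p) (N : Submodule F W)
    (s : Finset ι) : ∀ β : ι → ℕ, (∀ u, β u ≤ 2) → (∀ u, u ∉ s → β u = 0) →
      Van p (upL F β) (LB N β) ((∑ u, β u : ℕ) : ℤ) := by
  induction s using Finset.induction_on with
  | empty =>
    intro β _ h
    have : β = 0 := funext fun u => h u (Finset.notMem_empty u)
    subst this
    simpa using van_zero p N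
  | insert u s hu ih =>
    intro β hβ h
    have h1 := ih (Function.update β u 0)
      (fun v => by
        by_cases hv : v = u
        · subst hv; simp
        · simpa [Function.update_of_ne hv] using hβ v)
      (fun v hv => by
        by_cases hv' : v = u
        · subst hv'; simp
        · rw [Function.update_of_ne hv']
          exact h v (by simp [hv', hv]))
    have h2 := sum_update β u 0
    have h3 := hβ u
    rcases (show β u = 0 ∨ β u = 1 ∨ β u = 2 by omega) with h4 | h4 | h4
    · have e : Function.update β u 0 = β := by rw [← h4, Function.update_eq_self]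
      rwa [e] at h1
    · refine van_step N β u ?_
      have e : ((∑ v, β v : ℕ) : ℤ) = ((∑ v, Function.update β u 0 v : ℕ) : ℤ) + 1 := by omega
      rw [e, h4]
      exact vanT1 (up_LB N _) h1
    · refine van_step N β u ?_
      have e : ((∑ v, β v : ℕ) : ℤ) = ((∑ v, Function.update β u 0 v : ℕ) : ℤ) + 2 := by omega
      rw [e, h4]
      exact vanT2 hp (up_LB N _) h1

end ColAux

theorem upT_iterate_p (p : ℕ) [Fact p.Prime] [CharP F p] {W : Type} [AddCommGroup W] [Module F W]
    (β : ι → ℕ) (hβ : ∀ u, β u < p) (f : (ι → ℕ) → W) : (upT β)^[p] f = 0 := by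
  rw [← ColAux.upL_pow (F := F), ColAux.upL_eq_sum, ColAux.sum_sh_pow p β hβ]
  rfl

theorem col_exact (p : ℕ) [Fact p.Prime] [CharP F p] (hp : 3 ≤ p)
    {W : Type} [AddCommGroup W] [Module F W] (N : Submodule F W)
    (β : ι → ℕ) (hβ : ∀ u, β u ≤ 2) (d r : ℕ) (hr : r ≤ p) (hd : ∑ u, β u + p ≤ 2 * d + r)
    (f : (ι → ℕ) → W) (hN : ∀ μ, f μ ∈ N) (hf : ∀ μ, f μ ≠ 0 → (∀ v, μ v ≤ β v) ∧ ∑ u, μ u = d)
    (h0 : (upT β)^[r] f = 0) :
    ∃ g : (ι → ℕ) → W, (∀ μ, g μ ∈ N) ∧ (∀ μ, g μ ≠ 0 → (∀ v, μ v ≤ β v) ∧ ∑ u, μ u + (p - r) = d) ∧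
      (upT β)^[p - r] g = f := by
  have hV := ColAux.van_box p hp N Finset.univ β hβ (fun u hu => absurd (Finset.mem_univ u) hu)
  have hfL : f ∈ ColAux.LB N β (d : ℤ) := by
    refine ⟨hN, fun μ hμ => ?_⟩
    by_contra hne
    obtain ⟨h1, h2⟩ := hf μ hne
    exact hμ ⟨h1, by rw [h2]⟩
  obtain ⟨g, hg, hg'⟩ := hV d r (p - r) (by omega) (by omega) f hfL
    (by rw [ColAux.upL_pow]; exact h0)
  refine ⟨g, hg.1, fun μ hμ => ?_, by rw [← ColAux.upL_pow (F := F)]; exact hg'⟩
  by_contra hne
  refine hμ (hg.2 μ fun h => hne ⟨h.1, ?_⟩)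
  have := h.2
  omega

end Pool.Agent.Lib.MP_deca50_lc.Odd
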