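import Mathlib

/-! The functional: Gale trace composed with the Frobenius trace. -/

set_option linter.unusedSectionVars false

namespace Pool.Agent.Lib.MP_deca50_lc.Odd.Theta

open Finset

variable {F : Type} [Field F] {ι : Type} [Fintype ι] [DecidableEq ι]

/-- Determinant of the rows `m (f j)`. -/
def Dt {r : ℕ} (m : ι → Fin r → F) (f : Fin r → ι) : F :=
  (Matrix.of fun j i => m (f j) i).det

theorem Dt_sq {r : ℕ} (m : ι → Fin r → F) (f f' : Fin r → ι) (hf : Function.Injective f)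
    (hf' : Function.Injective f') (h : Set.range f = Set.range f') :
    Dt m f ^ 2 = Dt m f' ^ 2 := by
  let σ : Equiv.Perm (Fin r) :=
    ((Equiv.ofInjective f hf).trans (Equiv.setCongr h)).trans (Equiv.ofInjective f' hf').symm
  have hσ : ∀ j, f' (σ j) = f j := by
    intro j
    simp only [σ, Equiv.trans_apply]
    rw [Equiv.apply_ofInjective_symm hf']
    rfl
  have e : Dt m f = Equiv.Perm.sign σ * Dt m f' := by
    unfold Dt
    rw [← Matrix.det_permute σ]
    congr 1
    ext j i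
    simp [hσ]
  rw [e, mul_pow]
  rcases Int.units_eq_one_or (Equiv.Perm.sign σ) with h1 | h1 <;> simp [h1]

theorem exists_vert (k : ℕ) (hk : 2 ≤ k) (C : Submodule F (ι → F)) (hdim : Module.finrank F C = k)
    (hC : ∀ A : Finset ι, A.card = k → ∀ x ∈ C, (∀ i ∈ A, x i = 0) → x = 0) :
    ∃ x : Finset ι → ι → F,
      (∀ A : Finset ι, A.card + 1 = k → x A ∈ C ∧ (∀ c ∈ A, x A c = 0) ∧ ∀ u, u ∉ A → x A u ≠ 0) ∧
      (∀ (A : Finset ι) (s t : ι), A.card + 2 = k → s ∉ A → t ∉ A → s ≠ t →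
        x (insert s A) t ^ 2 = x (insert t A) s ^ 2) := by
  classical
  obtain ⟨r, rfl⟩ : ∃ r, k = r + 1 := ⟨k - 1, by omega⟩
  let b := Module.finBasisOfFinrankEq F C hdim
  let m : ι → Fin (r + 1) → F := fun u i => (b i).1 u
  have hen : ∀ A : Finset ι, A.card = r →
      ∃ e : Fin r → ι, Function.Injective e ∧ Set.range e = (A : Set ι) := by
    intro A hA
    refine ⟨fun j => ((A.equivFinOfCardEq hA).symm j).1, ?_, ?_⟩
    · intro j j' h
      exact (A.equivFinOfCardEq hA).symm.injective (Subtype.ext h)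
    · ext v
      constructor
      · rintro ⟨j, rfl⟩; exact ((A.equivFinOfCardEq hA).symm j).2
      · intro hv; exact ⟨A.equivFinOfCardEq hA ⟨v, hv⟩, by simp⟩
  choose e he using fun (A : {A : Finset ι // A.card = r}) => hen A.1 A.2
  have hinj : ∀ (A : {A : Finset ι // A.card = r}) (u : ι), u ∉ A.1 →
      Function.Injective (Fin.cons u (e A) : Fin (r + 1) → ι) := by
    intro A u hu
    rw [Fin.cons_injective_iff]
    refine ⟨?_, (he A).1⟩
    rw [(he A).2]
    exact hu
  have hrange : ∀ (A : {A : Finset ι // A.card = r}) (u : ι),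
      Set.range (Fin.cons u (e A) : Fin (r + 1) → ι) = insert u (A.1 : Set ι) := by
    intro A u
    rw [Fin.range_cons, (he A).2]
  refine ⟨fun A u => if h : A.card = r then Dt m (Fin.cons u (e ⟨A, h⟩)) else 0, ?_, ?_⟩
  · intro A hA
    have hA' : A.card = r := by omega
    simp only [dif_pos hA']
    refine ⟨?_, ?_, ?_⟩
    · have : (fun u => Dt m (Fin.cons u (e ⟨A, hA'⟩))) = ∑ j : Fin (r + 1),
          ((-1) ^ (j : ℕ) * (Matrix.of fun j' i => m (e ⟨A, hA'⟩ j') (j.succAbove i)).det) •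
            (b j).1 := by
        funext u
        unfold Dt
        rw [Matrix.det_succ_row_zero, Finset.sum_apply]
        refine Finset.sum_congr rfl fun j _ => ?_
        have : ((Matrix.of fun j i => m ((Fin.cons u (e ⟨A, hA'⟩) : Fin (r + 1) → ι) j) i).submatrix
            Fin.succ j.succAbove) = Matrix.of fun j' i => m (e ⟨A, hA'⟩ j') (j.succAbove i) := by
          ext j' i; simp
        rw [this]
        simp only [Matrix.of_apply, Fin.cons_zero, Pi.smul_apply, smul_eq_mul, m]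
        ring
      rw [this]
      exact Submodule.sum_mem _ fun j _ => Submodule.smul_mem _ _ (b j).2
    · intro c hc
      have : c ∈ Set.range (e ⟨A, hA'⟩) := by rw [(he _).2]; exact hc
      obtain ⟨j, hj⟩ := this
      unfold Dt
      refine Matrix.det_zero_of_row_eq (Fin.succ_ne_zero j).symm ?_
      funext i
      simp [hj]
    · intro u hu h0
      unfold Dt at h0
      obtain ⟨v, hv, hv0⟩ := Matrix.exists_mulVec_eq_zero_iff.2 h0
      have hw : (∑ i, v i • b i : C).1 = 0 := by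
        refine hC (insert u A) (by rw [Finset.card_insert_of_notMem hu]; omega) _
          (∑ i, v i • b i : C).2 ?_
        intro i hi
        have : i ∈ Set.range (Fin.cons u (e ⟨A, hA'⟩) : Fin (r + 1) → ι) := by
          rw [hrange]; simpa using hi
        obtain ⟨j, rfl⟩ := this
        have := congrFun hv0 j
        simp only [Matrix.mulVec, dotProduct, Matrix.of_apply, Pi.zero_apply, m] at this
        rw [← this]
        simp only [Submodule.coe_sum, Submodule.coe_smul, Finset.sum_apply, Pi.smul_apply,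
          smul_eq_mul]
        exact Finset.sum_congr rfl fun i _ => mul_comm _ _
      have hw' : (∑ i, v i • b i : C) = 0 := Subtype.ext hw
      exact hv (funext (Fintype.linearIndependent_iff.1 b.linearIndependent v hw'))
  · intro A s t hA hs ht hst
    have h1 : (insert s A).card = r := by rw [Finset.card_insert_of_notMem hs]; omega
    have h2 : (insert t A).card = r := by rw [Finset.card_insert_of_notMem ht]; omega
    simp only [dif_pos h1, dif_pos h2]
    refine Dt_sq m _ _ (hinj ⟨_, h1⟩ t (by simp [ht, hst.symm])) (hinj ⟨_, h2⟩ s (by simp [hs, hst])) ?_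
    rw [hrange, hrange]
    simp only [Finset.coe_insert]
    exact Set.insert_comm _ _ _

theorem reduce {J : Type} (s : Finset J) (W : J → F) (p : J → ι → F) (T : Finset ι) (κ d : ℕ)
    (hT : d + κ ≤ T.card + 1)
    (hp : ∀ B : Finset ι, B.card = κ → ∀ u, ∃ c : ι → F, ∀ j ∈ s, p j u = ∑ v ∈ B, c v * p j v)
    (h0 : ∀ Z ⊆ T, Z.card = d → ∑ j ∈ s, W j * ∏ z ∈ Z, p j z = 0) :
    ∀ (m : ℕ) (ν : ι → ℕ), ∑ v, ν v = m → ∀ Z ⊆ T, Z.card + m = d →
      ∑ j ∈ s, W j * (∏ z ∈ Z, p j z) * ∏ v, p j v ^ ν v = 0 := by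
  intro m
  induction m with
  | zero =>
    intro ν hν Z hZ hc
    have : ∀ v, ν v = 0 := fun v => (Finset.sum_eq_zero_iff.1 hν) v (Finset.mem_univ v)
    simpa [this] using h0 Z hZ (by omega)
  | succ m ih =>
    intro ν hν Z hZ hc
    obtain ⟨u, -, hu⟩ : ∃ u ∈ (Finset.univ : Finset ι), ν u ≠ 0 :=
      Finset.exists_ne_zero_of_sum_ne_zero (by omega)
    obtain ⟨ν', rfl⟩ : ∃ ν' : ι → ℕ, ν = ν' + Pi.single u 1 := by
      refine ⟨ν - Pi.single u 1, funext fun v => ?_⟩
      by_cases h : v = u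
      · subst h; simp; omega
      · simp [h]
    have hν' : ∑ v, ν' v = m := by
      simp only [Pi.add_apply, Finset.sum_add_distrib, Finset.sum_pi_single', Finset.mem_univ,
        if_true] at hν
      omega
    obtain ⟨B, hB, hBc⟩ : ∃ B ⊆ T \ Z, B.card = κ := by
      apply Finset.exists_subset_card_eq
      rw [Finset.card_sdiff_of_subset hZ]
      omega
    obtain ⟨c, hc'⟩ := hp B hBc u
    have e : ∀ j ∈ s, W j * (∏ z ∈ Z, p j z) * ∏ v, p j v ^ (ν' + Pi.single u 1 : ι → ℕ) v =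
        ∑ v ∈ B, c v * (W j * (∏ z ∈ insert v Z, p j z) * ∏ v, p j v ^ ν' v) := by
      intro j hj
      have : ∏ v, p j v ^ (ν' + Pi.single u 1 : ι → ℕ) v = (∏ v, p j v ^ ν' v) * p j u := by
        simp only [Pi.add_apply, pow_add, Finset.prod_mul_distrib]
        congr 1
        rw [Finset.prod_eq_single u]
        · simp
        · intro v _ hv; simp [hv]
        · simp
      rw [this, hc' j hj, Finset.mul_sum, Finset.mul_sum]
      refine Finset.sum_congr rfl fun v hv => ?_
      rw [Finset.prod_insert (Finset.mem_sdiff.1 (hB hv)).2]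
      ring
    rw [Finset.sum_congr rfl e, Finset.sum_comm]
    refine Finset.sum_eq_zero fun v hv => ?_
    rw [← Finset.mul_sum, ih ν' hν' (insert v Z)
      (Finset.insert_subset (Finset.mem_sdiff.1 (hB hv)).1 hZ)
      (by rw [Finset.card_insert_of_notMem (Finset.mem_sdiff.1 (hB hv)).2]; omega), mul_zero]

end Pool.Agent.Lib.MP_deca50_lc.Odd.Theta

namespace Pool.Agent.Lib.MP_deca50_lc.Odd.Theta

open Finset MvPolynomial

variable {F : Type} [Field F] {ι : Type} [Fintype ι] [DecidableEq ι]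

/-- The exponent `q α + (q - 1) 1_I`. -/
noncomputable def ex (q : ℕ) (I : Finset ι) (α : ι → ℕ) : ι →₀ ℕ :=
  Finsupp.equivFunOnFinite.symm fun v => q * α v + if v ∈ I then q - 1 else 0

theorem ex_apply (q : ℕ) (I : Finset ι) (α : ι → ℕ) (v : ι) :
    ex q I α v = q * α v + if v ∈ I then q - 1 else 0 := rfl

/-- Degree `d` part of the Frobenius trace of `h`, evaluated at `p`. -/
noncomputable def Tr (q : ℕ) (I : Finset ι) (d : ℕ) (p : ι → F) (h : MvPolynomial ι F) : F :=
  ∑ α ∈ piAntidiag I d, coeff (ex q I α) h * ∏ v, p v ^ α v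

theorem Tr_sum {J : Type} (q : ℕ) (I : Finset ι) (d : ℕ) (p : ι → F) (s : Finset J) (c : J → F)
    (h : J → MvPolynomial ι F) :
    Tr q I d p (∑ j ∈ s, C (c j) * h j) = ∑ j ∈ s, c j * Tr q I d p (h j) := by
  unfold Tr
  simp only [coeff_sum, coeff_C_mul, Finset.sum_mul, Finset.mul_sum]
  rw [Finset.sum_comm]
  exact Finset.sum_congr rfl fun j _ => Finset.sum_congr rfl fun α _ => by ring

theorem Tr_zero (q : ℕ) (I : Finset ι) (d : ℕ) (p : ι → F) : Tr q I d p 0 = 0 := by
  simp [Tr]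

theorem prod_pow_add_single {M : Type} [CommMonoid M] (p : ι → M) (ν : ι → ℕ) (u : ι) (e : ℕ) :
    ∏ v, p v ^ (ν + Pi.single u e : ι → ℕ) v = p u ^ e * ∏ v, p v ^ ν v := by
  simp only [Pi.add_apply, pow_add, Finset.prod_mul_distrib]
  rw [mul_comm]
  congr 1
  rw [Finset.prod_eq_single u]
  · simp
  · intro v _ hv; simp [hv]
  · simp

theorem eq_add_single (ν : ι → ℕ) (u : ι) (e : ℕ) (h : e ≤ ν u) :
    ∃ ν' : ι → ℕ, ν = ν' + Pi.single u e := by
  refine ⟨ν - Pi.single u e, funext fun v => ?_⟩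
  by_cases hv : v = u
  · subst hv; simp; omega
  · simp [hv]

theorem Tr_X_pow (q : ℕ) (hq : 1 ≤ q) (I : Finset ι) (d : ℕ) (p : ι → F) (i : ι) (hi : i ∈ I)
    (h : MvPolynomial ι F) : Tr q I (d + 1) p (X i ^ q * h) = p i * Tr q I d p h := by
  unfold Tr
  rw [Finset.mul_sum]
  symm
  refine Finset.sum_of_injOn (fun α => α + Pi.single i 1) ?_ ?_ ?_ ?_
  · intro α _ β _ hab
    exact add_right_cancel hab
  · intro α hα
    simp only [Finset.mem_coe, Finset.mem_piAntidiag] at hα ⊢
    refine ⟨?_, fun v hv => ?_⟩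
    · simp only [Pi.add_apply, Finset.sum_add_distrib, hα.1, Finset.sum_pi_single', if_pos hi]
    · by_cases hvi : v = i
      · exact hvi ▸ hi
      · exact hα.2 v (by simpa [hvi] using hv)
  · intro α hα hn
    have h0 : α i = 0 := by
      by_contra h0
      obtain ⟨α', rfl⟩ := eq_add_single α i 1 (by omega)
      refine hn ⟨α', ?_, rfl⟩
      simp only [Finset.mem_coe, Finset.mem_piAntidiag] at hα ⊢
      refine ⟨?_, fun v hv => hα.2 v ?_⟩
      · have := hα.1
        simp only [Pi.add_apply, Finset.sum_add_distrib, Finset.sum_pi_single', if_pos hi] at this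
        exact Nat.add_right_cancel this
      · simp only [Pi.add_apply]; omega
    rw [X_pow_eq_monomial, coeff_monomial_mul', if_neg, zero_mul]
    rw [Finsupp.single_le_iff, ex_apply, h0, if_pos hi]
    omega
  · intro α _
    have : ex q I (α + Pi.single i 1) = Finsupp.single i q + ex q I α := by
      ext v
      simp only [ex_apply, Finsupp.add_apply, Pi.add_apply]
      by_cases hv : v = i
      · subst hv; simp; ring
      · simp [hv]
    rw [this, X_pow_eq_monomial, coeff_monomial_mul, prod_pow_add_single]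
    ring

/-- The linear form of the coordinate `u`. -/
noncomputable def yy (I : Finset ι) (M : ι → ι → F) (u : ι) : MvPolynomial ι F :=
  ∑ i ∈ I, C (M i u) * X i

theorem yy_pow [Fintype F] (I : Finset ι) (M : ι → ι → F) (u : ι) :
    yy I M u ^ Fintype.card F = ∑ i ∈ I, C (M i u) * X i ^ Fintype.card F := by
  have := map_sum (FiniteField.frobeniusAlgHom F (MvPolynomial ι F)) (fun i => C (M i u) * X i) I
  rw [FiniteField.coe_frobeniusAlgHom] at this
  beta_reduce at this
  unfold yy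
  rw [this]
  refine Finset.sum_congr rfl fun i _ => ?_
  simp only [mul_pow, ← C_pow, FiniteField.pow_card]

theorem Tr_yy_pow [Fintype F] (I : Finset ι) (M : ι → ι → F) (d : ℕ) (p : ι → F) (u : ι)
    (h : MvPolynomial ι F) :
    Tr (Fintype.card F) I (d + 1) p (yy I M u ^ Fintype.card F * h) =
      (∑ i ∈ I, p i * M i u) * Tr (Fintype.card F) I d p h := by
  rw [yy_pow, Finset.sum_mul, Finset.sum_mul]
  simp only [mul_assoc]
  rw [Tr_sum]
  refine Finset.sum_congr rfl fun i hi => ?_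
  rw [Tr_X_pow _ Fintype.card_pos I d p i hi]
  ring

theorem Tr_dual (q : ℕ) (I : Finset ι) (M : ι → ι → F) (d : ℕ) (p : ι → F) (κ : ι → F)
    (hκ : ∀ i ∈ I, ∑ u, κ u * M i u = 0) (a : ι → ℕ) :
    ∑ u, κ u * Tr q I d p (∏ v, yy I M v ^ (a + Pi.single u 1 : ι → ℕ) v) = 0 := by
  rw [← Tr_sum]
  have : ∑ u, C (κ u) * ∏ v, yy I M v ^ (a + Pi.single u 1 : ι → ℕ) v = 0 := by
    simp only [prod_pow_add_single, pow_one, ← mul_assoc]
    rw [← Finset.sum_mul]
    have : ∑ u, C (κ u) * yy I M u = 0 := by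
      unfold yy
      simp only [Finset.mul_sum]
      rw [Finset.sum_comm]
      refine Finset.sum_eq_zero fun i hi => ?_
      simp only [← mul_assoc, ← C_mul]
      rw [← Finset.sum_mul, ← map_sum, hκ i hi, C_0, zero_mul]
    rw [this, zero_mul]
  rw [this, Tr_zero]

theorem coeff_yy_mul (I : Finset ι) (M : ι → ι → F) (a : ι) (ha : a ∈ I) (u : ι) (m : ℕ)
    (H : MvPolynomial ι F) :
    coeff (Finsupp.single a (m + 1)) (yy I M u * H) = M a u * coeff (Finsupp.single a m) H := by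
  unfold yy
  rw [Finset.sum_mul, coeff_sum, Finset.sum_eq_single a]
  · rw [mul_assoc, coeff_C_mul, add_comm m 1, Finsupp.single_add, coeff_X_mul]
  · intro i _ hi
    rw [mul_assoc, coeff_C_mul, coeff_X_mul', if_neg, mul_zero]
    simp [hi.symm]
  · intro h; exact absurd ha h

theorem coeff_yy_pow_mul (I : Finset ι) (M : ι → ι → F) (a : ι) (ha : a ∈ I) (u : ι) (m e : ℕ)
    (H : MvPolynomial ι F) :
    coeff (Finsupp.single a (m + e)) (yy I M u ^ e * H) =
      M a u ^ e * coeff (Finsupp.single a m) H := by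
  induction e with
  | zero => simp
  | succ e ih => rw [← add_assoc, pow_succ', mul_assoc, coeff_yy_mul I M a ha, ih, pow_succ']; ring

theorem coeff_prod_yy (I : Finset ι) (M : ι → ι → F) (a : ι) (ha : a ∈ I) (ν : ι → ℕ)
    (s : Finset ι) :
    coeff (Finsupp.single a (∑ u ∈ s, ν u)) (∏ u ∈ s, yy I M u ^ ν u) = ∏ u ∈ s, M a u ^ ν u := by
  induction s using Finset.induction_on with
  | empty => simp
  | insert u s hu ih =>
    rw [Finset.sum_insert hu, Finset.prod_insert hu, Finset.prod_insert hu, add_comm,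
      coeff_yy_pow_mul I M a ha, ih]

theorem coeff_prod_X (e : ℕ) (s : Finset ι) (m : ι →₀ ℕ) (H : MvPolynomial ι F) :
    coeff (∑ c ∈ s, Finsupp.single c e + m) ((∏ c ∈ s, X c ^ e) * H) = coeff m H := by
  induction s using Finset.induction_on with
  | empty => simp
  | insert u s hu ih =>
    rw [Finset.sum_insert hu, Finset.prod_insert hu, add_assoc, mul_assoc, X_pow_eq_monomial,
      coeff_monomial_mul, ih, one_mul]

theorem Tr_vertex (q : ℕ) (C0 : Finset ι) (a : ι) (ha : a ∉ C0) (M : ι → ι → F)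
    (hM : ∀ i ∈ insert a C0, ∀ j ∈ insert a C0, M i j = if i = j then 1 else 0) (d : ℕ) (p : ι → F)
    (hp : ∀ c ∈ C0, p c = 0) (ν : ι → ℕ) (hν : ∀ c ∈ C0, ν c = q - 1)
    (hs : ∑ u ∈ C0ᶜ, ν u = q * d + (q - 1)) :
    Tr q (insert a C0) d p (∏ v, yy (insert a C0) M v ^ ν v) =
      (∏ u ∈ C0ᶜ, M a u ^ ν u) * p a ^ d := by
  unfold Tr
  rw [Finset.sum_eq_single (Pi.single a d)]
  · congr 1
    · have e1 : ex q (insert a C0) (Pi.single a d) =
          ∑ c ∈ C0, Finsupp.single c (q - 1) + Finsupp.single a (∑ u ∈ C0ᶜ, ν u) := by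
        ext v
        rw [hs, ex_apply, Finsupp.add_apply, Finsupp.finsetSum_apply]
        simp only [Finsupp.single_apply, Finset.sum_ite_eq', Finset.mem_insert]
        by_cases hv : v = a
        · subst hv; simp [ha]
        · simp [hv, Ne.symm hv]
      have e2 : ∏ c ∈ C0, yy (insert a C0) M c ^ ν c = ∏ c ∈ C0, X c ^ (q - 1) := by
        refine Finset.prod_congr rfl fun c hc => ?_
        rw [hν c hc]
        congr 1
        unfold yy
        rw [Finset.sum_eq_single c]
        · rw [hM c (Finset.mem_insert_of_mem hc) c (Finset.mem_insert_of_mem hc)]; simp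
        · intro i hi hic
          rw [hM i hi c (Finset.mem_insert_of_mem hc), if_neg hic]; simp
        · intro h; exact absurd (Finset.mem_insert_of_mem hc) h
      rw [e1, ← Finset.prod_mul_prod_compl C0, e2, coeff_prod_X,
        coeff_prod_yy _ M a (Finset.mem_insert_self _ _)]
    · have := prod_pow_add_single p 0 a d
      simpa using this
  · intro α hα hne
    rw [Finset.mem_piAntidiag] at hα
    have : ∃ c ∈ C0, α c ≠ 0 := by
      by_contra hc
      push Not at hc
      apply hne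
      have h1 := hα.1
      rw [Finset.sum_insert ha, Finset.sum_eq_zero hc, add_zero] at h1
      funext v
      by_cases hv : v = a
      · subst hv; simp [h1]
      · rw [Pi.single_eq_of_ne hv]
        by_contra h0
        rcases Finset.mem_insert.1 (hα.2 v h0) with h | h
        · exact hv h
        · exact h0 (hc v h)
    obtain ⟨c, hc, h0⟩ := this
    have : ∏ v, p v ^ α v = 0 :=
      Finset.prod_eq_zero (Finset.mem_univ c) (by rw [hp c hc, zero_pow h0])
    rw [this, mul_zero]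
  · intro h
    exfalso
    apply h
    rw [Finset.mem_piAntidiag]
    refine ⟨by simp [Finset.sum_pi_single'], fun v hv => ?_⟩
    by_cases hva : v = a
    · exact hva ▸ Finset.mem_insert_self _ _
    · exact absurd (Pi.single_eq_of_ne hva _) hv

end Pool.Agent.Lib.MP_deca50_lc.Odd.Theta

namespace Pool.Agent.Lib.MP_deca50_lc.Odd.Theta

open Finset

variable {F : Type} [Field F] {ι : Type} [Fintype ι] [DecidableEq ι]

theorem exists_sys (k : ℕ) (C : Submodule F (ι → F))
    (hC : ∀ A : Finset ι, A.card = k → ∀ x ∈ C, (∀ i ∈ A, x i = 0) → x = 0)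
    (x : Finset ι → ι → F)
    (hx : ∀ A : Finset ι, A.card + 1 = k → x A ∈ C ∧ (∀ c ∈ A, x A c = 0) ∧ ∀ u, u ∉ A → x A u ≠ 0)
    (B : Finset ι) (hB : B.card = k) :
    ∃ M : ι → ι → F, (∀ i ∈ B, M i ∈ C) ∧ (∀ i ∈ B, ∀ j ∈ B, M i j = if i = j then 1 else 0) ∧
      (∀ w ∈ C, ∀ u, w u = ∑ i ∈ B, w i * M i u) ∧ (∀ i ∈ B, ∀ u, u ∉ B → M i u ≠ 0) := by
  have he : ∀ i ∈ B, (B.erase i).card + 1 = k := fun i hi => by
    rw [Finset.card_erase_add_one hi, hB]
  have h1 : ∀ i ∈ B, (x (B.erase i) i)⁻¹ • x (B.erase i) ∈ C := fun i hi =>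
    C.smul_mem _ (hx _ (he i hi)).1
  have h2 : ∀ i ∈ B, ∀ j ∈ B,
      ((x (B.erase i) i)⁻¹ • x (B.erase i)) j = if i = j then 1 else 0 := by
    intro i hi j hj
    simp only [Pi.smul_apply, smul_eq_mul]
    by_cases hij : i = j
    · subst hij
      rw [if_pos rfl, inv_mul_cancel₀ ((hx _ (he i hi)).2.2 i (Finset.notMem_erase i B))]
    · rw [if_neg hij, (hx _ (he i hi)).2.1 j (Finset.mem_erase.2 ⟨Ne.symm hij, hj⟩), mul_zero]
  refine ⟨fun i => (x (B.erase i) i)⁻¹ • x (B.erase i), h1, h2, ?_, ?_⟩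
  · intro w hw u
    have := hC B hB (w - ∑ i ∈ B, w i • ((x (B.erase i) i)⁻¹ • x (B.erase i)))
      (C.sub_mem hw (C.sum_mem fun i hi => C.smul_mem _ (h1 i hi))) (by
        intro j hj
        rw [Pi.sub_apply, Finset.sum_apply, Finset.sum_eq_single j]
        · rw [Pi.smul_apply, h2 j hj j hj]; simp
        · intro i hi hij
          rw [Pi.smul_apply, h2 i hi j hj, if_neg hij]; simp
        · intro h; exact absurd hj h)
    have := congrFun this u
    rw [Pi.sub_apply, Finset.sum_apply, Pi.zero_apply, sub_eq_zero] at this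
    exact this
  · intro i hi u hu
    simp only [Pi.smul_apply, smul_eq_mul]
    exact mul_ne_zero (inv_ne_zero ((hx _ (he i hi)).2.2 i (Finset.notMem_erase i B)))
      ((hx _ (he i hi)).2.2 u fun h => hu (Finset.mem_of_mem_erase h))

theorem dual_sys (k : ℕ) (C : Submodule F (ι → F)) (x : Finset ι → ι → F)
    (hx : ∀ A : Finset ι, A.card + 1 = k → x A ∈ C ∧ (∀ c ∈ A, x A c = 0) ∧ ∀ u, u ∉ A → x A u ≠ 0)
    (B : Finset ι) (hB : B.card + k = Fintype.card ι) (u : ι) :
    ∃ c : ι → F, ∀ g : ι → F, (∀ w ∈ C, ∑ v, g v * w v = 0) → g u = ∑ v ∈ B, c v * g v := by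
  by_cases hu : u ∈ B
  · refine ⟨Pi.single u 1, fun g _ => ?_⟩
    rw [Finset.sum_eq_single u]
    · simp
    · intro v _ hv; simp [hv]
    · intro h; exact absurd hu h
  · have huc : u ∈ Bᶜ := Finset.mem_compl.2 hu
    have hc : (Bᶜ.erase u).card + 1 = k := by
      rw [Finset.card_erase_add_one huc, Finset.card_compl]; omega
    obtain ⟨h1, h2, h3⟩ := hx _ hc
    have hne := h3 u (Finset.notMem_erase _ _)
    refine ⟨fun v => - x (Bᶜ.erase u) v / x (Bᶜ.erase u) u, fun g hg => ?_⟩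
    have := hg _ h1
    rw [← Finset.sum_add_sum_compl B, ← Finset.add_sum_erase _ _ huc,
      Finset.sum_eq_zero (s := Bᶜ.erase u) (fun v hv => by rw [h2 v hv, mul_zero]), add_zero] at this
    have e : ∑ v ∈ B, - x (Bᶜ.erase u) v / x (Bᶜ.erase u) u * g v =
        - (∑ v ∈ B, g v * x (Bᶜ.erase u) v) / x (Bᶜ.erase u) u := by
      rw [← Finset.sum_neg_distrib, Finset.sum_div]
      exact Finset.sum_congr rfl fun v _ => by ring
    rw [e, eq_div_iff hne]
    linear_combination this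

theorem exists_g (k : ℕ) (C : Submodule F (ι → F))
    (hC : ∀ A : Finset ι, A.card = k → ∀ x ∈ C, (∀ i ∈ A, x i = 0) → x = 0)
    (x : Finset ι → ι → F)
    (hx : ∀ A : Finset ι, A.card + 1 = k → x A ∈ C ∧ (∀ c ∈ A, x A c = 0) ∧ ∀ u, u ∉ A → x A u ≠ 0)
    (a b : ι) (hab : a ≠ b) :
    ∃ g : Finset ι → ι → F, ∀ A : Finset ι, A.card + 1 = k → a ∉ A → b ∉ A →
      (∀ w ∈ C, ∑ v, g A v * w v = 0) ∧ (∀ v, v ∉ A → v ≠ a → v ≠ b → g A v = 0) ∧
        ∀ c ∈ A, g A c ≠ 0 := by
  have : ∀ A : Finset ι, ∃ g : ι → F, A.card + 1 = k → a ∉ A → b ∉ A →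
      (∀ w ∈ C, ∑ v, g v * w v = 0) ∧ (∀ v, v ∉ A → v ≠ a → v ≠ b → g v = 0) ∧
        ∀ c ∈ A, g c ≠ 0 := by
    intro A
    by_cases h : A.card + 1 = k ∧ a ∉ A ∧ b ∉ A
    · obtain ⟨hA, ha, hb⟩ := h
      obtain ⟨M, -, -, h3, h4⟩ := exists_sys k C hC x hx (insert a A)
        (by rw [Finset.card_insert_of_notMem ha, hA])
      have hbB : b ∉ insert a A := by simp [hb, hab.symm]
      refine ⟨fun v => (if v ∈ insert a A then M v b else 0) - (if v = b then 1 else 0),
        fun _ _ _ => ⟨?_, ?_, ?_⟩⟩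
      · intro w hw
        simp only [sub_mul, ite_mul, zero_mul, one_mul, Finset.sum_sub_distrib, Finset.sum_ite_eq',
          Finset.mem_univ, if_true, Finset.sum_ite_mem, Finset.univ_inter]
        rw [h3 w hw b, sub_eq_zero]
        exact Finset.sum_congr rfl fun v _ => mul_comm _ _
      · intro v hv hva hvb
        simp [hv, hva, hvb]
      · intro c hc
        have hcb : c ≠ b := fun h => hb (h ▸ hc)
        simp only [Finset.mem_insert_of_mem hc, if_true, if_neg hcb, sub_zero]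
        exact h4 c (Finset.mem_insert_of_mem hc) b hbB
    · exact ⟨0, fun h1 h2 h3 => absurd ⟨h1, h2, h3⟩ h⟩
  choose g hg using this
  exact ⟨g, hg⟩

/-- The weight of a vertex. -/
noncomputable def wt (x g : Finset ι → ι → F) (a b : ι) (A : Finset ι) : F :=
  (x A a * x A b * (∏ u ∈ (({a, b} : Finset ι)ᶜ) \ A, x A u) * ∏ c ∈ A, g A c)⁻¹

theorem sum_two (a b : ι) (hab : a ≠ b) (f : ι → F) (h : ∀ v, v ≠ a → v ≠ b → f v = 0) :
    ∑ v, f v = f a + f b :=
  Finset.sum_eq_add a b hab (fun c _ hc => h c hc.1 hc.2) (fun h => absurd (Finset.mem_univ _) h)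
    (fun h => absurd (Finset.mem_univ _) h)

theorem two_terms (k : ℕ) (hn : k + 2 ≤ Fintype.card ι) (C : Submodule F (ι → F))
    (hC : ∀ A : Finset ι, A.card = k → ∀ x ∈ C, (∀ i ∈ A, x i = 0) → x = 0)
    (x : Finset ι → ι → F)
    (hx : ∀ A : Finset ι, A.card + 1 = k → x A ∈ C ∧ (∀ c ∈ A, x A c = 0) ∧ ∀ u, u ∉ A → x A u ≠ 0)
    (hx2 : ∀ (A : Finset ι) (s t : ι), A.card + 2 = k → s ∉ A → t ∉ A → s ≠ t →
        x (insert s A) t ^ 2 = x (insert t A) s ^ 2)
    (a b : ι) (hab : a ≠ b) (g : Finset ι → ι → F)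
    (hg : ∀ A : Finset ι, A.card + 1 = k → a ∉ A → b ∉ A →
      (∀ w ∈ C, ∑ v, g A v * w v = 0) ∧ (∀ v, v ∉ A → v ≠ a → v ≠ b → g A v = 0) ∧
        ∀ c ∈ A, g A c ≠ 0)
    (A Z : Finset ι) (hA : A ⊆ ({a, b} : Finset ι)ᶜ) (hZ : Z ⊆ ({a, b} : Finset ι)ᶜ)
    (hAc : A.card + 2 = k) (hZc : Z.card + k + 2 = Fintype.card ι) :
    ∑ D ∈ powersetCard (k - 1) (({a, b} : Finset ι)ᶜ),
      (wt x g a b D * x D a * g D a * ∏ c ∈ A, g D c) * ∏ z ∈ Z, x D z = 0 := by
  set S : Finset ι := ({a, b} : Finset ι)ᶜ with hS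
  have hmS : ∀ v, v ∈ S ↔ v ≠ a ∧ v ≠ b := fun v => by simp [hS]
  have hSc : S.card + 2 = Fintype.card ι := by
    rw [hS, Finset.card_compl, Finset.card_pair hab]; omega
  have hD : ∀ D ∈ powersetCard (k - 1) S, D ⊆ S ∧ D.card + 1 = k ∧ a ∉ D ∧ b ∉ D := by
    intro D hD
    obtain ⟨h1, h2⟩ := Finset.mem_powersetCard.1 hD
    exact ⟨h1, by omega, fun h => ((hmS a).1 (h1 h)).1 rfl, fun h => ((hmS b).1 (h1 h)).2 rfl⟩
  have hz : ∀ D ∈ powersetCard (k - 1) S,
      (wt x g a b D * x D a * g D a * ∏ c ∈ A, g D c) * ∏ z ∈ Z, x D z ≠ 0 →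
      A ⊆ D ∧ ∀ z ∈ Z, z ∉ D := by
    intro D hDm hne
    obtain ⟨-, h2, h3, h4⟩ := hD D hDm
    constructor
    · intro c hc
      by_contra hcD
      apply hne
      rw [Finset.prod_eq_zero hc ((hg D h2 h3 h4).2.1 c hcD ((hmS c).1 (hA hc)).1
        ((hmS c).1 (hA hc)).2), mul_zero, zero_mul]
    · intro z hz hzD
      apply hne
      rw [Finset.prod_eq_zero hz ((hx D h2).2.1 z hzD), mul_zero]
  by_cases hdis : Disjoint A Z
  swap
  · refine Finset.sum_eq_zero fun D hDm => ?_
    by_contra hne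
    obtain ⟨h1, h2⟩ := hz D hDm hne
    exact hdis (Finset.disjoint_left.2 fun c hc hcZ => h2 c hcZ (h1 hc))
  have hR : (S \ (A ∪ Z)).card = 2 := by
    rw [Finset.card_sdiff_of_subset (Finset.union_subset hA hZ), Finset.card_union_of_disjoint hdis]
    omega
  obtain ⟨s, t, hst, hR⟩ := Finset.card_eq_two.1 hR
  have hmR : ∀ v, (v ∈ S ∧ v ∉ A ∧ v ∉ Z) ↔ (v = s ∨ v = t) := fun v => by
    have : v ∈ S \ (A ∪ Z) ↔ v ∈ ({s, t} : Finset ι) := by rw [hR]
    simpa [not_or] using this
  have haA : a ∉ A := fun h => ((hmS a).1 (hA h)).1 rfl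
  have hbA : b ∉ A := fun h => ((hmS b).1 (hA h)).2 rfl
  have hRb : (insert b A).card + 1 = k := by rw [Finset.card_insert_of_notMem hbA]; omega
  obtain ⟨r1, r2, r3⟩ := hx _ hRb
  have hRa : x (insert b A) a ≠ 0 := r3 a (by simp [haA, hab])
  have key : ∀ s t : ι, s ≠ t → (∀ v, (v ∈ S ∧ v ∉ A ∧ v ∉ Z) ↔ (v = s ∨ v = t)) →
      insert s A ∈ powersetCard (k - 1) S ∧ x (insert s A) t ≠ 0 ∧ x (insert s A) b ≠ 0 ∧
      (wt x g a b (insert s A) * x (insert s A) a * g (insert s A) a * ∏ c ∈ A, g (insert s A) c) *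
        ∏ z ∈ Z, x (insert s A) z =
        - x (insert b A) s / (x (insert b A) a * x (insert s A) t * x (insert s A) b) := by
    intro s t hst hm
    obtain ⟨sS, sA, sZ⟩ := (hm s).2 (Or.inl rfl)
    obtain ⟨tS, tA, tZ⟩ := (hm t).2 (Or.inr rfl)
    have hmem : insert s A ∈ powersetCard (k - 1) S :=
      Finset.mem_powersetCard.2 ⟨Finset.insert_subset sS hA, by
        rw [Finset.card_insert_of_notMem sA]; omega⟩
    obtain ⟨-, h2, h3, h4⟩ := hD _ hmem
    obtain ⟨p1, p2, p3⟩ := hx _ h2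
    obtain ⟨g1, g2, g3⟩ := hg _ h2 h3 h4
    have ht : x (insert s A) t ≠ 0 := p3 t (by simp [tA, hst.symm])
    have hb : x (insert s A) b ≠ 0 := p3 b h4
    have ha : x (insert s A) a ≠ 0 := p3 a h3
    refine ⟨hmem, ht, hb, ?_⟩
    have e1 : S \ insert s A = insert t Z := by
      ext v
      simp only [Finset.mem_sdiff, Finset.mem_insert, not_or]
      constructor
      · rintro ⟨v1, v2, v3⟩
        by_cases hvZ : v ∈ Z
        · exact Or.inr hvZ
        · rcases (hm v).1 ⟨v1, v3, hvZ⟩ with h | h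
          · exact absurd h v2
          · exact Or.inl h
      · rintro (rfl | h)
        · exact ⟨tS, hst.symm, tA⟩
        · exact ⟨hZ h, fun e => sZ (e ▸ h), fun e => Finset.disjoint_left.1 hdis e h⟩
    have hPZ : ∏ z ∈ Z, x (insert s A) z ≠ 0 := by
      refine Finset.prod_ne_zero_iff.2 fun z hz => p3 z ?_
      have : z ∈ S \ insert s A := e1 ▸ Finset.mem_insert_of_mem hz
      exact (Finset.mem_sdiff.1 this).2
    have hPA : ∏ c ∈ A, g (insert s A) c ≠ 0 :=
      Finset.prod_ne_zero_iff.2 fun c hc => g3 c (Finset.mem_insert_of_mem hc)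
    have hgs : g (insert s A) s ≠ 0 := g3 s (Finset.mem_insert_self _ _)
    have ho := g1 _ r1
    rw [sum_two s a ((hmS s).1 sS).1] at ho
    · unfold wt
      rw [← hS, e1, Finset.prod_insert tZ, Finset.prod_insert sA]
      field_simp
      linear_combination ho
    · intro v hvs hva
      by_cases hv : v ∈ insert b A
      · rw [r2 v hv, mul_zero]
      · simp only [Finset.mem_insert, not_or] at hv
        rw [g2 v (by simp [hvs, hv.2]) hva hv.1, zero_mul]
  obtain ⟨ms, s1, s2, s3⟩ := key s t hst hmR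
  obtain ⟨mt, t1, t2, t3⟩ := key t s hst.symm (fun v => (hmR v).trans or_comm)
  obtain ⟨sS, sA, sZ⟩ := (hmR s).2 (Or.inl rfl)
  obtain ⟨tS, tA, tZ⟩ := (hmR t).2 (Or.inr rfl)
  have hne : insert s A ≠ insert t A := by
    intro h
    have : s ∈ insert t A := h ▸ Finset.mem_insert_self s A
    simp [hst, sA] at this
  rw [Finset.sum_eq_add_of_mem _ _ ms mt hne, s3, t3]
  · have hsq := hx2 A s t hAc sA tA hst
    obtain ⟨p1, p2, -⟩ := hx _ (hD _ ms).2.1
    obtain ⟨q1, q2, -⟩ := hx _ (hD _ mt).2.1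
    have hlin := hC (insert s (insert t A)) (by
        rw [Finset.card_insert_of_notMem (by simp [hst, sA]), Finset.card_insert_of_notMem tA]
        omega)
      ((x (insert s A) t * x (insert t A) s) • x (insert b A) -
        (x (insert b A) t * x (insert t A) s) • x (insert s A) -
        (x (insert b A) s * x (insert s A) t) • x (insert t A))
      (C.sub_mem (C.sub_mem (C.smul_mem _ r1) (C.smul_mem _ p1)) (C.smul_mem _ q1)) (by
        intro i hi
        simp only [Pi.sub_apply, Pi.smul_apply, smul_eq_mul]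
        simp only [Finset.mem_insert] at hi
        rcases hi with rfl | rfl | hi
        · rw [p2 i (Finset.mem_insert_self _ _)]; ring
        · rw [q2 i (Finset.mem_insert_self _ _)]; ring
        · rw [p2 i (Finset.mem_insert_of_mem hi), q2 i (Finset.mem_insert_of_mem hi),
            r2 i (Finset.mem_insert_of_mem hi)]; ring)
    have hl := congrFun hlin b
    simp only [Pi.sub_apply, Pi.smul_apply, smul_eq_mul, Pi.zero_apply] at hl
    rw [r2 b (Finset.mem_insert_self _ _)] at hl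
    generalize x (insert s A) t = Pt at *
    generalize x (insert s A) b = Pb at *
    generalize x (insert t A) s = Qs at *
    generalize x (insert t A) b = Qb at *
    generalize x (insert b A) s = Rs at *
    generalize x (insert b A) t = Rt at *
    generalize x (insert b A) a = Ra at *
    have : Pt * (Rs * Qs * Qb + Rt * Pt * Pb) = 0 := by
      linear_combination (-Qs) * hl + (Rt * Pb) * hsq
    have h2 : Rs * Qs * Qb + Rt * Pt * Pb = 0 := (mul_eq_zero.1 this).resolve_left s1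
    field_simp
    linear_combination -h2
  · intro D hDm hD2
    by_contra hne
    obtain ⟨h1, h2⟩ := hz D hDm hne
    obtain ⟨d1, d2, -, -⟩ := hD D hDm
    have : (D \ A).card = 1 := by rw [Finset.card_sdiff_of_subset h1]; omega
    obtain ⟨v, hv⟩ := Finset.card_eq_one.1 this
    have hvm : v ∈ D \ A := hv ▸ Finset.mem_singleton_self v
    obtain ⟨v1, v2⟩ := Finset.mem_sdiff.1 hvm
    have e : D = insert v A := by
      rw [← Finset.sdiff_union_of_subset h1, hv]; rfl
    rcases (hmR v).1 ⟨d1 v1, v2, fun h => h2 v h v1⟩ with h | h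
    · exact hD2.1 (h ▸ e)
    · exact hD2.2 (h ▸ e)

end Pool.Agent.Lib.MP_deca50_lc.Odd.Theta

namespace Pool.Agent.Lib.MP_deca50_lc.Odd.Theta

open Finset

variable {F : Type} [Field F] {ι : Type} [Fintype ι] [DecidableEq ι]

theorem key (k : ℕ) (hk : 2 ≤ k) (hn : k + 2 ≤ Fintype.card ι) (C : Submodule F (ι → F))
    (hC : ∀ A : Finset ι, A.card = k → ∀ x ∈ C, (∀ i ∈ A, x i = 0) → x = 0)
    (x : Finset ι → ι → F)
    (hx : ∀ A : Finset ι, A.card + 1 = k → x A ∈ C ∧ (∀ c ∈ A, x A c = 0) ∧ ∀ u, u ∉ A → x A u ≠ 0)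
    (hx2 : ∀ (A : Finset ι) (s t : ι), A.card + 2 = k → s ∉ A → t ∉ A → s ≠ t →
        x (insert s A) t ^ 2 = x (insert t A) s ^ 2)
    (a b : ι) (hab : a ≠ b) (g : Finset ι → ι → F)
    (hg : ∀ A : Finset ι, A.card + 1 = k → a ∉ A → b ∉ A →
      (∀ w ∈ C, ∑ v, g A v * w v = 0) ∧ (∀ v, v ∉ A → v ≠ a → v ≠ b → g A v = 0) ∧
        ∀ c ∈ A, g A c ≠ 0)
    (ν μ : ι → ℕ) (hν : ∑ v, ν v + k + 2 = Fintype.card ι) (hμ : ∑ v, μ v + 2 = k) :
    ∑ D ∈ powersetCard (k - 1) (({a, b} : Finset ι)ᶜ),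
      (wt x g a b D * x D a * g D a * ∏ v, x D v ^ ν v) * ∏ v, g D v ^ μ v = 0 := by
  set S : Finset ι := ({a, b} : Finset ι)ᶜ with hS
  have hmS : ∀ v, v ∈ S ↔ v ≠ a ∧ v ≠ b := fun v => by simp [hS]
  have hSc : S.card + 2 = Fintype.card ι := by
    rw [hS, Finset.card_compl, Finset.card_pair hab]; omega
  have hD : ∀ D ∈ powersetCard (k - 1) S, D.card + 1 = k ∧ a ∉ D ∧ b ∉ D := by
    intro D hD
    obtain ⟨h1, h2⟩ := Finset.mem_powersetCard.1 hD
    exact ⟨by omega, fun h => ((hmS a).1 (h1 h)).1 rfl, fun h => ((hmS b).1 (h1 h)).2 rfl⟩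
  have h1 := reduce (powersetCard (k - 1) S)
    (fun D => wt x g a b D * x D a * g D a * ∏ v, x D v ^ ν v) g S (Fintype.card ι - k) (k - 2)
    (by omega) (by
      intro B hB u
      obtain ⟨c, hc⟩ := dual_sys k C x hx B (by omega) u
      exact ⟨c, fun D hDm => hc _ (hg D (hD D hDm).1 (hD D hDm).2.1 (hD D hDm).2.2).1⟩) (by
      intro A hA hAc
      have h2 := reduce (powersetCard (k - 1) S)
        (fun D => wt x g a b D * x D a * g D a * ∏ c ∈ A, g D c) x S k (Fintype.card ι - k - 2)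
        (by omega) (by
          intro B hB u
          obtain ⟨M, -, -, h3, -⟩ := exists_sys k C hC x hx B hB
          refine ⟨fun v => M v u, fun D hDm => ?_⟩
          rw [h3 _ (hx D (hD D hDm).1).1 u]
          exact Finset.sum_congr rfl fun v _ => mul_comm _ _) (by
          intro Z hZ hZc
          exact two_terms k hn C hC x hx hx2 a b hab g hg A Z hA hZ (by omega) (by omega))
        (∑ v, ν v) ν rfl ∅ (Finset.empty_subset _) (by rw [Finset.card_empty]; omega)
      rw [← h2]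
      exact Finset.sum_congr rfl fun D _ => by rw [Finset.prod_empty]; ring)
    (∑ v, μ v) μ rfl ∅ (Finset.empty_subset _) (by rw [Finset.card_empty]; omega)
  rw [← h1]
  exact Finset.sum_congr rfl fun D _ => by rw [Finset.prod_empty]; ring

end Pool.Agent.Lib.MP_deca50_lc.Odd.Theta

namespace Pool.Agent.Lib.MP_deca50_lc.Odd

open Finset Theta

theorem exists_theta {F : Type} [Field F] [Fintype F] {ι : Type} [Fintype ι] [DecidableEq ι]
    (k : ℕ) (hk : 2 ≤ k) (hn : k + 2 ≤ Fintype.card ι)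
    (C : Submodule F (ι → F)) (hdim : Module.finrank F C = k)
    (hC : ∀ A : Finset ι, A.card = k → ∀ x ∈ C, (∀ i ∈ A, x i = 0) → x = 0)
    (C0 : Finset ι) (hC0 : C0.card + 1 = k) :
    ∃ Θ : (ι → ℕ) → (ι → ℕ) → F,
      (∀ a μ : ι → ℕ, ∑ u : ι, Θ (a + Pi.single u 1) (μ + Pi.single u 1) = 0) ∧
      (∀ κ : ι → F, (∀ x ∈ C, ∑ u, κ u * x u = 0) →
        ∀ a μ : ι → ℕ, ∑ u : ι, κ u * Θ (a + Pi.single u 1) μ = 0) ∧
      (∀ (a μ : ι → ℕ) (u : ι), ∑ v, a v + Fintype.card F + k = Fintype.card F * Fintype.card ι →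
        ∑ v, μ v + 1 = k → Fintype.card F ≤ a u → 1 ≤ μ u → Θ a μ = 0) ∧
      (∀ a : ι → ℕ, ∑ v, a v + Fintype.card F + k = Fintype.card F * Fintype.card ι →
        (∀ c ∈ C0, a c + 1 = Fintype.card F) → Θ a (fun u => if u ∈ C0 then 1 else 0) ≠ 0) := by
  obtain ⟨x, hx, hx2⟩ := exists_vert k hk C hdim hC
  obtain ⟨a, ha, b, hb, hab⟩ : ∃ a ∈ C0ᶜ, ∃ b ∈ C0ᶜ, a ≠ b :=
    Finset.one_lt_card.1 (by rw [Finset.card_compl]; omega)
  rw [Finset.mem_compl] at ha hb
  obtain ⟨g, hg⟩ := exists_g k C hC x hx a b hab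
  obtain ⟨M, M1, M2, M3, M4⟩ := exists_sys k C hC x hx (insert a C0)
    (by rw [Finset.card_insert_of_notMem ha, hC0])
  obtain ⟨d, hd⟩ : ∃ d, Fintype.card ι = d + k + 2 := ⟨Fintype.card ι - k - 2, by omega⟩
  set S : Finset ι := ({a, b} : Finset ι)ᶜ with hS
  have hmS : ∀ v, v ∈ S ↔ v ≠ a ∧ v ≠ b := fun v => by simp [hS]
  have hD : ∀ D ∈ powersetCard (k - 1) S, D.card + 1 = k ∧ a ∉ D ∧ b ∉ D := by
    intro D hD
    obtain ⟨h1, h2⟩ := Finset.mem_powersetCard.1 hD
    exact ⟨by omega, fun h => ((hmS a).1 (h1 h)).1 rfl, fun h => ((hmS b).1 (h1 h)).2 rfl⟩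
  refine ⟨fun ν μ => ∑ D ∈ powersetCard (k - 1) S, wt x g a b D *
    Tr (Fintype.card F) (insert a C0) (d + 1) (x D) (∏ v, yy (insert a C0) M v ^ ν v) *
      ∏ v, g D v ^ μ v, ?_, ?_, ?_, ?_⟩
  · intro ν μ
    rw [Finset.sum_comm]
    refine Finset.sum_eq_zero fun D hDm => ?_
    obtain ⟨h1, h2, h3⟩ := hD D hDm
    have := Tr_dual (Fintype.card F) (insert a C0) M (d + 1) (x D) (g D)
      (fun i hi => (hg D h1 h2 h3).1 _ (M1 i hi)) ν
    rw [← mul_zero (wt x g a b D * ∏ v, g D v ^ μ v), ← this, Finset.mul_sum]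
    refine Finset.sum_congr rfl fun u _ => ?_
    rw [prod_pow_add_single (g D)]
    ring
  · intro κ hκ ν μ
    simp only [Finset.mul_sum]
    rw [Finset.sum_comm]
    refine Finset.sum_eq_zero fun D _ => ?_
    have := Tr_dual (Fintype.card F) (insert a C0) M (d + 1) (x D) κ
      (fun i hi => hκ _ (M1 i hi)) ν
    rw [← mul_zero (wt x g a b D * ∏ v, g D v ^ μ v), ← this, Finset.mul_sum]
    refine Finset.sum_congr rfl fun u _ => ?_
    ring
  · intro ν μ u _ hμ hνu hμu
    obtain ⟨ν, rfl⟩ := eq_add_single ν u _ hνu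
    obtain ⟨μ, rfl⟩ := eq_add_single μ u _ hμu
    have hμ' : ∑ v, μ v + 2 = k := by
      simp only [Pi.add_apply, Finset.sum_add_distrib, Finset.sum_pi_single', Finset.mem_univ,
        if_true] at hμ
      omega
    have hT : ∑ D ∈ powersetCard (k - 1) S, wt x g a b D * (x D a * g D a) *
        Tr (Fintype.card F) (insert a C0) d (x D) (∏ v, yy (insert a C0) M v ^ ν v) *
          ∏ v, g D v ^ μ v = 0 := by
      unfold Tr
      simp only [Finset.mul_sum, Finset.sum_mul]
      rw [Finset.sum_comm]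
      refine Finset.sum_eq_zero fun α hα => ?_
      rw [Finset.mem_piAntidiag] at hα
      have hs : ∑ v, α v = d := by
        rw [← hα.1]
        exact (Finset.sum_subset (Finset.subset_univ _) fun v _ hv => by
          by_contra h0; exact hv (hα.2 v h0)).symm
      have := key k hk hn C hC x hx hx2 a b hab g hg α μ (by omega) hμ'
      rw [← mul_zero (MvPolynomial.coeff (ex (Fintype.card F) (insert a C0) α)
        (∏ v, yy (insert a C0) M v ^ ν v)), ← this, Finset.mul_sum]
      refine Finset.sum_congr rfl fun D _ => ?_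
      ring
    have hU : ∃ ε : F, ∀ D ∈ powersetCard (k - 1) S, x D u * g D u = ε * (x D a * g D a) := by
      have hz : ∀ D ∈ powersetCard (k - 1) S, ∀ v, v ≠ a → v ≠ b → g D v * x D v = 0 := by
        intro D hDm v hva hvb
        obtain ⟨h1, h2, h3⟩ := hD D hDm
        by_cases hv : v ∈ D
        · rw [(hx D h1).2.1 v hv, mul_zero]
        · rw [(hg D h1 h2 h3).2.1 v hv hva hvb, zero_mul]
      by_cases hua : u = a
      · exact ⟨1, fun D _ => by rw [hua, one_mul]⟩
      by_cases hub : u = b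
      · refine ⟨-1, fun D hDm => ?_⟩
        obtain ⟨h1, h2, h3⟩ := hD D hDm
        have := (hg D h1 h2 h3).1 _ (hx D h1).1
        rw [sum_two a b hab _ (hz D hDm)] at this
        rw [hub]
        linear_combination this
      · exact ⟨0, fun D hDm => by rw [zero_mul, mul_comm, hz D hDm u hua hub]⟩
    obtain ⟨ε, hε⟩ := hU
    beta_reduce
    rw [← mul_zero ε, ← hT, Finset.mul_sum]
    refine Finset.sum_congr rfl fun D hDm => ?_
    rw [prod_pow_add_single, prod_pow_add_single, Tr_yy_pow, ← M3 _ (hx D (hD D hDm).1).1 u]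
    linear_combination (wt x g a b D * Tr (Fintype.card F) (insert a C0) d (x D)
      (∏ v, yy (insert a C0) M v ^ ν v) * ∏ v, g D v ^ μ v) * hε D hDm
  · intro ν hν hνc
    have hC0S : C0 ⊆ S := fun c hc =>
      (hmS c).2 ⟨fun h => ha (h ▸ hc), fun h => hb (h ▸ hc)⟩
    have hmem : C0 ∈ powersetCard (k - 1) S := Finset.mem_powersetCard.2 ⟨hC0S, by omega⟩
    obtain ⟨x1, x2, x3⟩ := hx C0 hC0
    obtain ⟨g1, g2, g3⟩ := hg C0 hC0 ha hb
    beta_reduce
    rw [Finset.sum_eq_single_of_mem C0 hmem]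
    · have hq : 1 ≤ Fintype.card F := Fintype.card_pos
      have hs : ∑ u ∈ C0ᶜ, ν u = Fintype.card F * (d + 1) + (Fintype.card F - 1) := by
        rw [← Finset.sum_add_sum_compl C0, hd] at hν
        have h1 : ∑ c ∈ C0, ν c = C0.card * (Fintype.card F - 1) := by
          rw [← smul_eq_mul, ← Finset.sum_const]
          exact Finset.sum_congr rfl fun c hc => by have := hνc c hc; omega
        rw [h1, ← hC0] at hν
        obtain ⟨q', hq'⟩ : ∃ q', Fintype.card F = q' + 1 := ⟨Fintype.card F - 1, by omega⟩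
        rw [hq'] at hν ⊢
        simp only [Nat.add_sub_cancel] at hν ⊢
        nlinarith [hν]
      rw [Tr_vertex _ C0 a ha M M2 (d + 1) (x C0) x2 ν (fun c hc => by have := hνc c hc; omega) hs]
      refine mul_ne_zero (mul_ne_zero ?_ (mul_ne_zero ?_ (pow_ne_zero _ (x3 a ha)))) ?_
      · unfold wt
        refine inv_ne_zero (mul_ne_zero (mul_ne_zero (mul_ne_zero (x3 a ha) (x3 b hb)) ?_) ?_)
        · exact Finset.prod_ne_zero_iff.2 fun v hv => x3 v (Finset.mem_sdiff.1 hv).2
        · exact Finset.prod_ne_zero_iff.2 g3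
      · refine Finset.prod_ne_zero_iff.2 fun v hv => pow_ne_zero _ ?_
        by_cases hva : v = a
        · rw [hva, M2 a (Finset.mem_insert_self _ _) a (Finset.mem_insert_self _ _)]; simp
        · exact M4 a (Finset.mem_insert_self _ _) v (by
            simp only [Finset.mem_insert, not_or]; exact ⟨hva, Finset.mem_compl.1 hv⟩)
      · refine Finset.prod_ne_zero_iff.2 fun v _ => ?_
        by_cases hv : v ∈ C0
        · exact pow_ne_zero _ (g3 v hv)
        · simp [hv]
    · intro D hDm hne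
      obtain ⟨h1, h2, h3⟩ := hD D hDm
      have : ∃ c ∈ C0, c ∉ D := by
        by_contra hc
        push Not at hc
        exact hne (Finset.eq_of_subset_of_card_le hc (by omega)).symm
      obtain ⟨c, hc, hcD⟩ := this
      have : ∏ v, g D v ^ (if v ∈ C0 then 1 else 0) = 0 :=
        Finset.prod_eq_zero (Finset.mem_univ c) (by
          rw [if_pos hc, pow_one]
          exact (hg D h1 h2 h3).2.1 c hcD ((hmS c).1 (hC0S hc)).1 ((hmS c).1 (hC0S hc)).2)
      rw [this, mul_zero]

end Pool.Agent.Lib.MP_deca50_lc.Odd
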