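import Pool.Agent.Lib.MP_deca50_lc.Odd.Func
import Pool.Agent.Lib.MP_deca50_lc.Odd.Theta
import Pool.Agent.Lib.MP_deca50_lc.Even.Upper

/-! No linear MDS code of length `q + 2` in the middle range. -/

set_option linter.unusedSectionVars false

namespace Pool.Agent.Lib.MP_deca50_lc.Odd

open Pool.Agent.Lib.MP_deca50_lc.Even

variable {F : Type} [Field F]

/-- The dual code. -/
def dualK {n : ℕ} (C : Submodule F (Fin n → F)) : Submodule F (Fin n → F) where
  carrier := {κ | ∀ x ∈ C, ∑ u, κ u * x u = 0}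
  zero_mem' := fun x _ => by simp
  add_mem' := fun {a b} ha hb x hx => by
    simp only [Pi.add_apply, add_mul, Finset.sum_add_distrib, ha x hx, hb x hx, add_zero]
  smul_mem' := fun c a ha x hx => by
    simp only [Pi.smul_apply, smul_eq_mul, mul_assoc, ← Finset.mul_sum, ha x hx, mul_zero]

theorem gen_dualK {n k : ℕ} (C : Submodule F (Fin n → F)) (hC : Module.finrank F C = k)
    (h : ∀ A : Finset (Fin n), A.card = k → ∀ x ∈ C, (∀ i ∈ A, x i = 0) → x = 0) (hkn : k ≤ n) :
    Gen (dualK C) (n - k) := by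
  intro D hD u hu
  obtain ⟨I, hI, hIc⟩ := Finset.exists_subset_card_eq (s := Dᶜ) (n := k)
    (by rw [Finset.card_compl, Fintype.card_fin]; omega)
  choose x hxC hx using fun i : Fin n => Upper.surj C hC h I hIc (Pi.single i 1)
  have huI : u ∉ I := fun h1 => Finset.mem_compl.mp (hI h1) hu
  refine ⟨fun v => if v = u then 1 else if v ∈ I then - x v u else 0, ?_, ?_⟩
  · intro y hy
    have h1 : y - ∑ i ∈ I, y i • x i = 0 := by
      refine h I hIc _ (C.sub_mem hy (C.sum_mem fun i _ => C.smul_mem _ (hxC i))) fun j hj => ?_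
      rw [Pi.sub_apply, Finset.sum_apply, Finset.sum_eq_single j]
      · rw [Pi.smul_apply, hx j j hj]; simp
      · intro i _ hij
        rw [Pi.smul_apply, hx i j hj, Pi.single_eq_of_ne (Ne.symm hij), smul_zero]
      · intro h2; exact absurd hj h2
    have h2 := congrFun h1 u
    rw [Pi.sub_apply, Finset.sum_apply] at h2
    have h3 : ∀ v, (if v = u then (1 : F) else if v ∈ I then - x v u else 0) * y v =
        (if v = u then y v else 0) - (if v ∈ I then (y v • x v) u else 0) := by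
      intro v
      by_cases hv : v = u
      · subst hv; simp [huI]
      · by_cases hv' : v ∈ I
        · simp [hv, hv', mul_comm]
        · simp [hv, hv']
    simp only [h3, Finset.sum_sub_distrib, Finset.sum_ite_eq', Finset.mem_univ, if_true,
      Finset.sum_ite_mem, Finset.univ_inter]
    exact h2
  · intro v hv
    by_cases h1 : v = u
    · simp [h1]
    · have : v ∉ I := fun h2 => Finset.mem_compl.mp (hI h2) hv
      simp [h1, this]

theorem core_gen [Fintype F] (p : ℕ) [Fact p.Prime] [CharP F p] (hp : 3 ≤ p) (s : ℕ)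
    (hs1 : 1 ≤ s) (hs2 : s ≤ 2) (hq : s + 1 ≤ Fintype.card F) {n k m0 : ℕ} (hk : 2 ≤ k)
    (hn : n = Fintype.card F + 2) (hm : 2 * k + m0 = Fintype.card F + 5) (hkq : k ≤ Fintype.card F)
    (C : Submodule F (Fin n → F)) (hC : Module.finrank F C = k)
    (h : ∀ A : Finset (Fin n), A.card = k → ∀ x ∈ C, (∀ i ∈ A, x i = 0) → x = 0)
    (J : ℕ) (hJ : 0 < J)
    (hrow : ∀ (j : ℕ) (μ ν : Fin n → ℕ), j < J → 2 * k + (j + 1) * p ≤ 2 * ∑ u, μ u + 3 →
      (∀ v, μ v + ν v ≤ s) → ∑ u, ν u + j = (s - 1) * n + m0 →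
      (s - 1) * (j + ((Finset.univ.filter fun u => μ u < s).card - (n - k))) < ∑ u, ν u)
    (top : ∀ (d : ℤ) (r : ℕ) (z : Grid (dualK C)), r ≤ p →
      (2 * ((k : ℤ) - 1) - 1) + p + (J + 1) * p ≤ 2 * d + r →
      GG' (dualK C) s ((s - 1) * n + m0) k J d z → DD (dualK C) s z = 0 →
      (EE (dualK C) s)^[r] z = 0 →
      ∃ y, GG (dualK C) s ((s - 1) * n + m0) J (d - ((p - r : ℕ) : ℤ)) y ∧
        DD (dualK C) s y = 0 ∧ (EE (dualK C) s)^[p - r] y = z) : False := by
  set q := Fintype.card F with hqdef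
  have h2 : (2 : F) ≠ 0 := by
    intro h0
    have h1 : p ∣ 2 := (CharP.cast_eq_zero_iff F p 2).mp (by exact_mod_cast h0)
    have := Nat.le_of_dvd (by norm_num) h1
    omega
  obtain ⟨C0, -, hC0⟩ := Finset.exists_subset_card_eq (s := (Finset.univ : Finset (Fin n)))
    (n := k - 1) (by rw [Finset.card_univ, Fintype.card_fin]; omega)
  obtain ⟨F0, hF0, hF0c⟩ := Finset.exists_subset_card_eq (s := C0ᶜ) (n := m0)
    (by rw [Finset.card_compl, Fintype.card_fin]; omega)
  obtain ⟨Θ, t1, t2, t3, t4⟩ := exists_theta k hk (by rw [Fintype.card_fin]; omega) C hC h C0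
    (by omega)
  rw [Fintype.card_fin, ← hqdef] at t3 t4
  set μ0 : Fin n → ℕ := fun u => if u ∈ C0 then 1 else 0 with hμ0
  set ν0 : Fin n → ℕ := fun u => s - 1 + if u ∈ F0 then 1 else 0 with hν0
  have hsμ : ∑ u, μ0 u = k - 1 := by simp [hμ0, hC0]
  have hsν : ∑ u, ν0 u = (s - 1) * n + m0 := by
    simp [hν0, Finset.sum_add_distrib, hF0c, mul_comm]
  have hok : ∀ v, μ0 v + ν0 v ≤ s := by
    intro v
    simp only [hμ0, hν0]
    have : v ∈ F0 → v ∉ C0 := fun h1 => Finset.mem_compl.mp (hF0 h1)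
    split_ifs with h1 h2 h3
    · exact absurd h1 (this h2)
    all_goals omega
  have hok' : ∀ v, s ≤ ν0 v + 1 := by
    intro v
    simp only [hν0]
    omega
  have hx := GG_start (dualK C) s hok
  have hx' := GG'_start (dualK C) s hok hok'
  have hkz : (((k - 1 : ℕ)) : ℤ) = (k : ℤ) - 1 := by omega
  rw [hsμ, hsν, hkz] at hx hx'
  rw [show k - 1 + 1 = k by omega] at hx'
  have hΓ : (2 * ((k : ℤ) - 1) - 1) + (((s - 1) * n + m0 : ℕ) : ℤ) =
      s * Fintype.card (Fin n) := by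
    rw [Fintype.card_fin]
    obtain ⟨s', rfl⟩ : ∃ s', s = s' + 1 := ⟨s - 1, by omega⟩
    have e1 : (n : ℤ) = q + 2 := by exact_mod_cast hn
    have e2 : 2 * (k : ℤ) + m0 = q + 5 := by exact_mod_cast hm
    simp only [Nat.add_sub_cancel]
    push_cast
    linarith
  obtain ⟨w, w', hw, hw', e⟩ := staircase_end (EE (dualK C) s) (DD (dualK C) s) p J ((k : ℤ) - 1)
    (GG (dualK C) s ((s - 1) * n + m0)) (GG' (dualK C) s ((s - 1) * n + m0) k)
    (EE_DD _ s) (fun _ _ x _ => DD_DD h2 _ s x) (fun _ _ _ _ hx hy => hx.sub hy)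
    (fun _ _ _ hx => hx.1) (fun _ _ _ hx => hx.up) (fun _ _ _ hx => hx.down)
    (fun _ _ hx => hx.down_zero) (fun _ _ _ hx => hx.iter_p p (by omega)) (by omega) hJ
    (fun j d r x hr hd hx h0 => GG.col p hp hs2 hΓ hr hd hx h0)
    (fun j d z hj hd hz h0 => hz.row (gen_dualK C hC h (by omega)) hs1
      (by rw [Fintype.card_fin]; omega) h0
      (fun μ ν h1 h2 h3 => hrow j μ ν hj
        (by
          have : 2 * (k : ℤ) + (j + 1) * p ≤ 2 * ((∑ u, μ u : ℕ) : ℤ) + 3 := by linarith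
          exact_mod_cast this) h1 h3))
    top _ hx hx'
  set c : Fin n → ℕ := fun _ => q - 1 - s with hc
  set T : (Fin n → ℕ) → (Fin n → ℕ) → F := fun μ ν => Θ (μ + ν + c) μ with hT
  have hsum : ∀ μ ν : Fin n → ℕ, ∑ v, μ v + 1 = k → ∑ v, ν v = (s - 1) * n + m0 →
      ∑ v, (μ + ν + c) v + q + k = q * n := by
    intro μ ν h1 h2
    simp only [Pi.add_apply, Finset.sum_add_distrib, hc, Finset.sum_const, Finset.card_univ,
      Fintype.card_fin, smul_eq_mul, h2]
    obtain ⟨s', rfl⟩ : ∃ s', s = s' + 1 := ⟨s - 1, by omega⟩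
    obtain ⟨q', hq'⟩ : ∃ q', q = q' + s' + 2 := ⟨q - s' - 2, by omega⟩
    have e1 : q - 1 - (s' + 1) = q' := by omega
    rw [e1, Nat.add_sub_cancel]
    have e2 : q * n = n * q' + s' * n + 2 * n := by rw [hq']; ring
    omega
  have h3 : ∀ (μ ν : Fin n → ℕ) (u : Fin n), ((∑ v, μ v : ℕ) : ℤ) = (k : ℤ) - 1 →
      ∑ v, ν v = (s - 1) * n + m0 → 1 ≤ μ u → s + 1 ≤ μ u + ν u → T μ ν = 0 := by
    intro μ ν u h1 h2 h3 h4
    refine t3 _ μ u (hsum μ ν (by omega) h2) (by omega) ?_ h3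
    simp only [Pi.add_apply, hc]
    omega
  have l1 : Lam (dualK C) s T (EE (dualK C) s w) = 0 := by
    refine Lam_EE T (fun μ ν => ?_) (fun μ ν u h1 => h3 μ ν u (by rw [h1]; ring)) hw
    rw [← t1 (μ + ν + c) μ]
    refine Finset.sum_congr rfl fun u _ => ?_
    simp only [hT]
    congr 1
    abel
  have l2 : Lam (dualK C) s T (DD (dualK C) s w') = 0 := by
    refine Lam_DD T (fun κ hκ μ ν => ?_) h3 hw'
    rw [← t2 κ hκ (μ + ν + c) μ]
    refine Finset.sum_congr rfl fun u _ => ?_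
    simp only [hT]
    congr 2
    abel
  have l3 := Lam_start (dualK C) s T hok
  rw [e, Lam_add, l1, l2, add_zero] at l3
  refine t4 (μ0 + ν0 + c) (hsum _ _ (by omega) hsν) (fun v hv => ?_) l3.symm
  have : v ∉ F0 := fun h1 => Finset.mem_compl.mp (hF0 h1) hv
  simp only [Pi.add_apply, hμ0, hν0, hc, if_pos hv, if_neg this]
  omega

/-- Characteristic at least five, or characteristic three and small dimension. -/
theorem core_odd [Fintype F] (p : ℕ) [Fact p.Prime] [CharP F p] (hp : 3 ≤ p) (k : ℕ)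
    (hk : 2 ≤ k) (hkq : k ≤ Fintype.card F)
    (hk' : (5 ≤ p ∧ 2 * k ≤ Fintype.card F + 2) ∨ 3 * k ≤ Fintype.card F + 7) :
    ¬ MDS F (Fintype.card F + 2) k := by
  rintro ⟨C, hC, h⟩
  have hq : p ≤ Fintype.card F := by
    obtain ⟨e, -, he⟩ := FiniteField.card F p
    rw [he]
    exact Nat.le_self_pow e.ne_zero p
  refine core_gen p hp 2 (by omega) le_rfl (by omega) (m0 := Fintype.card F + 5 - 2 * k) hk rfl
    (by omega) hkq C hC h
    ((2 - 1) * (Fintype.card F + 2) + (Fintype.card F + 5 - 2 * k) + 1) (by omega) ?_ ?_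
  · intro j μ ν _ h1 h2 h3
    have h4 : ∑ u, μ u + ∑ u, ν u ≤ 2 * (Fintype.card F + 2) := by
      rw [← Finset.sum_add_distrib]
      refine (Finset.sum_le_sum fun v _ => h2 v).trans ?_
      simp [mul_comm]
    have h5 : ∑ u, μ u + (Finset.univ.filter fun u => μ u < 2).card ≤
        2 * (Fintype.card F + 2) := by
      rw [Finset.card_filter, ← Finset.sum_add_distrib]
      refine (Finset.sum_le_sum (g := fun _ => 2) fun v _ => ?_).trans ?_
      · have := h2 v
        split_ifs <;> omega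
      · simp [mul_comm]
    rcases hk' with ⟨h6, h7⟩ | h7
    · have h6 : (j + 1) * 5 ≤ (j + 1) * p := Nat.mul_le_mul_left _ h6
      omega
    · have h6 : (j + 1) * 3 ≤ (j + 1) * p := Nat.mul_le_mul_left _ hp
      omega
  · intro d r z _ _ hz _ _
    have hz0 : z = 0 := by
      funext μ ν
      by_contra h1
      have := (hz.1.2 μ ν h1).2.2
      omega
    subst hz0
    refine ⟨0, ⟨fun _ _ => NN.zero _ _ _ _, fun _ _ h1 => absurd rfl h1⟩, map_zero _, ?_⟩
    exact iterate_map_zero _ _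

theorem MDS_punct {n k : ℕ} (hk : k ≤ n) : ∀ m, MDS F (n + m) k → MDS F n k := by
  intro m
  induction m with
  | zero => exact id
  | succ m ih => exact fun h => ih (MDS.puncture h (by omega))

theorem MDS_short {n k : ℕ} (hk : k ≤ n) : ∀ m, MDS F (n + m) (k + m) → MDS F n k := by
  intro m
  induction m with
  | zero => exact id
  | succ m ih => exact fun h => ih (MDS.shorten h (by omega))

theorem MDS_minor {n k n' k' : ℕ} (h : MDS F n k) (h1 : k' ≤ k) (h2 : k' ≤ n')
    (h3 : n' + k ≤ n + k') : MDS F n' k' := by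
  obtain ⟨a, rfl⟩ : ∃ a, k = k' + a := ⟨k - k', by omega⟩
  obtain ⟨b, rfl⟩ : ∃ b, n = n' + b + a := ⟨n - n' - a, by omega⟩
  exact MDS_punct h2 b (MDS_short (by omega) a h)

/-- The length bound in odd characteristic. -/
theorem upper_odd [Fintype F] (p : ℕ) [Fact p.Prime] [CharP F p] (hp : 3 ≤ p) {n k : ℕ}
    (h : MDS F n k) (h2 : 2 ≤ k) (hk : k + 2 ≤ n)
    (hw : 5 ≤ p ∨ 2 * Fintype.card F ≤ 3 * k ∨ 2 * Fintype.card F ≤ 3 * (n - k)) :
    n ≤ Fintype.card F + 1 := by
  have hq : 1 < Fintype.card F := Fintype.one_lt_card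
  by_contra hn
  have key : ∀ k, MDS F n k → 2 ≤ k → k + 2 ≤ n → k ≤ n - k →
      (5 ≤ p ∨ 2 * Fintype.card F ≤ 3 * (n - k)) → False := by
    intro k h h2 hk h3 hw
    refine core_odd p hp (max 2 (Fintype.card F + 2 - (n - k))) (le_max_left _ _) (by omega) ?_
      (MDS_minor h (by omega) (by omega) (by omega))
    rcases hw with hw | hw
    · by_cases h4 : 3 * max 2 (Fintype.card F + 2 - (n - k)) ≤ Fintype.card F + 7
      · exact Or.inr h4
      · exact Or.inl ⟨hw, by omega⟩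
    · exact Or.inr (by omega)
  by_cases h3 : k ≤ n - k
  · exact key k h h2 hk h3 (by omega)
  · exact key (n - k) (h.dual (by omega)) (by omega) (by omega) (by omega) (by omega)

end Pool.Agent.Lib.MP_deca50_lc.Odd
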