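import Mathlib

/-! Definitions for the staircase argument (linear MDS codes, odd characteristic). -/

set_option linter.unusedSectionVars false

namespace Pool.Agent.Lib.MP_deca50_lc.Odd

variable {F : Type} [Field F] {ι : Type} [Fintype ι] [DecidableEq ι]

/-- The raising operator on functions of a multi-index, cut off outside the box `β`. -/
def upT {W : Type} [AddCommGroup W] (β : ι → ℕ) (f : (ι → ℕ) → W) : (ι → ℕ) → W :=
  fun μ => if ∀ v, μ v ≤ β v then ∑ u, (if 1 ≤ μ u then f (μ - Pi.single u 1) else 0) else 0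

/-- Contraction with the coordinate `u`. -/
noncomputable def ct (K : Submodule F (ι → F)) (u : ι) :
    ExteriorAlgebra F K →ₗ[F] ExteriorAlgebra F K :=
  CliffordAlgebra.contractLeft (Q := (0 : QuadraticForm F K))
    ((LinearMap.proj u : (ι → F) →ₗ[F] F).comp K.subtype)

/-- The homogeneous part of degree `j`. -/
noncomputable def LL (K : Submodule F (ι → F)) (j : ℕ) : Submodule F (ExteriorAlgebra F K) :=
  LinearMap.range (ExteriorAlgebra.ι F (M := K)) ^ j

/-- Elements of degree `j` killed by the contractions at the saturated coordinates of `ν`. -/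
def NN (K : Submodule F (ι → F)) (s j : ℕ) (ν : ι → ℕ) (w : ExteriorAlgebra F K) : Prop :=
  w ∈ LL K j ∧ ∀ u, ν u = s → ct K u w = 0

/-- The Koszul differential, cut off outside the box `cap`. -/
noncomputable def bdT (K : Submodule F (ι → F)) (cap : ι → ℕ)
    (z : (ι → ℕ) → ExteriorAlgebra F K) : (ι → ℕ) → ExteriorAlgebra F K :=
  fun ν => if ∀ v, ν v ≤ cap v then ∑ u, (if 1 ≤ ν u then ct K u (z (ν - Pi.single u 1)) else 0) else 0

/-- Unit patterns on at most `ρ` coordinates are taken by words of `K`. -/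
def Gen (K : Submodule F (ι → F)) (ρ : ℕ) : Prop :=
  ∀ D : Finset ι, D.card ≤ ρ → ∀ u ∈ D, ∃ κ ∈ K, ∀ v ∈ D, κ v = if v = u then 1 else 0

theorem ct_ι_mul (K : Submodule F (ι → F)) (u : ι) (κ : K) (w : ExteriorAlgebra F K) :
    ct K u (ExteriorAlgebra.ι F κ * w) = κ.1 u • w - ExteriorAlgebra.ι F κ * ct K u w :=
  CliffordAlgebra.contractLeft_ι_mul _ _ _

theorem ct_ct (K : Submodule F (ι → F)) (u : ι) (w : ExteriorAlgebra F K) :
    ct K u (ct K u w) = 0 :=
  CliffordAlgebra.contractLeft_contractLeft _ _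

theorem ct_comm (K : Submodule F (ι → F)) (u v : ι) (w : ExteriorAlgebra F K) :
    ct K u (ct K v w) = - ct K v (ct K u w) :=
  CliffordAlgebra.contractLeft_comm _ _ _

theorem ct_one (K : Submodule F (ι → F)) (u : ι) : ct K u 1 = 0 :=
  CliffordAlgebra.contractLeft_one _ _

theorem mem_LL_zero (K : Submodule F (ι → F)) {w : ExteriorAlgebra F K} :
    w ∈ LL K 0 ↔ ∃ c : F, w = c • (1 : ExteriorAlgebra F K) := by
  unfold LL
  rw [pow_zero, Submodule.one_eq_span, Submodule.mem_span_singleton]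
  constructor
  · rintro ⟨c, h⟩; exact ⟨c, h.symm⟩
  · rintro ⟨c, h⟩; exact ⟨c, h.symm⟩

theorem ct_LL_zero (K : Submodule F (ι → F)) (u : ι) {w : ExteriorAlgebra F K}
    (h : w ∈ LL K 0) : ct K u w = 0 := by
  obtain ⟨c, rfl⟩ := (mem_LL_zero K).1 h
  rw [map_smul, ct_one, smul_zero]

theorem ι_mul_mem_LL (K : Submodule F (ι → F)) {j : ℕ} (κ : K) {w : ExteriorAlgebra F K}
    (h : w ∈ LL K j) : ExteriorAlgebra.ι F κ * w ∈ LL K (j + 1) := by
  unfold LL at *
  rw [pow_succ']
  exact Submodule.mul_mem_mul (LinearMap.mem_range_self _ κ) h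

theorem LL_succ_induction (K : Submodule F (ι → F)) {j : ℕ} {P : ExteriorAlgebra F K → Prop}
    (hm : ∀ (κ : K) (w : ExteriorAlgebra F K), w ∈ LL K j → P (ExteriorAlgebra.ι F κ * w))
    (ha : ∀ x y, P x → P y → P (x + y)) {w : ExteriorAlgebra F K} (h : w ∈ LL K (j + 1)) :
    P w := by
  unfold LL at h
  rw [pow_succ'] at h
  refine Submodule.mul_induction_on h ?_ ha
  rintro _ ⟨κ, rfl⟩ x hx
  exact hm κ x hx

theorem ct_mem_LL (K : Submodule F (ι → F)) (u : ι) :
    ∀ (j : ℕ) {w : ExteriorAlgebra F K}, w ∈ LL K (j + 1) → ct K u w ∈ LL K j := by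
  intro j
  induction j with
  | zero =>
    intro w h
    refine LL_succ_induction K (P := fun w => ct K u w ∈ LL K 0) ?_ ?_ h
    · intro κ x hx
      rw [ct_ι_mul, ct_LL_zero K u hx, mul_zero, sub_zero]
      exact Submodule.smul_mem _ _ hx
    · intro x y hx hy
      rw [map_add]; exact Submodule.add_mem _ hx hy
  | succ j ih =>
    intro w h
    refine LL_succ_induction K (P := fun w => ct K u w ∈ LL K (j + 1)) ?_ ?_ h
    · intro κ x hx
      rw [ct_ι_mul]
      exact Submodule.sub_mem _ (Submodule.smul_mem _ _ hx) (ι_mul_mem_LL K κ (ih hx))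
    · intro x y hx hy
      rw [map_add]; exact Submodule.add_mem _ hx hy

end Pool.Agent.Lib.MP_deca50_lc.Odd
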