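import Pool.Agent.Lib.MP_deca50_lc.Odd.Grid

/-! The functional on the grid kills the images of both operators. -/

set_option linter.unusedSectionVars false

namespace Pool.Agent.Lib.MP_deca50_lc.Odd

variable {F : Type} [Field F] {ι : Type} [Fintype ι] [DecidableEq ι]

/-- All multi-indices bounded by `s`. -/
def Box (ι : Type) [Fintype ι] [DecidableEq ι] (s : ℕ) : Finset (ι → ℕ) :=
  Fintype.piFinset fun _ => Finset.range (s + 1)

theorem mem_Box {s : ℕ} {μ : ι → ℕ} : μ ∈ Box ι s ↔ ∀ v, μ v ≤ s := by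
  simp [Box]

theorem add_single_apply (μ : ι → ℕ) (u v : ι) :
    (μ + Pi.single u 1 : ι → ℕ) v = μ v + if v = u then 1 else 0 := by
  simp [Pi.single_apply]

theorem sub_add_single {μ : ι → ℕ} {u : ι} (h : 1 ≤ μ u) :
    μ - Pi.single u 1 + Pi.single u 1 = μ := by
  funext v
  rw [add_single_apply, sub_single_apply]
  split_ifs with hv
  · subst hv; omega
  · omega

theorem add_sub_single (μ : ι → ℕ) (u : ι) : μ + Pi.single u 1 - Pi.single u 1 = μ := by
  funext v
  rw [sub_single_apply, add_single_apply]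
  omega

theorem sum_add_single (μ : ι → ℕ) (u : ι) :
    ∑ v, (μ + Pi.single u 1 : ι → ℕ) v = ∑ v, μ v + 1 := by
  simp [Finset.sum_add_distrib]

theorem sum_shift (s : ℕ) (u : ι) (h : (ι → ℕ) → F) :
    ∑ μ ∈ Box ι s, (if 1 ≤ μ u then h μ else 0) =
      ∑ μ ∈ Box ι s, (if μ u + 1 ≤ s then h (μ + Pi.single u 1) else 0) := by
  rw [← Finset.sum_filter, ← Finset.sum_filter]
  refine Finset.sum_bij' (fun μ _ => μ - Pi.single u 1) (fun μ _ => μ + Pi.single u 1)
    ?_ ?_ ?_ ?_ ?_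
  · intro μ hμ
    rw [Finset.mem_filter, mem_Box] at hμ ⊢
    refine ⟨fun v => (sub_single_le μ u v).trans (hμ.1 v), ?_⟩
    rw [sub_single_apply, if_pos rfl]
    have := hμ.1 u
    omega
  · intro μ hμ
    rw [Finset.mem_filter, mem_Box] at hμ ⊢
    refine ⟨fun v => ?_, ?_⟩
    · rw [add_single_apply]
      split_ifs with hv
      · subst hv; exact hμ.2
      · exact hμ.1 v
    · rw [add_single_apply, if_pos rfl]; omega
  · intro μ hμ
    exact sub_add_single (Finset.mem_filter.mp hμ).2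
  · intro μ _
    exact add_sub_single μ u
  · intro μ hμ
    rw [sub_add_single (Finset.mem_filter.mp hμ).2]

/-- The scalar part. -/
noncomputable def sc (K : Submodule F (ι → F)) : ExteriorAlgebra F K →ₐ[F] F :=
  ExteriorAlgebra.algebraMapInv

/-- The functional. -/
noncomputable def Lam (K : Submodule F (ι → F)) (s : ℕ) (T : (ι → ℕ) → (ι → ℕ) → F)
    (x : Grid K) : F :=
  ∑ μ ∈ Box ι s, ∑ ν ∈ Box ι s, sc K (x μ ν) * T μ ν

theorem Lam_add (K : Submodule F (ι → F)) (s : ℕ) (T : (ι → ℕ) → (ι → ℕ) → F) (x y : Grid K) :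
    Lam K s T (x + y) = Lam K s T x + Lam K s T y := by
  simp only [Lam, Pi.add_apply, map_add, add_mul, Finset.sum_add_distrib]

theorem Lam_EE {K : Submodule F (ι → F)} {s m : ℕ} {d : ℤ} (T : (ι → ℕ) → (ι → ℕ) → F)
    (h1 : ∀ μ ν : ι → ℕ, ∑ u, T (μ + Pi.single u 1) ν = 0)
    (h3 : ∀ (μ ν : ι → ℕ) (u : ι), ((∑ v, μ v : ℕ) : ℤ) = d + 1 → ∑ v, ν v = m → 1 ≤ μ u →
      s + 1 ≤ μ u + ν u → T μ ν = 0)
    {w : Grid K} (hw : GG K s m 0 d w) : Lam K s T (EE K s w) = 0 := by
  unfold Lam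
  rw [Finset.sum_comm]
  refine Finset.sum_eq_zero fun ν _ => ?_
  have e1 : ∀ μ : ι → ℕ, sc K (EE K s w μ ν) * T μ ν =
      ∑ u, (if 1 ≤ μ u then sc K (w (μ - Pi.single u 1) ν) * T μ ν else 0) := by
    intro μ
    rw [EE_apply]
    split_ifs with h
    · rw [map_sum, Finset.sum_mul]
      refine Finset.sum_congr rfl fun u _ => ?_
      split_ifs <;> simp
    · rw [map_zero, zero_mul]
      refine (Finset.sum_eq_zero fun u _ => ?_).symm
      split_ifs with hu
      · by_cases h0 : w (μ - Pi.single u 1) ν = 0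
        · rw [h0, map_zero, zero_mul]
        · obtain ⟨h4, h5, h6⟩ := hw.2 _ _ h0
          push Not at h
          obtain ⟨v, hv⟩ := h
          have h7 := h4 v
          rw [sub_single_apply] at h7
          have hvu : v = u := by
            by_contra hne
            rw [if_neg hne] at h7
            omega
          subst hvu
          rw [h3 μ ν v (by rw [← sum_sub_single hu, ← h5]; push_cast; ring) (by omega) hu
            (by omega), mul_zero]
      · rfl
  simp only [e1]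
  rw [Finset.sum_comm]
  simp only [sum_shift s _ (fun μ => sc K (w (μ - Pi.single _ 1) ν) * T μ ν), add_sub_single]
  rw [Finset.sum_comm]
  refine Finset.sum_eq_zero fun μ _ => ?_
  by_cases h0 : w μ ν = 0
  · simp [h0]
  · obtain ⟨h4, h5, h6⟩ := hw.2 _ _ h0
    have e2 : ∀ u, (if μ u + 1 ≤ s then sc K (w μ ν) * T (μ + Pi.single u 1) ν else 0) =
        sc K (w μ ν) * T (μ + Pi.single u 1) ν := by
      intro u
      split_ifs with hu
      · rfl
      · rw [h3 _ ν u (by rw [sum_add_single, ← h5]; push_cast; ring) (by omega)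
          (by rw [add_single_apply, if_pos rfl]; omega)
          (by rw [add_single_apply, if_pos rfl]; omega), mul_zero]
    simp only [e2]
    rw [← Finset.mul_sum, h1, mul_zero]

theorem sc_ct_ι (K : Submodule F (ι → F)) (u : ι) (κ : K) :
    ct K u (ExteriorAlgebra.ι F κ) = algebraMap F _ (κ.1 u) := by
  have := ct_ι_mul K u κ 1
  rw [mul_one, ct_one, mul_zero, sub_zero] at this
  rw [this, Algebra.algebraMap_eq_smul_one]

theorem Lam_DD {K : Submodule F (ι → F)} {s m : ℕ} {d : ℤ} (T : (ι → ℕ) → (ι → ℕ) → F)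
    (h2 : ∀ κ ∈ K, ∀ μ ν : ι → ℕ, ∑ u, κ u * T μ (ν + Pi.single u 1) = 0)
    (h3 : ∀ (μ ν : ι → ℕ) (u : ι), ((∑ v, μ v : ℕ) : ℤ) = d → ∑ v, ν v = m → 1 ≤ μ u →
      s + 1 ≤ μ u + ν u → T μ ν = 0)
    {w : Grid K} (hw : GG K s m 1 d w) : Lam K s T (DD K s w) = 0 := by
  unfold Lam
  refine Finset.sum_eq_zero fun μ _ => ?_
  have key : ∀ (ν : ι → ℕ) (u : ι), s ≤ μ u + ν u →
      sc K (ct K u (w μ ν)) * T μ (ν + Pi.single u 1) = 0 := by
    intro ν u hu
    by_cases h0 : w μ ν = 0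
    · rw [h0, map_zero, map_zero, zero_mul]
    · obtain ⟨h4, h5, h6⟩ := hw.2 _ _ h0
      by_cases hμ : 1 ≤ μ u
      · rw [h3 μ _ u h5 (by rw [sum_add_single]; exact h6) hμ
          (by rw [add_single_apply, if_pos rfl]; omega), mul_zero]
      · have := h4 u
        rw [(hw.1 μ ν).2 u (by omega), map_zero, zero_mul]
  have e1 : ∀ ν : ι → ℕ, sc K (DD K s w μ ν) * T μ ν =
      ∑ u, (if 1 ≤ ν u then sc K (ct K u (w μ (ν - Pi.single u 1))) * T μ ν else 0) := by
    intro ν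
    rw [DD_apply]
    split_ifs with h
    · rw [map_sum, Finset.sum_mul]
      refine Finset.sum_congr rfl fun u _ => ?_
      split_ifs <;> simp
    · rw [map_zero, zero_mul]
      refine (Finset.sum_eq_zero fun u _ => ?_).symm
      split_ifs with hu
      · by_cases h0 : w μ (ν - Pi.single u 1) = 0
        · rw [h0, map_zero, map_zero, zero_mul]
        · obtain ⟨h4, -, -⟩ := hw.2 _ _ h0
          push Not at h
          obtain ⟨v, hv⟩ := h
          have h7 := h4 v
          rw [sub_single_apply] at h7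
          have hvu : v = u := by
            by_contra hne
            rw [if_neg hne] at h7
            omega
          subst hvu
          have := key (ν - Pi.single v 1) v (by rw [sub_single_apply, if_pos rfl]; omega)
          rwa [sub_add_single hu] at this
      · rfl
  simp only [e1]
  rw [Finset.sum_comm]
  simp only [sum_shift s _ (fun ν => sc K (ct K _ (w μ (ν - Pi.single _ 1))) * T μ ν),
    add_sub_single]
  rw [Finset.sum_comm]
  refine Finset.sum_eq_zero fun ν _ => ?_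
  have e2 : ∀ u, (if ν u + 1 ≤ s then sc K (ct K u (w μ ν)) * T μ (ν + Pi.single u 1) else 0) =
      sc K (ct K u (w μ ν)) * T μ (ν + Pi.single u 1) := by
    intro u
    split_ifs with hu
    · rfl
    · rw [key ν u (by omega)]
  simp only [e2]
  have h8 := (hw.1 μ ν).1
  rw [LL, pow_one] at h8
  obtain ⟨κ, hκ⟩ := h8
  rw [← hκ]
  simp only [sc_ct_ι, AlgHom.commutes, Algebra.algebraMap_self, RingHom.id_apply]
  exact h2 κ.1 κ.2 μ ν

/-- The starting element. -/
noncomputable def start (K : Submodule F (ι → F)) (μ0 ν0 : ι → ℕ) : Grid K :=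
  fun μ ν => if μ = μ0 ∧ ν = ν0 then 1 else 0

theorem start_ne_zero {K : Submodule F (ι → F)} {μ0 ν0 μ ν : ι → ℕ}
    (h : start K μ0 ν0 μ ν ≠ 0) : μ = μ0 ∧ ν = ν0 := by
  by_contra h1
  exact h (if_neg h1)

theorem Lam_start (K : Submodule F (ι → F)) (s : ℕ) (T : (ι → ℕ) → (ι → ℕ) → F)
    {μ0 ν0 : ι → ℕ} (h : ∀ v, μ0 v + ν0 v ≤ s) : Lam K s T (start K μ0 ν0) = T μ0 ν0 := by
  unfold Lam
  rw [Finset.sum_eq_single μ0, Finset.sum_eq_single ν0]
  · simp [start]
  · intro ν _ hν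
    simp [start, hν]
  · intro h1
    exact absurd (mem_Box.mpr fun v => le_trans (Nat.le_add_left _ _) (h v)) h1
  · intro μ _ hμ
    simp [start, hμ]
  · intro h1
    exact absurd (mem_Box.mpr fun v => le_trans (Nat.le_add_right _ _) (h v)) h1

theorem GG_start (K : Submodule F (ι → F)) (s : ℕ) {μ0 ν0 : ι → ℕ}
    (h : ∀ v, μ0 v + ν0 v ≤ s) :
    GG K s (∑ u, ν0 u) 0 ((∑ u, μ0 u : ℕ) : ℤ) (start K μ0 ν0) := by
  refine ⟨fun μ ν => ?_, fun μ ν h1 => ?_⟩
  · unfold start
    split_ifs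
    · exact ⟨(mem_LL_zero K).2 ⟨1, (one_smul _ _).symm⟩, fun u _ => ct_one K u⟩
    · exact NN.zero _ _ _ _
  · obtain ⟨rfl, rfl⟩ := start_ne_zero h1
    exact ⟨h, rfl, rfl⟩

theorem GG'_start (K : Submodule F (ι → F)) (s : ℕ) {μ0 ν0 : ι → ℕ}
    (h : ∀ v, μ0 v + ν0 v ≤ s) (h' : ∀ v, s ≤ ν0 v + 1) :
    GG' K s (∑ u, ν0 u) (∑ u, μ0 u + 1) 0 (((∑ u, μ0 u : ℕ) : ℤ) + 1)
      (EE K s (start K μ0 ν0)) := by
  have h1 := (GG_start K s h).up
  refine ⟨h1, fun μ ν h2 => ?_⟩
  obtain ⟨h3, h4, -⟩ := h1.2 μ ν h2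
  obtain ⟨-, u, -, h5⟩ := EE_ne_zero h2
  obtain ⟨-, rfl⟩ := start_ne_zero h5
  have h6 : ∑ u, μ u = ∑ u, μ0 u + 1 := by exact_mod_cast h4
  rw [← h6, Finset.card_filter]
  refine Finset.sum_le_sum fun v _ => ?_
  have := h3 v
  have := h' v
  split_ifs <;> omega

end Pool.Agent.Lib.MP_deca50_lc.Odd
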