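import Pool.Agent.Lib.MP_deca50_lc.Odd.Defs

/-! Rows: exactness of the bounded Koszul complex. -/

set_option linter.unusedSectionVars false

namespace Pool.Agent.Lib.MP_deca50_lc.Odd

variable {F : Type} [Field F] {ι : Type} [Fintype ι] [DecidableEq ι]

namespace Row

theorem sub_self_ap (ν : ι → ℕ) (u : ι) : (ν - Pi.single u 1 : ι → ℕ) u = ν u - 1 := by
  simp

theorem sub_ne_ap (ν : ι → ℕ) {u v : ι} (h : v ≠ u) : (ν - Pi.single u 1 : ι → ℕ) v = ν v := by
  simp [h]

theorem sub_le_ap (ν : ι → ℕ) (u v : ι) : (ν - Pi.single u 1 : ι → ℕ) v ≤ ν v := by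
  simp

theorem add_self_ap (ν : ι → ℕ) (u : ι) : (ν + Pi.single u 1 : ι → ℕ) u = ν u + 1 := by
  simp

theorem add_ne_ap (ν : ι → ℕ) {u v : ι} (h : v ≠ u) : (ν + Pi.single u 1 : ι → ℕ) v = ν v := by
  simp [h]

theorem sum_add_single (ν : ι → ℕ) (u : ι) :
    ∑ v, (ν + Pi.single u 1 : ι → ℕ) v = ∑ v, ν v + 1 := by
  simp [Finset.sum_add_distrib]

theorem sub_add_single (ν : ι → ℕ) {u : ι} (h : 1 ≤ ν u) :
    ν - Pi.single u 1 + Pi.single u 1 = ν := by
  funext v
  by_cases hv : v = u
  · subst hv; rw [add_self_ap, sub_self_ap]; omega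
  · rw [add_ne_ap _ hv, sub_ne_ap _ hv]

theorem add_sub_single (ν : ι → ℕ) (u : ι) : ν + Pi.single u 1 - Pi.single u 1 = ν := by
  funext v
  by_cases hv : v = u
  · subst hv; rw [sub_self_ap, add_self_ap]; omega
  · rw [sub_ne_ap _ hv, add_ne_ap _ hv]

theorem sub_add_comm' (ν : ι → ℕ) {u v : ι} (h : v ≠ u) :
    ν - Pi.single v 1 + Pi.single u 1 = ν + Pi.single u 1 - Pi.single v 1 := by
  funext x
  by_cases hx : x = u
  · subst hx; rw [add_self_ap, sub_ne_ap _ h.symm, sub_ne_ap _ h.symm, add_self_ap]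
  · rw [add_ne_ap _ hx]
    by_cases hy : x = v
    · subst hy; rw [sub_self_ap, sub_self_ap, add_ne_ap _ hx]
    · rw [sub_ne_ap _ hy, sub_ne_ap _ hy, add_ne_ap _ hx]

theorem sub_sub_comm' (ν : ι → ℕ) (u v : ι) :
    ν - Pi.single u 1 - Pi.single v 1 = ν - Pi.single v 1 - Pi.single u 1 := by
  funext x
  simp only [Pi.sub_apply]
  omega

theorem sum_sub_single (ν : ι → ℕ) {u : ι} (h : 1 ≤ ν u) :
    ∑ v, (ν - Pi.single u 1 : ι → ℕ) v + 1 = ∑ v, ν v := by
  rw [← sum_add_single (ν - Pi.single u 1) u, sub_add_single ν h]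

theorem sum_update (ν : ι → ℕ) (u : ι) (a : ℕ) :
    ∑ v, Function.update ν u a v + ν u = ∑ v, ν v + a := by
  rw [Finset.sum_update_of_mem (Finset.mem_univ u), ← Finset.add_sum_erase _ _ (Finset.mem_univ u),
    Finset.sdiff_singleton_eq_erase]
  omega

theorem update_sub (ν : ι → ℕ) {u v : ι} (h : v ≠ u) (a : ℕ) :
    Function.update (ν - Pi.single v 1) u a = Function.update ν u a - Pi.single v 1 := by
  funext x
  by_cases hx : x = u
  · subst hx; rw [sub_ne_ap _ h.symm, Function.update_self, Function.update_self]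
  · rw [Function.update_of_ne hx]
    simp only [Pi.sub_apply, Function.update_of_ne hx]

variable (K : Submodule F (ι → F))

theorem NN_zero (s j : ℕ) (ν : ι → ℕ) : NN K s j ν 0 :=
  ⟨Submodule.zero_mem _, fun _ _ => map_zero _⟩

theorem NN_add {s j : ℕ} {ν : ι → ℕ} {x y : ExteriorAlgebra F K} (hx : NN K s j ν x)
    (hy : NN K s j ν y) : NN K s j ν (x + y) :=
  ⟨Submodule.add_mem _ hx.1 hy.1, fun u hu => by rw [map_add, hx.2 u hu, hy.2 u hu, add_zero]⟩

theorem NN_sub {s j : ℕ} {ν : ι → ℕ} {x y : ExteriorAlgebra F K} (hx : NN K s j ν x)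
    (hy : NN K s j ν y) : NN K s j ν (x - y) :=
  ⟨Submodule.sub_mem _ hx.1 hy.1, fun u hu => by rw [map_sub, hx.2 u hu, hy.2 u hu, sub_zero]⟩

theorem bdT_add (cap : ι → ℕ) (x y : (ι → ℕ) → ExteriorAlgebra F K) :
    bdT K cap (x + y) = bdT K cap x + bdT K cap y := by
  funext ν
  simp only [bdT, Pi.add_apply]
  split_ifs with h
  · rw [← Finset.sum_add_distrib]
    refine Finset.sum_congr rfl fun u _ => ?_
    split_ifs
    · rw [map_add]
    · rw [add_zero]
  · rw [add_zero]

theorem bdT_zero (cap : ι → ℕ) : bdT K cap 0 = 0 := by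
  funext ν
  simp [bdT]

theorem bdT_sub (cap : ι → ℕ) (x y : (ι → ℕ) → ExteriorAlgebra F K) :
    bdT K cap (x - y) = bdT K cap x - bdT K cap y := by
  rw [eq_sub_iff_add_eq, ← bdT_add, sub_add_cancel]

theorem bdT_bdT (cap : ι → ℕ) (w : (ι → ℕ) → ExteriorAlgebra F K) :
    bdT K cap (bdT K cap w) = 0 := by
  funext ν
  by_cases h : ∀ v, ν v ≤ cap v
  · have h1 : bdT K cap (bdT K cap w) ν = ∑ p ∈ (Finset.univ : Finset ι) ×ˢ (Finset.univ : Finset ι),
        (if p.1 ≠ p.2 ∧ 1 ≤ ν p.1 ∧ 1 ≤ ν p.2 then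
          ct K p.1 (ct K p.2 (w (ν - Pi.single p.1 1 - Pi.single p.2 1))) else 0) := by
      rw [Finset.sum_product, bdT]
      simp only [if_pos h]
      refine Finset.sum_congr rfl fun u _ => ?_
      by_cases hu : 1 ≤ ν u
      · have h' : ∀ v, (ν - Pi.single u 1 : ι → ℕ) v ≤ cap v :=
          fun v => (sub_le_ap ν u v).trans (h v)
        rw [if_pos hu, bdT]
        simp only [if_pos h']
        rw [map_sum]
        refine Finset.sum_congr rfl fun v _ => ?_
        by_cases huv : u = v
        · subst huv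
          rw [if_neg (fun hh : u ≠ u ∧ _ => hh.1 rfl)]
          split_ifs
          · exact ct_ct K u _
          · exact map_zero _
        · rw [sub_ne_ap ν (Ne.symm huv)]
          by_cases hv : 1 ≤ ν v
          · rw [if_pos hv, if_pos ⟨huv, hu, hv⟩]
          · rw [if_neg hv, if_neg (fun hh => hv hh.2.2), map_zero]
      · rw [if_neg hu]
        exact (Finset.sum_eq_zero fun v _ => if_neg (fun hh => hu hh.2.1)).symm
    rw [h1, Pi.zero_apply]
    refine Finset.sum_involution (fun p _ => p.swap) ?_ ?_ ?_ ?_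
    · rintro ⟨u, v⟩ _
      simp only [Prod.swap_prod_mk]
      by_cases hh : u ≠ v ∧ 1 ≤ ν u ∧ 1 ≤ ν v
      · rw [if_pos hh, if_pos ⟨hh.1.symm, hh.2.2, hh.2.1⟩, ct_comm K u v, sub_sub_comm' ν u v,
          neg_add_cancel]
      · rw [if_neg hh, if_neg (fun h2 => hh ⟨h2.1.symm, h2.2.2, h2.2.1⟩), add_zero]
    · rintro ⟨u, v⟩ _ hne heq
      apply hne
      have : v = u := congrArg Prod.fst heq
      exact if_neg (fun hh => hh.1 this.symm)
    · intro p _
      simp
    · intro p _
      simp
  · simp only [bdT, if_neg h, Pi.zero_apply]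

/-- Cycles. -/
def Cy (s : ℕ) (cap : ι → ℕ) (j δ : ℕ) (z : (ι → ℕ) → ExteriorAlgebra F K) : Prop :=
  (∀ ν, NN K s j ν (z ν)) ∧ (∀ ν, z ν ≠ 0 → (∀ v, ν v ≤ cap v) ∧ ∑ u, ν u = δ) ∧ bdT K cap z = 0

/-- Boundaries. -/
def Bd (s : ℕ) (cap : ι → ℕ) (j δ : ℕ) (z : (ι → ℕ) → ExteriorAlgebra F K) : Prop :=
  ∃ w : (ι → ℕ) → ExteriorAlgebra F K, (∀ ν, NN K s (j + 1) ν (w ν)) ∧
      (∀ ν, w ν ≠ 0 → (∀ v, ν v ≤ cap v) ∧ ∑ u, ν u + 1 = δ) ∧ bdT K cap w = z

variable {K}

theorem Bd_zero (s : ℕ) (cap : ι → ℕ) (j δ : ℕ) : Bd K s cap j δ 0 :=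
  ⟨0, fun ν => NN_zero K s _ ν, fun _ h => absurd rfl h, bdT_zero K cap⟩

theorem Bd.add {s : ℕ} {cap : ι → ℕ} {j δ : ℕ} {x y : (ι → ℕ) → ExteriorAlgebra F K}
    (hx : Bd K s cap j δ x) (hy : Bd K s cap j δ y) : Bd K s cap j δ (x + y) := by
  obtain ⟨a, a1, a2, rfl⟩ := hx
  obtain ⟨b, b1, b2, rfl⟩ := hy
  refine ⟨a + b, fun ν => NN_add K (a1 ν) (b1 ν), fun ν h => ?_, bdT_add K cap a b⟩
  by_cases ha : a ν = 0
  · refine b2 ν fun hb => h ?_
    rw [Pi.add_apply, ha, hb, add_zero]
  · exact a2 ν ha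

theorem Bd.cy {s : ℕ} {cap : ι → ℕ} {j δ : ℕ} {x : (ι → ℕ) → ExteriorAlgebra F K}
    (hx : Bd K s cap j δ x) : Cy K s cap j δ x := by
  obtain ⟨a, a1, a2, rfl⟩ := hx
  refine ⟨fun ν => ?_, fun ν h => ?_, bdT_bdT K cap a⟩
  · unfold bdT
    split_ifs with h
    · constructor
      · refine Submodule.sum_mem _ fun u _ => ?_
        split_ifs
        · exact ct_mem_LL K u j (a1 _).1
        · exact Submodule.zero_mem _
      · intro v hv
        rw [map_sum]
        refine Finset.sum_eq_zero fun u _ => ?_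
        split_ifs
        · by_cases huv : v = u
          · subst huv; exact ct_ct K v _
          · rw [ct_comm, (a1 _).2 v ((sub_ne_ap ν huv).trans hv), map_zero, neg_zero]
        · exact map_zero _
    · exact NN_zero K s j ν
  · unfold bdT at h
    split_ifs at h with h1
    · obtain ⟨u, _, hu⟩ := Finset.exists_ne_zero_of_sum_ne_zero h
      split_ifs at hu with h2
      · have h3 : a (ν - Pi.single u 1) ≠ 0 := fun h4 => hu (by rw [h4, map_zero])
        refine ⟨h1, ?_⟩
        rw [← sum_sub_single ν h2]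
        exact (a2 _ h3).2
      · exact absurd rfl hu
    · exact absurd rfl h

theorem Cy.sub {s : ℕ} {cap : ι → ℕ} {j δ : ℕ} {x y : (ι → ℕ) → ExteriorAlgebra F K}
    (hx : Cy K s cap j δ x) (hy : Cy K s cap j δ y) : Cy K s cap j δ (x - y) := by
  refine ⟨fun ν => NN_sub K (hx.1 ν) (hy.1 ν), fun ν h => ?_, ?_⟩
  · by_cases ha : x ν = 0
    · refine hy.2.1 ν fun hb => h ?_
      rw [Pi.sub_apply, ha, hb, sub_zero]
    · exact hx.2.1 ν ha
  · rw [bdT_sub, hx.2.2, hy.2.2, sub_zero]

theorem Bd.of_sub {s : ℕ} {cap : ι → ℕ} {j δ : ℕ} {x y : (ι → ℕ) → ExteriorAlgebra F K}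
    (hy : Bd K s cap j δ y) (h : Bd K s cap j δ (x - y)) : Bd K s cap j δ x := by
  have := h.add hy
  rwa [sub_add_cancel] at this

/-- The projection attached to a word and a coordinate. -/
noncomputable def pr (κ : K) (u : ι) (x : ExteriorAlgebra F K) : ExteriorAlgebra F K :=
  ExteriorAlgebra.ι F κ * ct K u x

theorem pr_sub (κ : K) (u : ι) (x y : ExteriorAlgebra F K) :
    pr κ u (x - y) = pr κ u x - pr κ u y := by
  unfold pr
  rw [map_sub, mul_sub]

theorem pr_zero (κ : K) (u : ι) : pr κ u 0 = 0 := by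
  unfold pr
  rw [map_zero, mul_zero]

theorem pr_pr {κ : K} {u : ι} (h : κ.1 u = 1) (x : ExteriorAlgebra F K) :
    pr κ u (pr κ u x) = pr κ u x := by
  unfold pr
  rw [ct_ι_mul, ct_ct, mul_zero, sub_zero, h, one_smul]

theorem pr_comm {κ κ' : K} {u v : ι} (h : κ.1 v = 0) (h' : κ'.1 u = 0)
    (x : ExteriorAlgebra F K) : pr κ u (pr κ' v x) = pr κ' v (pr κ u x) := by
  unfold pr
  rw [ct_ι_mul, ct_ι_mul, h, h', zero_smul, zero_smul, zero_sub, zero_sub, mul_neg, mul_neg,
    ← mul_assoc, ← mul_assoc, ct_comm K u v, mul_neg, neg_neg, ← neg_mul]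
  congr 1
  exact eq_neg_of_add_eq_zero_left (ExteriorAlgebra.ι_add_mul_swap _ _)

theorem card_le_of_fixed (κ : ι → K) (T : Finset ι) :
    ∀ (j : ℕ) (x : ExteriorAlgebra F K), (∀ u ∈ T, ∀ v ∈ T, v ≠ u → (κ u).1 v = 0) →
      x ∈ LL K j → x ≠ 0 → (∀ u ∈ T, pr (κ u) u x = x) → T.card ≤ j := by
  induction T using Finset.induction_on with
  | empty => intro j x _ _ _ _; simp
  | insert u T hu ih =>
    intro j x hκ hx h0 hf
    have hux := hf u (Finset.mem_insert_self _ _)
    have hc : ct K u x ≠ 0 := by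
      intro hc
      apply h0
      rw [← hux, pr, hc, mul_zero]
    cases j with
    | zero => exact absurd (ct_LL_zero K u hx) hc
    | succ j =>
      rw [Finset.card_insert_of_notMem hu]
      refine Nat.succ_le_succ (ih j (ct K u x) (fun a ha b hb => hκ a (Finset.mem_insert_of_mem ha) b
        (Finset.mem_insert_of_mem hb)) (ct_mem_LL K u j hx) hc fun v hv => ?_)
      have hvu : u ≠ v := fun h => hu (h ▸ hv)
      have h1 := hκ v (Finset.mem_insert_of_mem hv) u (Finset.mem_insert_self _ _) hvu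
      conv_rhs => rw [← hf v (Finset.mem_insert_of_mem hv)]
      unfold pr
      rw [ct_ι_mul, h1, zero_smul, zero_sub, ct_comm K v u, mul_neg]

theorem homotopy {s : ℕ} {cap : ι → ℕ} (hs : 1 ≤ s) (hcap : ∀ u, cap u ≤ s) {j δ : ℕ}
    {z : (ι → ℕ) → ExteriorAlgebra F K} (hz : Cy K s cap j δ z) {u : ι} {κ : K}
    (h1 : κ.1 u = 1) (h0 : ∀ v, 1 ≤ cap v → v ≠ u → κ.1 v = 0) :
    ∃ b, Bd K s cap j δ b ∧ ∀ ν, (∀ v, ν v ≤ cap v) →
      b ν = (if 1 ≤ ν u then z ν - pr κ u (z ν) else 0) +
        (if ν u < cap u then pr κ u (z ν) else 0) := by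
  let w : (ι → ℕ) → ExteriorAlgebra F K := fun ν =>
    if (∀ v, ν v ≤ cap v) ∧ ν u < cap u then ExteriorAlgebra.ι F κ * z (ν + Pi.single u 1) else 0
  refine ⟨bdT K cap w, ⟨w, fun ν => ?_, fun ν h => ?_, rfl⟩, fun ν hν => ?_⟩
  · simp only [w]
    split_ifs with h
    · refine ⟨ι_mul_mem_LL K κ (hz.1 _).1, fun v hv => ?_⟩
      have hvu : v ≠ u := by
        rintro rfl
        have := hcap v
        omega
      have h2 := h.1 v
      rw [ct_ι_mul, h0 v (by omega) hvu, zero_smul,
        (hz.1 _).2 v ((add_ne_ap ν hvu).trans hv), mul_zero, sub_zero]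
    · exact NN_zero K s _ ν
  · simp only [w] at h
    split_ifs at h with h2
    · have h3 : z (ν + Pi.single u 1) ≠ 0 := fun h4 => h (by rw [h4, mul_zero])
      refine ⟨h2.1, ?_⟩
      rw [← sum_add_single ν u]
      exact (hz.2.1 _ h3).2
    · exact absurd rfl h
  · rw [bdT]
    simp only [if_pos hν]
    rw [← Finset.add_sum_erase _ _ (Finset.mem_univ u)]
    have hle : ∀ x v, (ν - Pi.single x 1 : ι → ℕ) v ≤ cap v :=
      fun x v => (sub_le_ap ν x v).trans (hν v)
    congr 1
    · split_ifs with h2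
      · have h3 : (ν - Pi.single u 1 : ι → ℕ) u < cap u := by
          rw [sub_self_ap]
          have := hν u
          omega
        simp only [w]
        rw [if_pos ⟨hle u, h3⟩, sub_add_single ν h2, ct_ι_mul, h1, one_smul, pr]
      · rfl
    · by_cases h2 : ν u < cap u
      · rw [if_pos h2]
        have h3 : ∀ v, (ν + Pi.single u 1 : ι → ℕ) v ≤ cap v := by
          intro v
          by_cases hv : v = u
          · subst hv; rw [add_self_ap]; omega
          · rw [add_ne_ap _ hv]; exact hν v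
        have h4 := congrFun hz.2.2 (ν + Pi.single u 1)
        rw [bdT] at h4
        simp only [if_pos h3] at h4
        rw [← Finset.add_sum_erase _ _ (Finset.mem_univ u), add_self_ap,
          if_pos (Nat.le_add_left 1 _), add_sub_single, Pi.zero_apply] at h4
        rw [pr, eq_neg_of_add_eq_zero_left h4, mul_neg, Finset.mul_sum, ← Finset.sum_neg_distrib]
        refine Finset.sum_congr rfl fun v hv => ?_
        have hvu : v ≠ u := Finset.ne_of_mem_erase hv
        rw [add_ne_ap _ hvu]
        split_ifs with h5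
        · have h6 : (ν - Pi.single v 1 : ι → ℕ) u < cap u := by
            rw [sub_ne_ap _ hvu.symm]; exact h2
          simp only [w]
          rw [if_pos ⟨hle v, h6⟩, ct_ι_mul, h0 v (h5.trans (hν v)) hvu, zero_smul, zero_sub,
            sub_add_comm' ν hvu]
        · rw [mul_zero, neg_zero]
      · rw [if_neg h2]
        refine Finset.sum_eq_zero fun v hv => ?_
        have hvu : v ≠ u := Finset.ne_of_mem_erase hv
        split_ifs with h5
        · simp only [w]
          rw [if_neg (fun hh => h2 (by rw [← sub_ne_ap ν hvu.symm]; exact hh.2)), map_zero]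
        · rfl

theorem small (ρ : ℕ) (hK : Gen K ρ) {s : ℕ} (hs : 1 ≤ s) {cap : ι → ℕ} (hcap : ∀ u, cap u ≤ s)
    (hD : (Finset.univ.filter fun u => 1 ≤ cap u).card ≤ ρ) {j δ : ℕ} (hδ : (s - 1) * j < δ)
    {z : (ι → ℕ) → ExteriorAlgebra F K} (hz : Cy K s cap j δ z) : Bd K s cap j δ z := by
  have hκ : ∀ u, ∃ κ : K, 1 ≤ cap u → κ.1 u = 1 ∧ ∀ v, 1 ≤ cap v → v ≠ u → κ.1 v = 0 := by
    intro u
    by_cases hu : 1 ≤ cap u
    · obtain ⟨κ, hκ, h⟩ := hK _ hD u (by simpa using hu)
      refine ⟨⟨κ, hκ⟩, fun _ => ⟨?_, fun v hv hvu => ?_⟩⟩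
      · simpa using h u (by simpa using hu)
      · simpa [hvu] using h v (by simpa using hv)
    · exact ⟨0, fun h => absurd h hu⟩
  choose κ hκ using hκ
  have key : ∀ T : Finset ι, (∀ u ∈ T, 1 ≤ cap u) → ∃ b, Bd K s cap j δ b ∧
      ∀ u ∈ T, ∀ ν, 1 ≤ ν u → (ν u < cap u → (z - b) ν = 0) ∧
        pr (κ u) u ((z - b) ν) = (z - b) ν := by
    intro T
    induction T using Finset.induction_on with
    | empty => intro _; exact ⟨0, Bd_zero s cap j δ, by simp⟩
    | insert u T hu ih =>
      intro hT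
      obtain ⟨b, hb, hq⟩ := ih fun v hv => hT v (Finset.mem_insert_of_mem hv)
      have hu1 := hT u (Finset.mem_insert_self _ _)
      have hy := hz.sub hb.cy
      obtain ⟨c, hc, hf⟩ := homotopy hs hcap hy (hκ u hu1).1 (hκ u hu1).2
      refine ⟨b + c, hb.add hc, fun v hv ν hν => ?_⟩
      rw [← sub_sub]
      set y := z - b with hydef
      by_cases hbox : ∀ x, ν x ≤ cap x
      · have hval : (y - c) ν = 0 ∧ 1 ≤ ν u ∧ ν u < cap u ∨ (y - c) ν = pr (κ u) u (y ν) ∧ ν u = cap u ∨
            (y - c) ν = y ν - pr (κ u) u (y ν) ∧ ν u = 0 := by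
          rw [Pi.sub_apply, hf ν hbox]
          have := hbox u
          by_cases a1 : 1 ≤ ν u
          · by_cases a2 : ν u < cap u
            · left; rw [if_pos a1, if_pos a2]; exact ⟨by abel, a1, a2⟩
            · right; left; rw [if_pos a1, if_neg a2]; exact ⟨by abel, by omega⟩
          · right; right
            rw [if_neg a1, if_pos (by omega)]
            exact ⟨by abel, by omega⟩
        rcases Finset.mem_insert.1 hv with rfl | hvT
        · rcases hval with ⟨e, _, _⟩ | ⟨e, e2⟩ | ⟨_, e2⟩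
          · rw [e, pr_zero]; exact ⟨fun _ => rfl, rfl⟩
          · rw [e, pr_pr (hκ v hu1).1]; exact ⟨fun h => by omega, rfl⟩
          · omega
        · have hv1 := hT v hv
          have hvu : v ≠ u := fun h => hu (h ▸ hvT)
          have hcm := pr_comm ((hκ v hv1).2 u hu1 hvu.symm) ((hκ u hu1).2 v hv1 hvu) (y ν)
          obtain ⟨q1, q2⟩ := hq v hvT ν hν
          rcases hval with ⟨e, _, _⟩ | ⟨e, _⟩ | ⟨e, _⟩
          · rw [e, pr_zero]; exact ⟨fun _ => rfl, rfl⟩
          · rw [e, hcm, q2]
            exact ⟨fun h => by rw [q1 h, pr_zero], rfl⟩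
          · rw [e, pr_sub, hcm, q2]
            exact ⟨fun h => by rw [q1 h, pr_zero, sub_zero], rfl⟩
      · have e : (y - c) ν = 0 := by
          by_contra hne
          exact hbox ((hy.sub hc.cy).2.1 ν hne).1
        rw [e, pr_zero]; exact ⟨fun _ => rfl, rfl⟩
  obtain ⟨b, hb, hq⟩ := key (Finset.univ.filter fun u => 1 ≤ cap u) (by simp)
  have hy := hz.sub hb.cy
  have : z - b = 0 := by
    funext ν
    by_contra hne
    obtain ⟨hbox, hsum⟩ := hy.2.1 ν hne
    have hq' : ∀ u, 1 ≤ ν u → 1 ≤ cap u ∧ pr (κ u) u ((z - b) ν) = (z - b) ν := fun u hu =>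
      ⟨hu.trans (hbox u), (hq u (by simpa using hu.trans (hbox u)) ν hu).2⟩
    have hcard : (Finset.univ.filter fun u => 1 ≤ ν u).card ≤ j := by
      refine card_le_of_fixed κ _ j _ (fun u hu v hv hvu => ?_) (hy.1 ν).1 hne fun u hu => ?_
      · exact (hκ u (hq' u (by simpa using hu)).1).2 v (hq' v (by simpa using hv)).1 hvu
      · exact (hq' u (by simpa using hu)).2
    have hlt : ∀ u, ν u ≤ s - 1 := by
      intro u
      by_contra hlt
      have h1 := hbox u
      have h2 := hcap u
      have h3 : ν u = s := by omega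
      apply hne
      rw [← (hq' u (by omega)).2, pr, (hy.1 ν).2 u h3, mul_zero, Pi.zero_apply]
    have hs2 : ∑ u, ν u ≤ (Finset.univ.filter fun u => 1 ≤ ν u).card * (s - 1) := by
      rw [← Finset.sum_filter_of_ne (p := fun u => 1 ≤ ν u) (fun u _ h => by omega)]
      exact Finset.sum_le_card_nsmul _ _ _ fun u _ => hlt u
    have := Nat.mul_le_mul_right (s - 1) hcard
    rw [mul_comm j] at this
    omega
  rw [sub_eq_zero] at this
  rwa [this]

theorem slice {s : ℕ} (hs : 1 ≤ s) {cap : ι → ℕ} {j δ : ℕ} {u : ι} (hu : cap u < s)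
    (ih : ∀ a ≤ cap u, ∀ z, Cy K s (Function.update cap u 0) j (δ - a) z →
      Bd K s (Function.update cap u 0) j (δ - a) z) :
    ∀ n a, a + n = cap u + 1 → ∀ z, Cy K s cap j δ z → (∀ ν, ν u < a → z ν = 0) →
      Bd K s cap j δ z := by
  intro n
  induction n with
  | zero =>
    intro a ha z hz hl
    have : z = 0 := by
      funext ν
      by_contra hne
      have := (hz.2.1 ν hne).1 u
      exact hne (hl ν (by omega))
    rw [this]
    exact Bd_zero s cap j δ
  | succ n ihn =>
    intro a ha z hz hl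
    have hau : a ≤ cap u := by omega
    have hbox : ∀ (ν : ι → ℕ), (∀ v, ν v ≤ Function.update cap u 0 v) → ∀ v,
        Function.update ν u a v ≤ cap v := by
      intro ν h v
      by_cases hv : v = u
      · subst hv; rw [Function.update_self]; exact hau
      · have := h v
        rw [Function.update_of_ne hv] at this ⊢
        exact this
    have hbox' : ∀ (ν : ι → ℕ), (∀ v, ν v ≤ cap v) → ∀ v,
        Function.update ν u 0 v ≤ Function.update cap u 0 v := by
      intro ν h v
      by_cases hv : v = u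
      · subst hv; rw [Function.update_self, Function.update_self]
      · rw [Function.update_of_ne hv, Function.update_of_ne hv]; exact h v
    let y : (ι → ℕ) → ExteriorAlgebra F K := fun ν =>
      if ν u = 0 then z (Function.update ν u a) else 0
    have hy : Cy K s (Function.update cap u 0) j (δ - a) y := by
      refine ⟨fun ν => ?_, fun ν h => ?_, ?_⟩
      · simp only [y]
        split_ifs with h
        · refine ⟨(hz.1 _).1, fun v hv => (hz.1 _).2 v ?_⟩
          have hvu : v ≠ u := by
            rintro rfl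
            omega
          rw [Function.update_of_ne hvu]; exact hv
        · exact NN_zero K s j ν
      · simp only [y] at h
        split_ifs at h with h2
        · obtain ⟨h3, h4⟩ := hz.2.1 _ h
          have h5 := sum_update ν u a
          refine ⟨fun v => ?_, by omega⟩
          by_cases hv : v = u
          · subst hv; omega
          · have := h3 v
            rw [Function.update_of_ne hv] at this ⊢
            exact this
        · exact absurd rfl h
      · funext ν
        rw [bdT, Pi.zero_apply]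
        split_ifs with h
        · have h2 : ν u = 0 := by
            have := h u
            rw [Function.update_self] at this
            omega
          have h4 := congrFun hz.2.2 (Function.update ν u a)
          rw [bdT] at h4
          simp only [if_pos (hbox ν h)] at h4
          rw [Pi.zero_apply] at h4
          refine Eq.trans (Finset.sum_congr rfl fun v _ => ?_) h4
          by_cases hv : v = u
          · subst hv
            rw [if_neg (by omega)]
            split_ifs with h5
            · rw [hl, map_zero]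
              rw [Function.update_self] at h5
              rw [sub_self_ap, Function.update_self]
              omega
            · rfl
          · rw [Function.update_of_ne hv]
            simp only [y]
            rw [if_pos ((sub_ne_ap ν (Ne.symm hv)).trans h2), update_sub ν hv]
        · rfl
    obtain ⟨w', w1, w2, w3⟩ := ih a hau y hy
    let w : (ι → ℕ) → ExteriorAlgebra F K := fun ν =>
      if ν u = a then w' (Function.update ν u 0) else 0
    have hb : Bd K s cap j δ (bdT K cap w) := by
      refine ⟨w, fun ν => ?_, fun ν h => ?_, rfl⟩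
      · simp only [w]
        split_ifs with h
        · refine ⟨(w1 _).1, fun v hv => (w1 _).2 v ?_⟩
          have hvu : v ≠ u := by
            rintro rfl
            omega
          rw [Function.update_of_ne hvu]; exact hv
        · exact NN_zero K s _ ν
      · simp only [w] at h
        split_ifs at h with h2
        · obtain ⟨h3, h4⟩ := w2 _ h
          have h5 := sum_update ν u 0
          refine ⟨fun v => ?_, by omega⟩
          by_cases hv : v = u
          · subst hv; omega
          · have := h3 v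
            rw [Function.update_of_ne hv, Function.update_of_ne hv] at this
            exact this
        · exact absurd rfl h
    refine hb.of_sub (ihn (a + 1) (by omega) _ (hz.sub hb.cy) fun ν hν => ?_)
    rw [Pi.sub_apply, sub_eq_zero, bdT]
    split_ifs with h
    · by_cases h2 : ν u = a
      · have h4 := congrFun w3 (Function.update ν u 0)
        rw [bdT] at h4
        simp only [if_pos (hbox' ν h), y] at h4
        rw [if_pos (Function.update_self _ _ _), Function.update_idem, ← h2,
          Function.update_eq_self] at h4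
        rw [← h4]
        refine Finset.sum_congr rfl fun v _ => ?_
        by_cases hv : v = u
        · subst hv
          rw [Function.update_self, if_neg (by omega)]
          split_ifs with h5
          · simp only [w]
            rw [if_neg (by rw [sub_self_ap]; omega), map_zero]
          · rfl
        · rw [Function.update_of_ne hv]
          simp only [w]
          rw [if_pos ((sub_ne_ap ν (Ne.symm hv)).trans h2), update_sub ν hv]
      · rw [hl ν (by omega)]
        refine (Finset.sum_eq_zero fun v _ => ?_).symm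
        split_ifs
        · have := sub_le_ap ν v u
          simp only [w]
          rw [if_neg (by omega), map_zero]
        · rfl
    · by_contra hne
      exact h (hz.2.1 ν hne).1

theorem main (ρ : ℕ) (hK : Gen K ρ) {s : ℕ} (hs : 1 ≤ s) (j : ℕ) :
    ∀ (n : ℕ) (cap : ι → ℕ), (∀ u, cap u ≤ s) →
      (Finset.univ.filter fun u => cap u = s).card ≤ ρ →
      (Finset.univ.filter fun u => 1 ≤ cap u).card - ρ = n →
      ∀ δ, (s - 1) * (j + n) < δ → ∀ z, Cy K s cap j δ z → Bd K s cap j δ z := by
  intro n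
  induction n with
  | zero =>
    intro cap hcap _ hn δ hδ z hz
    exact small ρ hK hs hcap (by omega) hδ hz
  | succ n ih =>
    intro cap hcap hD0 hn δ hδ z hz
    obtain ⟨u, hu1, hu2⟩ := Finset.exists_mem_notMem_of_card_lt_card
      (s := Finset.univ.filter fun u => cap u = s) (t := Finset.univ.filter fun u => 1 ≤ cap u)
      (by omega)
    have hu1' : 1 ≤ cap u := by simpa using hu1
    have hu2' : cap u < s := lt_of_le_of_ne (hcap u) (by simpa using hu2)
    refine slice hs hu2' (fun a ha y hy => ih _ (fun v => ?_) ?_ ?_ _ ?_ y hy) (cap u + 1) 0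
      (by omega) z hz (fun ν h => absurd h (Nat.not_lt_zero _))
    · by_cases hv : v = u
      · subst hv; rw [Function.update_self]; omega
      · rw [Function.update_of_ne hv]; exact hcap v
    · refine le_trans (Finset.card_le_card fun v hv => ?_) hD0
      simp only [Finset.mem_filter, Finset.mem_univ, true_and] at hv ⊢
      by_cases hvu : v = u
      · subst hvu; rw [Function.update_self] at hv; omega
      · rwa [Function.update_of_ne hvu] at hv
    · have : (Finset.univ.filter fun v => 1 ≤ Function.update cap u 0 v) =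
          (Finset.univ.filter fun v => 1 ≤ cap v).erase u := by
        ext v
        simp only [Finset.mem_filter, Finset.mem_univ, true_and, Finset.mem_erase]
        by_cases hvu : v = u
        · subst hvu; simp
        · simp [hvu]
      rw [this, Finset.card_erase_of_mem hu1]
      omega
    · have : (s - 1) * (j + (n + 1)) = (s - 1) * (j + n) + (s - 1) := by ring
      omega

end Row

theorem row_exact (K : Submodule F (ι → F)) (ρ : ℕ) (hK : Gen K ρ) (s : ℕ) (hs : 1 ≤ s)
    (cap : ι → ℕ) (hcap : ∀ u, cap u ≤ s)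
    (hD0 : (Finset.univ.filter fun u => cap u = s).card ≤ ρ) (j δ : ℕ)
    (hδ : (s - 1) * (j + ((Finset.univ.filter fun u => 1 ≤ cap u).card - ρ)) < δ)
    (z : (ι → ℕ) → ExteriorAlgebra F K) (hN : ∀ ν, NN K s j ν (z ν))
    (hz : ∀ ν, z ν ≠ 0 → (∀ v, ν v ≤ cap v) ∧ ∑ u, ν u = δ) (h0 : bdT K cap z = 0) :
    ∃ w : (ι → ℕ) → ExteriorAlgebra F K, (∀ ν, NN K s (j + 1) ν (w ν)) ∧
      (∀ ν, w ν ≠ 0 → (∀ v, ν v ≤ cap v) ∧ ∑ u, ν u + 1 = δ) ∧ bdT K cap w = z :=
  Row.main ρ hK hs j _ cap hcap hD0 rfl δ hδ z ⟨hN, hz, h0⟩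

end Pool.Agent.Lib.MP_deca50_lc.Odd
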