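import Pool.Agent.Lib.MP_deca50_lc.Odd.Abs
import Pool.Agent.Lib.MP_deca50_lc.Odd.Col
import Pool.Agent.Lib.MP_deca50_lc.Odd.Row

/-! The double complex: columns are Jordan block products, rows are Koszul complexes. -/

set_option linter.unusedSectionVars false

namespace Pool.Agent.Lib.MP_deca50_lc.Odd

variable {F : Type} [Field F] {ι : Type} [Fintype ι] [DecidableEq ι]

/-- Functions of two multi-indices with values in the exterior algebra. -/
abbrev Grid (K : Submodule F (ι → F)) := (ι → ℕ) → (ι → ℕ) → ExteriorAlgebra F K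

/-- The raising operator of the grid. -/
noncomputable def EE (K : Submodule F (ι → F)) (s : ℕ) : Grid K →+ Grid K where
  toFun x := fun μ ν => if ∀ v, μ v + ν v ≤ s then
    ∑ u, (if 1 ≤ μ u then x (μ - Pi.single u 1) ν else 0) else 0
  map_zero' := by funext μ ν; simp
  map_add' x y := by
    funext μ ν
    simp only [Pi.add_apply]
    split_ifs
    · rw [← Finset.sum_add_distrib]
      refine Finset.sum_congr rfl fun u _ => ?_
      split_ifs <;> simp
    · simp

/-- The Koszul differential of the grid. -/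
noncomputable def DD (K : Submodule F (ι → F)) (s : ℕ) : Grid K →+ Grid K where
  toFun x := fun μ ν => if ∀ v, μ v + ν v ≤ s then
    ∑ u, (if 1 ≤ ν u then ct K u (x μ (ν - Pi.single u 1)) else 0) else 0
  map_zero' := by funext μ ν; simp
  map_add' x y := by
    funext μ ν
    simp only [Pi.add_apply]
    split_ifs
    · rw [← Finset.sum_add_distrib]
      refine Finset.sum_congr rfl fun u _ => ?_
      split_ifs <;> simp
    · simp

theorem EE_apply (K : Submodule F (ι → F)) (s : ℕ) (x : Grid K) (μ ν : ι → ℕ) :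
    EE K s x μ ν = if ∀ v, μ v + ν v ≤ s then
      ∑ u, (if 1 ≤ μ u then x (μ - Pi.single u 1) ν else 0) else 0 := rfl

theorem DD_apply (K : Submodule F (ι → F)) (s : ℕ) (x : Grid K) (μ ν : ι → ℕ) :
    DD K s x μ ν = if ∀ v, μ v + ν v ≤ s then
      ∑ u, (if 1 ≤ ν u then ct K u (x μ (ν - Pi.single u 1)) else 0) else 0 := rfl

/-- The piece of homological degree `j` and level `d`. -/
def GG (K : Submodule F (ι → F)) (s m j : ℕ) (d : ℤ) (x : Grid K) : Prop :=
  (∀ μ ν, NN K s j ν (x μ ν)) ∧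
    ∀ μ ν, x μ ν ≠ 0 → (∀ v, μ v + ν v ≤ s) ∧ ((∑ u, μ u : ℕ) : ℤ) = d ∧ ∑ u, ν u + j = m

/-- The part whose rows have support of size at least `k`. -/
def GG' (K : Submodule F (ι → F)) (s m k j : ℕ) (d : ℤ) (x : Grid K) : Prop :=
  GG K s m j d x ∧ ∀ μ ν, x μ ν ≠ 0 → k ≤ (Finset.univ.filter fun u => 1 ≤ μ u).card

theorem sub_single_apply (μ : ι → ℕ) (u v : ι) :
    (μ - Pi.single u 1 : ι → ℕ) v = μ v - if v = u then 1 else 0 := by
  simp [Pi.single_apply]

theorem sub_single_le (μ : ι → ℕ) (u v : ι) : (μ - Pi.single u 1 : ι → ℕ) v ≤ μ v := by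
  rw [sub_single_apply]; omega

theorem sum_sub_single {μ : ι → ℕ} {u : ι} (h : 1 ≤ μ u) :
    ∑ v, (μ - Pi.single u 1 : ι → ℕ) v + 1 = ∑ v, μ v := by
  have h1 : ∑ v, (Pi.single u 1 : ι → ℕ) v = 1 := by simp
  rw [show ∑ v, (μ - Pi.single u 1 : ι → ℕ) v + 1 =
    ∑ v, (μ - Pi.single u 1 : ι → ℕ) v + ∑ v, (Pi.single u 1 : ι → ℕ) v by rw [h1],
    ← Finset.sum_add_distrib]
  refine Finset.sum_congr rfl fun v _ => ?_
  rw [sub_single_apply, Pi.single_apply]
  split_ifs with hv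
  · subst hv; omega
  · omega

theorem NN.zero (K : Submodule F (ι → F)) (s j : ℕ) (ν : ι → ℕ) : NN K s j ν 0 :=
  ⟨Submodule.zero_mem _, fun _ _ => map_zero _⟩

/-- The condition `NN` as a submodule. -/
noncomputable def NNs (K : Submodule F (ι → F)) (s j : ℕ) (ν : ι → ℕ) :
    Submodule F (ExteriorAlgebra F K) where
  carrier := {w | NN K s j ν w}
  zero_mem' := NN.zero K s j ν
  add_mem' := fun ha hb => ⟨Submodule.add_mem _ ha.1 hb.1,
    fun u hu => by rw [map_add, ha.2 u hu, hb.2 u hu, add_zero]⟩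
  smul_mem' := fun c _ ha => ⟨Submodule.smul_mem _ c ha.1,
    fun u hu => by rw [map_smul, ha.2 u hu, smul_zero]⟩

theorem mem_NNs {K : Submodule F (ι → F)} {s j : ℕ} {ν : ι → ℕ} {w : ExteriorAlgebra F K} :
    w ∈ NNs K s j ν ↔ NN K s j ν w := Iff.rfl

theorem EE_DD (K : Submodule F (ι → F)) (s : ℕ) (x : Grid K) :
    EE K s (DD K s x) = DD K s (EE K s x) := by
  funext μ ν
  rw [EE_apply, DD_apply]
  split_ifs with h
  · have h1 : ∀ u, (if 1 ≤ μ u then DD K s x (μ - Pi.single u 1) ν else 0) =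
        ∑ v, (if 1 ≤ μ u then if 1 ≤ ν v then
          ct K v (x (μ - Pi.single u 1) (ν - Pi.single v 1)) else 0 else 0) := by
      intro u
      split_ifs with hu
      · rw [DD_apply, if_pos]
        intro v
        have := sub_single_le μ u v
        have := h v
        omega
      · simp
    have h2 : ∀ v, (if 1 ≤ ν v then ct K v (EE K s x μ (ν - Pi.single v 1)) else 0) =
        ∑ u, (if 1 ≤ μ u then if 1 ≤ ν v then
          ct K v (x (μ - Pi.single u 1) (ν - Pi.single v 1)) else 0 else 0) := by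
      intro v
      split_ifs with hv
      · rw [EE_apply, if_pos, map_sum]
        · refine Finset.sum_congr rfl fun u _ => ?_
          split_ifs <;> simp
        · intro w
          have := sub_single_le ν v w
          have := h w
          omega
      · simp
    simp only [h1, h2]
    exact Finset.sum_comm
  · rfl

theorem GG.sub {K : Submodule F (ι → F)} {s m j : ℕ} {d : ℤ} {x y : Grid K}
    (hx : GG K s m j d x) (hy : GG K s m j d y) : GG K s m j d (x - y) := by
  refine ⟨fun μ ν => (NNs K s j ν).sub_mem (hx.1 μ ν) (hy.1 μ ν), fun μ ν h => ?_⟩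
  by_cases h1 : x μ ν = 0
  · refine hy.2 μ ν fun h2 => h ?_
    simp [h1, h2]
  · exact hx.2 μ ν h1

theorem EE_ne_zero {K : Submodule F (ι → F)} {s : ℕ} {x : Grid K} {μ ν : ι → ℕ}
    (h : EE K s x μ ν ≠ 0) :
    (∀ v, μ v + ν v ≤ s) ∧ ∃ u, 1 ≤ μ u ∧ x (μ - Pi.single u 1) ν ≠ 0 := by
  rw [EE_apply] at h
  split_ifs at h with h1
  · refine ⟨h1, ?_⟩
    obtain ⟨u, -, hu⟩ := Finset.exists_ne_zero_of_sum_ne_zero h
    split_ifs at hu with h2
    · exact ⟨u, h2, hu⟩
    · exact absurd rfl hu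
  · exact absurd rfl h

theorem DD_ne_zero {K : Submodule F (ι → F)} {s : ℕ} {x : Grid K} {μ ν : ι → ℕ}
    (h : DD K s x μ ν ≠ 0) :
    (∀ v, μ v + ν v ≤ s) ∧ ∃ u, 1 ≤ ν u ∧ x μ (ν - Pi.single u 1) ≠ 0 := by
  rw [DD_apply] at h
  split_ifs at h with h1
  · refine ⟨h1, ?_⟩
    obtain ⟨u, -, hu⟩ := Finset.exists_ne_zero_of_sum_ne_zero h
    split_ifs at hu with h2
    · exact ⟨u, h2, fun h3 => hu (by rw [h3, map_zero])⟩
    · exact absurd rfl hu
  · exact absurd rfl h

theorem GG.up {K : Submodule F (ι → F)} {s m j : ℕ} {d : ℤ} {x : Grid K}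
    (hx : GG K s m j d x) : GG K s m j (d + 1) (EE K s x) := by
  refine ⟨fun μ ν => ?_, fun μ ν h => ?_⟩
  · rw [EE_apply]
    split_ifs
    · refine (NNs K s j ν).sum_mem fun u _ => ?_
      split_ifs
      · exact hx.1 _ _
      · exact NN.zero _ _ _ _
    · exact NN.zero _ _ _ _
  · obtain ⟨h1, u, hu, h2⟩ := EE_ne_zero h
    obtain ⟨-, h3, h4⟩ := hx.2 _ _ h2
    refine ⟨h1, ?_, h4⟩
    rw [← sum_sub_single hu, ← h3]; push_cast; ring

theorem GG'.up {K : Submodule F (ι → F)} {s m k j : ℕ} {d : ℤ} {x : Grid K}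
    (hx : GG' K s m k j d x) : GG' K s m k j (d + 1) (EE K s x) := by
  refine ⟨hx.1.up, fun μ ν h => ?_⟩
  obtain ⟨-, u, -, h2⟩ := EE_ne_zero h
  refine (hx.2 _ _ h2).trans (Finset.card_le_card fun v hv => ?_)
  simp only [Finset.mem_filter, Finset.mem_univ, true_and] at hv ⊢
  exact hv.trans (sub_single_le μ u v)

theorem GG.down {K : Submodule F (ι → F)} {s m j : ℕ} {d : ℤ} {x : Grid K}
    (hx : GG K s m (j + 1) d x) : GG K s m j d (DD K s x) := by
  refine ⟨fun μ ν => ?_, fun μ ν h => ?_⟩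
  · rw [DD_apply]
    split_ifs
    · refine (NNs K s j ν).sum_mem fun u _ => ?_
      split_ifs
      · refine ⟨ct_mem_LL K u j (hx.1 _ _).1, fun v hv => ?_⟩
        by_cases huv : v = u
        · rw [huv, ct_ct]
        · rw [ct_comm, (hx.1 μ (ν - Pi.single u 1)).2 v, map_zero, neg_zero]
          rw [sub_single_apply, if_neg huv, hv]; rfl
      · exact NN.zero _ _ _ _
    · exact NN.zero _ _ _ _
  · obtain ⟨h1, u, hu, h2⟩ := DD_ne_zero h
    obtain ⟨-, h3, h4⟩ := hx.2 _ _ h2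
    refine ⟨h1, h3, ?_⟩
    rw [← sum_sub_single hu]; omega

theorem GG.down_zero {K : Submodule F (ι → F)} {s m : ℕ} {d : ℤ} {x : Grid K}
    (hx : GG K s m 0 d x) : DD K s x = 0 := by
  funext μ ν
  rw [DD_apply]
  split_ifs
  · refine Finset.sum_eq_zero fun u _ => ?_
    split_ifs
    · exact ct_LL_zero K u (hx.1 _ _).1
    · rfl
  · rfl

theorem DD_DD (h2 : (2 : F) ≠ 0) (K : Submodule F (ι → F)) (s : ℕ) (x : Grid K) :
    DD K s (DD K s x) = 0 := by
  funext μ ν
  rw [DD_apply]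
  split_ifs with h
  · set t : ι → ι → ExteriorAlgebra F K := fun u v =>
      if 1 ≤ ν u ∧ 1 ≤ (ν - Pi.single u 1 : ι → ℕ) v then
        ct K u (ct K v (x μ (ν - Pi.single u 1 - Pi.single v 1))) else 0 with ht
    have h1 : ∀ u, (if 1 ≤ ν u then ct K u (DD K s x μ (ν - Pi.single u 1)) else 0) =
        ∑ v, t u v := by
      intro u
      split_ifs with hu
      · rw [DD_apply, if_pos, map_sum]
        · refine Finset.sum_congr rfl fun v _ => ?_
          simp only [ht, hu, true_and]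
          split_ifs <;> simp
        · intro w
          have := sub_single_le ν u w
          have := h w
          omega
      · simp [ht, hu]
    have hanti : ∀ u v, t u v = - t v u := by
      intro u v
      by_cases huv : u = v
      · subst huv
        simp only [ht]
        split_ifs
        · rw [ct_ct, neg_zero]
        · rw [neg_zero]
      · have e1 : (ν - Pi.single u 1 : ι → ℕ) v = ν v := by
          rw [sub_single_apply, if_neg (Ne.symm huv)]; rfl
        have e2 : (ν - Pi.single v 1 : ι → ℕ) u = ν u := by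
          rw [sub_single_apply, if_neg huv]; rfl
        simp only [ht, e1, e2]
        by_cases hc : 1 ≤ ν u ∧ 1 ≤ ν v
        · rw [if_pos hc, if_pos hc.symm, ct_comm, tsub_right_comm]
        · rw [if_neg hc, if_neg (fun h => hc h.symm), neg_zero]
    simp only [h1]
    have h3 : ∑ u, ∑ v, t u v = - ∑ u, ∑ v, t u v := by
      conv_lhs => rw [Finset.sum_comm]
      rw [← Finset.sum_neg_distrib]
      refine Finset.sum_congr rfl fun u _ => ?_
      rw [← Finset.sum_neg_distrib]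
      exact Finset.sum_congr rfl fun v _ => hanti v u
    have h4 : (2 : F) • ∑ u, ∑ v, t u v = 0 := by
      rw [two_smul]; nth_rewrite 1 [h3]; exact neg_add_cancel _
    exact (smul_eq_zero.mp h4).resolve_left h2
  · rfl

theorem EE_col (K : Submodule F (ι → F)) (s : ℕ) (ν : ι → ℕ) (hν : ∀ v, ν v ≤ s) (x : Grid K) :
    (fun μ => EE K s x μ ν) = upT (fun v => s - ν v) (fun μ => x μ ν) := by
  funext μ
  rw [EE_apply, upT]
  refine if_congr (forall_congr' fun v => ?_) rfl rfl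
  have := hν v
  omega

theorem EE_iter_col (K : Submodule F (ι → F)) (s : ℕ) (ν : ι → ℕ) (hν : ∀ v, ν v ≤ s) (r : ℕ) :
    ∀ x : Grid K, (fun μ => (EE K s)^[r] x μ ν) =
      (upT (fun v => s - ν v))^[r] (fun μ => x μ ν) := by
  induction r with
  | zero => intro x; rfl
  | succ r ih =>
    intro x
    rw [Function.iterate_succ_apply, ih, EE_col K s ν hν, Function.iterate_succ_apply]

theorem EE_iter_col_zero (K : Submodule F (ι → F)) (s : ℕ) (ν : ι → ℕ) (r : ℕ) :
    ∀ x : Grid K, (∀ μ, x μ ν = 0) → ∀ μ, (EE K s)^[r] x μ ν = 0 := by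
  induction r with
  | zero => intro x h; exact h
  | succ r ih =>
    intro x h
    rw [Function.iterate_succ_apply]
    refine ih _ fun μ => ?_
    by_contra h1
    obtain ⟨-, u, -, h2⟩ := EE_ne_zero h1
    exact h2 (h _)

theorem GG.col_zero {K : Submodule F (ι → F)} {s m j : ℕ} {d : ℤ} {x : Grid K}
    (hx : GG K s m j d x) {ν : ι → ℕ} (h : ¬ ((∀ v, ν v ≤ s) ∧ ∑ u, ν u + j = m)) (μ : ι → ℕ) :
    x μ ν = 0 := by
  by_contra h1
  obtain ⟨h2, -, h3⟩ := hx.2 μ ν h1
  exact h ⟨fun v => le_trans (Nat.le_add_left _ _) (h2 v), h3⟩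

theorem GG.iter_p (p : ℕ) [Fact p.Prime] [CharP F p] {K : Submodule F (ι → F)} {s m j : ℕ}
    (hs : s < p) {d : ℤ} {x : Grid K} (hx : GG K s m j d x) : (EE K s)^[p] x = 0 := by
  funext μ ν
  by_cases h : ∀ v, ν v ≤ s
  · have h1 := EE_iter_col K s ν h p x
    rw [upT_iterate_p (F := F) p _ (fun u => lt_of_le_of_lt (Nat.sub_le _ _) hs)] at h1
    exact congrFun h1 μ
  · exact EE_iter_col_zero K s ν p x (hx.col_zero fun h1 => h h1.1) μ

theorem GG.col (p : ℕ) [Fact p.Prime] [CharP F p] (hp : 3 ≤ p) {K : Submodule F (ι → F)}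
    {s m j : ℕ} (hs : s ≤ 2) {Γ : ℤ} (hΓ : Γ + m = s * Fintype.card ι) {d : ℤ} {r : ℕ}
    {x : Grid K} (hr : r ≤ p) (hd : Γ + j + p ≤ 2 * d + r) (hx : GG K s m j d x)
    (h0 : (EE K s)^[r] x = 0) :
    ∃ y, GG K s m j (d - ((p - r : ℕ) : ℤ)) y ∧ (EE K s)^[p - r] y = x := by
  have key : ∀ ν : ι → ℕ, ∃ g : (ι → ℕ) → ExteriorAlgebra F K, (∀ μ, NN K s j ν (g μ)) ∧
      (∀ μ, g μ ≠ 0 → (∀ v, μ v + ν v ≤ s) ∧ ((∑ u, μ u : ℕ) : ℤ) = d - ((p - r : ℕ) : ℤ) ∧
        ∑ u, ν u + j = m) ∧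
      ∀ y : Grid K, (∀ μ, y μ ν = g μ) → ∀ μ, (EE K s)^[p - r] y μ ν = x μ ν := by
    intro ν
    by_cases hz : ∀ μ, x μ ν = 0
    · refine ⟨0, fun _ => NN.zero _ _ _ _, fun μ h => absurd rfl h, fun y hy μ => ?_⟩
      rw [hz, EE_iter_col_zero K s ν _ y hy]
    · push Not at hz
      obtain ⟨μ0, hμ0⟩ := hz
      obtain ⟨h1, h2, h3⟩ := hx.2 μ0 ν hμ0
      have hν : ∀ v, ν v ≤ s := fun v => le_trans (Nat.le_add_left _ _) (h1 v)
      have hsum : ∑ u, (s - ν u) + ∑ u, ν u = s * Fintype.card ι := by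
        rw [← Finset.sum_add_distrib, Finset.sum_congr rfl fun u _ => Nat.sub_add_cancel (hν u)]
        simp [mul_comm]
      have hsum' : ((∑ u, (s - ν u) : ℕ) : ℤ) + ((∑ u, ν u : ℕ) : ℤ) = s * Fintype.card ι := by
        exact_mod_cast hsum
      have h3' : ((∑ u, ν u : ℕ) : ℤ) + j = m := by exact_mod_cast h3
      obtain ⟨g, hg1, hg2, hg3⟩ := col_exact p hp (NNs K s j ν) (fun v => s - ν v)
        (fun u => le_trans (Nat.sub_le _ _) hs) (∑ u, μ0 u) r hr
        (by
          have : ((∑ u, (s - ν u) : ℕ) : ℤ) + p ≤ 2 * ((∑ u, μ0 u : ℕ) : ℤ) + r := by linarith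
          exact_mod_cast this)
        (fun μ => x μ ν) (fun μ => hx.1 μ ν)
        (fun μ h => by
          obtain ⟨h4, h5, -⟩ := hx.2 μ ν h
          refine ⟨fun v => ?_, ?_⟩
          · have := h4 v
            show μ v ≤ s - ν v
            omega
          · exact_mod_cast h5.trans h2.symm)
        (by rw [← EE_iter_col K s ν hν, h0]; rfl)
      refine ⟨g, hg1, fun μ h => ?_, fun y hy μ => ?_⟩
      · obtain ⟨h4, h5⟩ := hg2 μ h
        refine ⟨fun v => ?_, ?_, h3⟩
        · have h6 : μ v ≤ s - ν v := h4 v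
          have := hν v
          omega
        · rw [← h2, ← h5]; push_cast; ring
      · have h4 := congrFun (EE_iter_col K s ν hν (p - r) y) μ
        have h5 : (fun μ => y μ ν) = g := funext hy
        rw [h5, hg3] at h4
        exact h4
  choose g hg1 hg2 hg3 using key
  refine ⟨fun μ ν => g ν μ, ⟨fun μ ν => hg1 ν μ, fun μ ν => hg2 ν μ⟩, ?_⟩
  funext μ ν
  exact hg3 ν _ (fun _ => rfl) μ

theorem DD_row (K : Submodule F (ι → F)) (s : ℕ) (μ : ι → ℕ) (hμ : ∀ v, μ v ≤ s) (x : Grid K) :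
    DD K s x μ = bdT K (fun v => s - μ v) (x μ) := by
  funext ν
  rw [DD_apply, bdT]
  refine if_congr (forall_congr' fun v => ?_) rfl rfl
  have := hμ v
  omega

theorem GG'.row {K : Submodule F (ι → F)} {ρ : ℕ} (hK : Gen K ρ) {s m k j : ℕ} (hs : 1 ≤ s)
    (hk : ρ + k = Fintype.card ι) {d : ℤ} {z : Grid K} (hz : GG' K s m k j d z)
    (h0 : DD K s z = 0)
    (hδ : ∀ μ ν : ι → ℕ, (∀ v, μ v + ν v ≤ s) → ((∑ u, μ u : ℕ) : ℤ) = d → ∑ u, ν u + j = m →
      (s - 1) * (j + ((Finset.univ.filter fun u => μ u < s).card - ρ)) < ∑ u, ν u) :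
    ∃ w, GG' K s m k (j + 1) d w ∧ DD K s w = z := by
  have key : ∀ μ : ι → ℕ, ∃ g : (ι → ℕ) → ExteriorAlgebra F K, (∀ ν, NN K s (j + 1) ν (g ν)) ∧
      (∀ ν, g ν ≠ 0 → ((∀ v, μ v + ν v ≤ s) ∧ ((∑ u, μ u : ℕ) : ℤ) = d ∧
        ∑ u, ν u + (j + 1) = m) ∧ k ≤ (Finset.univ.filter fun u => 1 ≤ μ u).card) ∧
      ∀ y : Grid K, y μ = g → DD K s y μ = z μ := by
    intro μ
    by_cases hzz : ∀ ν, z μ ν = 0
    · refine ⟨0, fun _ => NN.zero _ _ _ _, fun ν h => absurd rfl h, fun y hy => ?_⟩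
      funext ν
      rw [hzz]
      by_contra h1
      obtain ⟨-, u, -, h2⟩ := DD_ne_zero h1
      exact h2 (by rw [hy]; rfl)
    · push Not at hzz
      obtain ⟨ν0, hν0⟩ := hzz
      obtain ⟨h1, h2, h3⟩ := hz.1.2 μ ν0 hν0
      have hsupp := hz.2 μ ν0 hν0
      have hμ : ∀ v, μ v ≤ s := fun v => le_trans (Nat.le_add_right _ _) (h1 v)
      have hc : (Finset.univ.filter fun u => s - μ u = s).card ≤ ρ := by
        have h4 := Finset.card_filter_add_card_filter_not (s := (Finset.univ : Finset ι))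
          (fun u => 1 ≤ μ u)
        rw [Finset.card_univ] at h4
        have h5 : (Finset.univ.filter fun u => s - μ u = s) =
            Finset.univ.filter fun u => ¬ 1 ≤ μ u := by
          refine Finset.filter_congr fun u _ => ?_
          have := hμ u
          omega
        rw [h5]; omega
      have hc2 : (Finset.univ.filter fun u => 1 ≤ s - μ u) =
          Finset.univ.filter fun u => μ u < s := Finset.filter_congr fun u _ => by omega
      obtain ⟨g, hg1, hg2, hg3⟩ := row_exact K ρ hK s hs (fun v => s - μ v)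
        (fun u => Nat.sub_le _ _) hc j (∑ u, ν0 u) (by rw [hc2]; exact hδ μ ν0 h1 h2 h3) (z μ)
        (fun ν => hz.1.1 μ ν)
        (fun ν h => by
          obtain ⟨h4, -, h5⟩ := hz.1.2 μ ν h
          refine ⟨fun v => ?_, by omega⟩
          have := h4 v
          show ν v ≤ s - μ v
          omega)
        (by rw [← DD_row K s μ hμ, h0]; rfl)
      refine ⟨g, hg1, fun ν h => ?_, fun y hy => ?_⟩
      · obtain ⟨h4, h5⟩ := hg2 ν h
        refine ⟨⟨fun v => ?_, h2, by omega⟩, hsupp⟩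
        have h6 : ν v ≤ s - μ v := h4 v
        have := hμ v
        omega
      · rw [DD_row K s μ hμ, hy, hg3]
  choose g hg1 hg2 hg3 using key
  refine ⟨g, ⟨⟨hg1, fun μ ν h => (hg2 μ ν h).1⟩, fun μ ν h => (hg2 μ ν h).2⟩, ?_⟩
  funext μ
  exact hg3 μ g rfl

end Pool.Agent.Lib.MP_deca50_lc.Odd
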